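import Mathlib

/-! A1 (MEDIUM, algebra, ONLY MATHLIB). Noether normalisation over the fraction field, spread out. Plan: K := FractionRing C,
B_K := localisation of B at the image of C ∖ 0 (= K ⊗[C] B), a domain of finite type over K, B ⊆ B_K (FaithfulSMul, B domain). exists_finite_inj_algHom_of_fg K B_K (Mathlib,
RingTheory/NoetherNormalization) gives u_1 … u_n ∈ B_K algebraically independent over K with B_K integral over K[u]. Multiply every u_i by a nonzero element of C to get
t_i ∈ B (K[t] = K[u]; algebraic independence over K is kept, hence over C). Generators β_j of B over C: β_j satisfies a monic equation over K[t]; let c ≠ 0 in C be a common denominator of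
all coefficients of all these equations (coefficients in K[t], c a ∈ C[t] = Algebra.adjoin C (range t)): then c β_j satisfies the monic equation with coefficients c^i a_i ∈ C[t]: integral.
Every b ∈ B is a polynomial in the β_j over C, so c^N b is integral for large N (integral elements form a subring; Algebra.adjoin_induction or Algebra.FiniteType surjection). -/

namespace LibHM79S

private theorem A1_adj {C B : Type} [CommRing C] [CommRing B] [Algebra C B] {n : ℕ} (t : Fin n → B)
    (b : B) {p : Polynomial (MvPolynomial (Fin n) C)} (hp : p.Monic)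
    (h : p.eval₂ (MvPolynomial.aeval t : MvPolynomial (Fin n) C →ₐ[C] B).toRingHom b = 0) :
    IsIntegral (Algebra.adjoin C (Set.range t)) b := by
  have hmem : ∀ q : MvPolynomial (Fin n) C, MvPolynomial.aeval t q ∈ Algebra.adjoin C (Set.range t) := by
    intro q
    rw [Algebra.adjoin_range_eq_range_aeval]
    exact ⟨q, rfl⟩
  let ψ : MvPolynomial (Fin n) C →ₐ[C] Algebra.adjoin C (Set.range t) :=
    (MvPolynomial.aeval t).codRestrict _ hmem
  refine ⟨p.map ψ.toRingHom, hp.map _, ?_⟩
  rw [Polynomial.eval₂_map]
  exact h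

private theorem A1_pow {A B : Type} [CommRing A] [CommRing B] [Algebra A B] {C : Type} [CommRing C] [Algebra C B]
    (hC : ∀ x : C, IsIntegral A (algebraMap C B x)) (c : C) (s : Set B) (hs : Algebra.adjoin C s = ⊤)
    (h : ∀ b ∈ s, IsIntegral A (algebraMap C B c * b)) (b : B) :
    ∃ N : ℕ, IsIntegral A (algebraMap C B c ^ N * b) := by
  have hup : ∀ (x : B) (N N' : ℕ), N ≤ N' → IsIntegral A (algebraMap C B c ^ N * x) →
      IsIntegral A (algebraMap C B c ^ N' * x) := by
    intro x N N' hN hx
    obtain ⟨k, rfl⟩ := Nat.exists_eq_add_of_le hN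
    have : algebraMap C B c ^ (N + k) * x = algebraMap C B c ^ k * (algebraMap C B c ^ N * x) := by
      rw [pow_add]
      ring
    rw [this]
    exact ((hC c).pow k).mul hx
  have hb : b ∈ Algebra.adjoin C s := by rw [hs]; exact Algebra.mem_top
  induction hb using Algebra.adjoin_induction with
  | mem x hx => exact ⟨1, by rw [pow_one]; exact h x hx⟩
  | algebraMap r => exact ⟨0, by rw [pow_zero, one_mul]; exact hC r⟩
  | add x y _ _ hx hy =>
    obtain ⟨N, hN⟩ := hx
    obtain ⟨N', hN'⟩ := hy
    refine ⟨max N N', ?_⟩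
    rw [mul_add]
    exact (hup x N _ (le_max_left _ _) hN).add (hup y N' _ (le_max_right _ _) hN')
  | mul x y _ _ hx hy =>
    obtain ⟨N, hN⟩ := hx
    obtain ⟨N', hN'⟩ := hy
    refine ⟨N + N', ?_⟩
    have : algebraMap C B c ^ (N + N') * (x * y) =
        (algebraMap C B c ^ N * x) * (algebraMap C B c ^ N' * y) := by
      rw [pow_add]
      ring
    rw [this]
    exact hN.mul hN'

private theorem A1_den {C B K L : Type} [CommRing C] [IsDomain C] [CommRing B] [Field K] [Field L]
    [Algebra C B] [Algebra C K] [IsFractionRing C K] [Algebra B L] [Algebra C L] [Algebra K L]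
    [IsScalarTower C B L] [IsScalarTower C K L] (s : Set B) (x : L)
    (hx : x ∈ Algebra.adjoin K (algebraMap B L '' s)) :
    ∃ c : C, c ≠ 0 ∧ ∃ b : B, algebraMap C L c * x = algebraMap B L b := by
  induction hx using Algebra.adjoin_induction with
  | mem x hx =>
    obtain ⟨b, _, rfl⟩ := hx
    exact ⟨1, one_ne_zero, b, by rw [map_one, one_mul]⟩
  | algebraMap r =>
    obtain ⟨⟨a, d⟩, hr⟩ := IsLocalization.surj (nonZeroDivisors C) r
    refine ⟨d, nonZeroDivisors.ne_zero d.2, algebraMap C B a, ?_⟩
    have hr' : r * algebraMap C K (d : C) = algebraMap C K a := hr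
    rw [IsScalarTower.algebraMap_apply C K L, ← map_mul, mul_comm, hr',
      ← IsScalarTower.algebraMap_apply C K L, ← IsScalarTower.algebraMap_apply C B L]
  | add x y _ _ hx hy =>
    obtain ⟨c, hc, b, hb⟩ := hx
    obtain ⟨c', hc', b', hb'⟩ := hy
    refine ⟨c * c', mul_ne_zero hc hc', algebraMap C B c' * b + algebraMap C B c * b', ?_⟩
    rw [map_add, map_mul, map_mul, map_mul, ← hb, ← hb', ← IsScalarTower.algebraMap_apply C B L,
      ← IsScalarTower.algebraMap_apply C B L]
    ring
  | mul x y _ _ hx hy =>
    obtain ⟨c, hc, b, hb⟩ := hx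
    obtain ⟨c', hc', b', hb'⟩ := hy
    refine ⟨c * c', mul_ne_zero hc hc', b * b', ?_⟩
    rw [map_mul, map_mul, ← hb, ← hb']
    ring

attribute [local instance] MvPolynomial.algebraMvPolynomial in
private theorem A1_main {C B K L : Type} [CommRing C] [IsDomain C] [CommRing B] [Field K] [Field L]
    [Algebra C B] [Algebra C K] [IsFractionRing C K] [Algebra B L] [Algebra C L] [Algebra K L]
    [IsScalarTower C B L] [IsScalarTower C K L] (hBL : Function.Injective (algebraMap B L))
    (s : Finset B) (hs : Algebra.adjoin C (s : Set B) = ⊤) :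
    ∃ (n : ℕ) (t : Fin n → B), AlgebraicIndependent C t ∧
      ∀ b : B, ∃ c : C, c ≠ 0 ∧ IsIntegral (Algebra.adjoin C (Set.range t)) (algebraMap C B c * b) := by
  classical
  let BK : Subalgebra K L := Algebra.adjoin K (algebraMap B L '' (s : Set B))
  have hmem : ∀ b : B, algebraMap B L b ∈ BK := by
    intro b
    have hb : b ∈ Algebra.adjoin C (s : Set B) := by rw [hs]; exact Algebra.mem_top
    induction hb using Algebra.adjoin_induction with
    | mem x hx => exact Algebra.subset_adjoin ⟨x, hx, rfl⟩
    | algebraMap r =>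
      rw [← IsScalarTower.algebraMap_apply C B L, IsScalarTower.algebraMap_apply C K L]
      exact BK.algebraMap_mem _
    | add x y _ _ hx hy => rw [map_add]; exact BK.add_mem hx hy
    | mul x y _ _ hx hy => rw [map_mul]; exact BK.mul_mem hx hy
  haveI : Algebra.FiniteType K BK := by
    rw [← Subalgebra.fg_iff_finiteType]
    exact ⟨s.image (algebraMap B L), by rw [Finset.coe_image]⟩
  obtain ⟨n, g, ginj, gint⟩ := exists_integral_inj_algHom_of_fg K BK
  have hden : ∀ i : Fin n, ∃ c : C, c ≠ 0 ∧ ∃ b : B,
      algebraMap C L c * (g (MvPolynomial.X i) : L) = algebraMap B L b :=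
    fun i => A1_den (s : Set B) _ (g (MvPolynomial.X i)).2
  choose cc hcc tt htt using hden
  have hK0 : ∀ i, algebraMap C K (cc i) ≠ 0 := fun i =>
    (map_ne_zero_iff _ (IsFractionRing.injective C K)).2 (hcc i)
  let σ : MvPolynomial (Fin n) K →ₐ[K] MvPolynomial (Fin n) K :=
    MvPolynomial.aeval fun i => MvPolynomial.C (algebraMap C K (cc i)) * MvPolynomial.X i
  let σ' : MvPolynomial (Fin n) K →ₐ[K] MvPolynomial (Fin n) K :=
    MvPolynomial.aeval fun i => MvPolynomial.C (algebraMap C K (cc i))⁻¹ * MvPolynomial.X i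
  have h1 : σ'.comp σ = AlgHom.id K _ := by
    refine MvPolynomial.algHom_ext fun i => ?_
    change σ' (σ (MvPolynomial.X i)) = MvPolynomial.X i
    have e1 : σ (MvPolynomial.X i) = MvPolynomial.C (algebraMap C K (cc i)) * MvPolynomial.X i :=
      MvPolynomial.aeval_X _ _
    have e2 : σ' (MvPolynomial.X i) = MvPolynomial.C (algebraMap C K (cc i))⁻¹ * MvPolynomial.X i :=
      MvPolynomial.aeval_X _ _
    have e3 : σ' (MvPolynomial.C (algebraMap C K (cc i))) = MvPolynomial.C (algebraMap C K (cc i)) :=
      σ'.commutes _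
    rw [e1, map_mul, e2, e3, ← mul_assoc, ← MvPolynomial.C_mul, mul_inv_cancel₀ (hK0 i),
      MvPolynomial.C_1, one_mul]
  have h2 : σ.comp σ' = AlgHom.id K _ := by
    refine MvPolynomial.algHom_ext fun i => ?_
    change σ (σ' (MvPolynomial.X i)) = MvPolynomial.X i
    have e1 : σ (MvPolynomial.X i) = MvPolynomial.C (algebraMap C K (cc i)) * MvPolynomial.X i :=
      MvPolynomial.aeval_X _ _
    have e2 : σ' (MvPolynomial.X i) = MvPolynomial.C (algebraMap C K (cc i))⁻¹ * MvPolynomial.X i :=
      MvPolynomial.aeval_X _ _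
    have e3 : σ (MvPolynomial.C (algebraMap C K (cc i))⁻¹) = MvPolynomial.C (algebraMap C K (cc i))⁻¹ :=
      σ.commutes _
    rw [e2, map_mul, e1, e3, ← mul_assoc, ← MvPolynomial.C_mul, inv_mul_cancel₀ (hK0 i),
      MvPolynomial.C_1, one_mul]
  let φ : MvPolynomial (Fin n) K →ₐ[K] L := BK.val.comp (g.comp σ)
  have hφX : ∀ i, φ (MvPolynomial.X i) = algebraMap B L (tt i) := by
    intro i
    change ((g (σ (MvPolynomial.X i)) : BK) : L) = _
    have e1 : σ (MvPolynomial.X i) = MvPolynomial.C (algebraMap C K (cc i)) * MvPolynomial.X i :=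
      MvPolynomial.aeval_X _ _
    have e2 : g (MvPolynomial.C (algebraMap C K (cc i))) = algebraMap K BK (algebraMap C K (cc i)) :=
      g.commutes _
    rw [e1, map_mul, e2, ← htt i]
    change algebraMap K L (algebraMap C K (cc i)) * _ = _
    rw [← IsScalarTower.algebraMap_apply C K L]
  have hσinj : Function.Injective σ := by
    intro a b hab
    have := congrArg σ' hab
    have e : ∀ x, σ' (σ x) = x := fun x => AlgHom.congr_fun h1 x
    rwa [e, e] at this
  have hφinj : Function.Injective φ := by
    intro a b hab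
    exact hσinj (ginj (Subtype.ext hab))
  have hφae : φ = MvPolynomial.aeval (fun i => algebraMap B L (tt i)) := by
    refine MvPolynomial.algHom_ext fun i => ?_
    rw [hφX, MvPolynomial.aeval_X]
  have hindK : AlgebraicIndependent K (fun i => algebraMap B L (tt i)) := by
    rw [algebraicIndependent_iff_injective_aeval, ← hφae]
    exact hφinj
  have hindC : AlgebraicIndependent C (fun i => algebraMap B L (tt i)) :=
    hindK.restrictScalars (IsFractionRing.injective C K)
  have hind : AlgebraicIndependent C tt :=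
    (AlgHom.algebraicIndependent_iff (IsScalarTower.toAlgHom C B L) hBL).1 hindC
  refine ⟨n, tt, hind, fun b => ?_⟩
  -- integrality over `K[t]`
  obtain ⟨p, hp, hp0⟩ := gint ⟨algebraMap B L b, hmem b⟩
  letI algK : Algebra (MvPolynomial (Fin n) K) L := φ.toRingHom.toAlgebra
  letI algC : Algebra (MvPolynomial (Fin n) C) L :=
    (φ.toRingHom.comp (algebraMap (MvPolynomial (Fin n) C) (MvPolynomial (Fin n) K))).toAlgebra
  haveI : IsScalarTower (MvPolynomial (Fin n) C) (MvPolynomial (Fin n) K) L :=
    IsScalarTower.of_algebraMap_eq' rfl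
  have hint : IsIntegral (MvPolynomial (Fin n) K) (algebraMap B L b) := by
    refine ⟨p.map σ'.toRingHom, hp.map _, ?_⟩
    rw [Polynomial.eval₂_map]
    have e1 : (algebraMap (MvPolynomial (Fin n) K) L).comp σ'.toRingHom =
        (BK.val.toRingHom).comp g.toRingHom := by
      refine RingHom.ext fun x => ?_
      change ((g (σ (σ' x)) : BK) : L) = (g x : L)
      have e : σ (σ' x) = x := AlgHom.congr_fun h2 x
      rw [e]
    rw [e1]
    have e2 : algebraMap B L b = BK.val.toRingHom ⟨algebraMap B L b, hmem b⟩ := rfl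
    rw [e2, ← Polynomial.hom_eval₂]
    have e3 : Polynomial.eval₂ g.toRingHom ⟨algebraMap B L b, hmem b⟩ p = 0 := hp0
    rw [e3, map_zero]
  obtain ⟨⟨m, hm⟩, hmi⟩ := IsIntegral.exists_multiple_integral_of_isLocalization
    (R := MvPolynomial (Fin n) C) (Rₘ := MvPolynomial (Fin n) K)
    ((nonZeroDivisors C).map (MvPolynomial.C (σ := Fin n))) (algebraMap B L b) hint
  obtain ⟨c, hc, rfl⟩ := hm
  refine ⟨c, nonZeroDivisors.ne_zero hc, ?_⟩
  obtain ⟨q, hq, hq0⟩ := hmi
  refine A1_adj tt _ hq ?_
  apply hBL
  rw [map_zero, Polynomial.hom_eval₂]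
  have halg : (algebraMap B L).comp (MvPolynomial.aeval tt : MvPolynomial (Fin n) C →ₐ[C] B).toRingHom =
      algebraMap (MvPolynomial (Fin n) C) L := by
    refine MvPolynomial.ringHom_ext (fun r => ?_) fun i => ?_
    · change algebraMap B L (MvPolynomial.aeval tt (MvPolynomial.C r)) =
        φ (algebraMap (MvPolynomial (Fin n) C) (MvPolynomial (Fin n) K) (MvPolynomial.C r))
      have e1 : algebraMap (MvPolynomial (Fin n) C) (MvPolynomial (Fin n) K) (MvPolynomial.C r) =
          MvPolynomial.C (algebraMap C K r) := by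
        rw [MvPolynomial.algebraMap_def, MvPolynomial.map_C]
      have e2 : φ (MvPolynomial.C (algebraMap C K r)) = algebraMap K L (algebraMap C K r) := φ.commutes _
      rw [e1, e2, MvPolynomial.aeval_C, ← IsScalarTower.algebraMap_apply C K L,
        ← IsScalarTower.algebraMap_apply C B L]
    · change algebraMap B L (MvPolynomial.aeval tt (MvPolynomial.X i)) =
        φ (algebraMap (MvPolynomial (Fin n) C) (MvPolynomial (Fin n) K) (MvPolynomial.X i))
      have e1 : algebraMap (MvPolynomial (Fin n) C) (MvPolynomial (Fin n) K) (MvPolynomial.X i) =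
          MvPolynomial.X i := by
        rw [MvPolynomial.algebraMap_def, MvPolynomial.map_X]
      rw [e1, hφX, MvPolynomial.aeval_X]
  rw [halg]
  have hx : algebraMap B L (algebraMap C B c * b) =
      ((⟨MvPolynomial.C c, ⟨c, hc, rfl⟩⟩ : (nonZeroDivisors C).map (MvPolynomial.C (σ := Fin n))) •
        algebraMap B L b) := by
    rw [Submonoid.smul_def, Algebra.smul_def, ← halg]
    change _ = algebraMap B L (MvPolynomial.aeval tt (MvPolynomial.C c)) * _
    rw [MvPolynomial.aeval_C, map_mul]
  rw [hx]
  exact hq0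

theorem noether_spread (C B : Type) [CommRing C] [IsDomain C] [CommRing B] [IsDomain B]
    [Algebra C B] [FaithfulSMul C B] [Algebra.FiniteType C B] :
    ∃ (c : C) (n : ℕ) (t : Fin n → B), c ≠ 0 ∧ AlgebraicIndependent C t ∧
      ∀ b : B, ∃ N : ℕ, IsIntegral (Algebra.adjoin C (Set.range t)) (algebraMap C B c ^ N * b) := by
  classical
  obtain ⟨s, hs⟩ := (Algebra.FiniteType.out (R := C) (A := B))
  have hBL : Function.Injective (algebraMap B (FractionRing B)) := IsFractionRing.injective B _
  have hCL : Function.Injective (algebraMap C (FractionRing B)) := by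
    rw [IsScalarTower.algebraMap_eq C B (FractionRing B)]
    exact hBL.comp (FaithfulSMul.algebraMap_injective C B)
  haveI : FaithfulSMul C (FractionRing B) := (faithfulSMul_iff_algebraMap_injective C _).2 hCL
  letI : Algebra (FractionRing C) (FractionRing B) := FractionRing.liftAlgebra C (FractionRing B)
  haveI : IsScalarTower C (FractionRing C) (FractionRing B) :=
    FractionRing.isScalarTower_liftAlgebra C (FractionRing B)
  obtain ⟨n, t, ht, h⟩ := A1_main (K := FractionRing C) hBL s hs
  choose cf hcf0 hcf using h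
  refine ⟨∏ b ∈ s, cf b, n, t, Finset.prod_ne_zero_iff.2 fun b _ => hcf0 b, ht, ?_⟩
  have hC : ∀ x : C, IsIntegral (Algebra.adjoin C (Set.range t)) (algebraMap C B x) := by
    intro x
    have : algebraMap C B x = algebraMap (Algebra.adjoin C (Set.range t)) B
        (algebraMap C (Algebra.adjoin C (Set.range t)) x) := rfl
    rw [this]
    exact isIntegral_algebraMap
  refine A1_pow hC _ (s : Set B) hs fun b hb => ?_
  rw [← Finset.mul_prod_erase s cf hb, map_mul, mul_comm (algebraMap C B (cf b)), mul_assoc]
  exact (hC _).mul (hcf b)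

end LibHM79S
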