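import Pool.Agent.LibHM79S.A1

/-! A2 (MEDIUM, algebra). The localised form of A1. C' = C[1/c], B' = B[1/c]. Plan: c, n, t from noether_spread. g := MvPolynomial.aeval (algebraMap B B' ∘ t). Injective: if g P = 0,
multiply P by a power of c to have coefficients in C; then aeval t P₁ = 0 in B (B → B' injective: B is a domain, c ≠ 0), so P₁ = 0. Integral: an element of B' is x = b / c^j, c^N b integral over C[t] so
x = (c^N b) · (1/c)^(N+j) integral over the range of g. Finite: g.toRingHom integral and of finite type (B' is of finite type over C', hence over MvPolynomial (Fin n) C'). -/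

namespace LibHM79S

private theorem A2_inj (C B : Type) [CommRing C] [CommRing B] [IsDomain B]
    [Algebra C B] (c : C) (hc : algebraMap C B c ≠ 0) (n : ℕ) (t : Fin n → B)
    (ht : AlgebraicIndependent C t) (C' B' : Type) [CommRing C'] [CommRing B'] [Algebra C C']
      [Algebra B B'] [Algebra C' B'] [Algebra C B'] [IsScalarTower C C' B'] [IsScalarTower C B B']
      [IsLocalization.Away c C'] [IsLocalization.Away (algebraMap C B c) B'] :
    Function.Injective (MvPolynomial.aeval (R := C') (fun i => algebraMap B B' (t i))) := by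
  let := MvPolynomial.algebraMvPolynomial (σ := Fin n) (R := C) (S := C')
  have : IsLocalization ((Submonoid.powers c).map (MvPolynomial.C (σ := Fin n))) (MvPolynomial (Fin n) C') :=
    MvPolynomial.isLocalization (Submonoid.powers c) C'
  have hinjB : Function.Injective (algebraMap B B') :=
    IsLocalization.injective B' (powers_le_nonZeroDivisors_of_noZeroDivisors hc)
  rw [injective_iff_map_eq_zero]
  intro P hP
  obtain ⟨⟨P₁, s⟩, hs⟩ := IsLocalization.surj ((Submonoid.powers c).map (MvPolynomial.C (σ := Fin n))) P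
  simp only at hs
  have hg : ∀ Q : MvPolynomial (Fin n) C, MvPolynomial.aeval (R := C') (fun i => algebraMap B B' (t i))
      (MvPolynomial.map (algebraMap C C') Q) = algebraMap B B' (MvPolynomial.aeval t Q) := by
    intro Q
    rw [MvPolynomial.aeval_map_algebraMap]
    have := MvPolynomial.aeval_algebraMap_apply (A := B) (B := B') t Q
    exact this
  have h1 : algebraMap B B' (MvPolynomial.aeval t P₁) = 0 := by
    rw [← hg, ← MvPolynomial.algebraMap_def, ← hs, map_mul, hP, zero_mul]
  have h2 : MvPolynomial.aeval t P₁ = 0 := hinjB (by rw [h1, map_zero])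
  have h3 : P₁ = 0 := (injective_iff_map_eq_zero _).1 ht P₁ h2
  rw [h3, map_zero] at hs
  exact ((IsLocalization.map_units (MvPolynomial (Fin n) C') s).mul_left_eq_zero).1 hs

private theorem A2_int (C B : Type) [CommRing C] [CommRing B] [IsDomain B]
    [Algebra C B] (c : C) (n : ℕ) (t : Fin n → B)
    (ht : AlgebraicIndependent C t)
    (hint : ∀ b : B, ∃ N : ℕ, IsIntegral (Algebra.adjoin C (Set.range t)) (algebraMap C B c ^ N * b))
    (C' B' : Type) [CommRing C'] [CommRing B'] [Algebra C C']
      [Algebra B B'] [Algebra C' B'] [Algebra C B'] [IsScalarTower C C' B'] [IsScalarTower C B B']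
      [IsLocalization.Away c C'] [IsLocalization.Away (algebraMap C B c) B'] :
    (MvPolynomial.aeval (R := C') (fun i => algebraMap B B' (t i)) : MvPolynomial (Fin n) C' →ₐ[C'] B').toRingHom.IsIntegral := by
  set g : MvPolynomial (Fin n) C' →ₐ[C'] B' := MvPolynomial.aeval (R := C') (fun i => algebraMap B B' (t i)) with hgdef
  have hg : ∀ Q : MvPolynomial (Fin n) C, g
      (MvPolynomial.map (algebraMap C C') Q) = algebraMap B B' (MvPolynomial.aeval t Q) := by
    intro Q
    rw [hgdef, MvPolynomial.aeval_map_algebraMap]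
    exact MvPolynomial.aeval_algebraMap_apply (A := B) (B := B') t Q
  intro x
  let := g.toRingHom.toAlgebra
  change IsIntegral (MvPolynomial (Fin n) C') x
  obtain ⟨⟨b, s⟩, hs⟩ := IsLocalization.surj (Submonoid.powers (algebraMap C B c)) x
  obtain ⟨j, hj⟩ := s.2
  simp only at hs hj
  rw [← hj] at hs
  obtain ⟨N, hN⟩ := hint b
  have h1 : IsIntegral (MvPolynomial (Fin n) C') (algebraMap B B' (algebraMap C B c ^ N * b)) := by
    refine IsIntegral.map_of_comp_eq
      (((MvPolynomial.map (algebraMap C C')).comp (ht.aevalEquiv.symm : Algebra.adjoin C (Set.range t) →+* MvPolynomial (Fin n) C)))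
      (algebraMap B B') ?_ hN
    ext a
    obtain ⟨Q, rfl⟩ := ht.aevalEquiv.surjective a
    have e1 := ht.algebraMap_aevalEquiv Q
    simp only [RingHom.comp_apply]
    rw [e1, ← hg Q]
    simp
    rfl
  -- the unit
  have hu : IsUnit (algebraMap C C' c) := IsLocalization.Away.algebraMap_isUnit c
  obtain ⟨w, hw⟩ := hu
  have hcB : algebraMap B B' (algebraMap C B c) = algebraMap C' B' (w : C') := by
    rw [hw, ← IsScalarTower.algebraMap_apply, ← IsScalarTower.algebraMap_apply]
  have h2 : x = g (MvPolynomial.C ((↑(w⁻¹) : C') ^ (N + j))) * algebraMap B B' (algebraMap C B c ^ N * b) := by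
    have e1 : algebraMap B B' (algebraMap C B c ^ N * b) = algebraMap C' B' ((w : C') ^ (N + j)) * x := by
      rw [map_mul, ← hs, map_pow, map_pow, hcB, map_pow]
      ring
    rw [e1]
    have e2 : g (MvPolynomial.C ((↑(w⁻¹) : C') ^ (N + j))) = algebraMap C' B' ((↑(w⁻¹) : C') ^ (N + j)) := by
      rw [← MvPolynomial.algebraMap_eq, AlgHom.commutes]
    rw [e2, ← mul_assoc, ← map_mul, ← mul_pow, Units.inv_mul, one_pow, map_one, one_mul]
  rw [h2]
  exact IsIntegral.mul (isIntegral_algebraMap (R := MvPolynomial (Fin n) C')) h1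

theorem noether_loc (C B : Type) [CommRing C] [IsDomain C] [CommRing B] [IsDomain B]
    [Algebra C B] [FaithfulSMul C B] [Algebra.FiniteType C B] :
    ∃ (c : C) (n : ℕ), c ≠ 0 ∧ ∀ (C' B' : Type) [CommRing C'] [CommRing B'] [Algebra C C']
      [Algebra B B'] [Algebra C' B'] [Algebra C B'] [IsScalarTower C C' B'] [IsScalarTower C B B']
      [IsLocalization.Away c C'] [IsLocalization.Away (algebraMap C B c) B'],
      ∃ g : MvPolynomial (Fin n) C' →ₐ[C'] B', Function.Injective g ∧ g.toRingHom.Finite := by
  obtain ⟨c, n, t, hc, ht, hint⟩ := noether_spread C B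
  have hcB : algebraMap C B c ≠ 0 := by
    intro h
    apply hc
    apply FaithfulSMul.algebraMap_injective C B
    rw [h, map_zero]
  refine ⟨c, n, hc, ?_⟩
  intro C' B' _ _ _ _ _ _ _ _ _ _
  refine ⟨MvPolynomial.aeval (R := C') (fun i => algebraMap B B' (t i)), A2_inj C B c hcB n t ht C' B', ?_⟩
  refine RingHom.IsIntegral.to_finite (A2_int C B c n t ht hint C' B') ?_
  have f1 : (algebraMap B B').FiniteType := by
    have : Algebra.FiniteType B B' := IsLocalization.finiteType_of_monoid_fg (Submonoid.powers (algebraMap C B c)) B'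
    exact RingHom.finiteType_algebraMap.2 this
  have f2 : (algebraMap C B).FiniteType := RingHom.finiteType_algebraMap.2 ‹_›
  have f3 : (algebraMap C B').FiniteType := by
    rw [IsScalarTower.algebraMap_eq C B B']
    exact f1.comp f2
  have f4 : (algebraMap C' B').FiniteType := by
    rw [IsScalarTower.algebraMap_eq C C' B'] at f3
    exact f3.of_comp_finiteType
  have f5 : (((MvPolynomial.aeval (R := C') (fun i => algebraMap B B' (t i)) : MvPolynomial (Fin n) C' →ₐ[C'] B').toRingHom).comp
      (MvPolynomial.C : C' →+* MvPolynomial (Fin n) C')).FiniteType := by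
    have : (((MvPolynomial.aeval (R := C') (fun i => algebraMap B B' (t i)) : MvPolynomial (Fin n) C' →ₐ[C'] B').toRingHom).comp
      (MvPolynomial.C : C' →+* MvPolynomial (Fin n) C')) = algebraMap C' B' := by
      ext a
      simp
    rw [this]; exact f4
  exact f5.of_comp_finiteType

end LibHM79S
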