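import Mathlib

/-! B1 (MEDIUM, field theory, ONLY MATHLIB). K of characteristic 0, algebraically closed in L: K^alg ⊗_K L is a domain. Plan: in Ω := AlgebraicClosure L the algebraic closure E of K
(algebraicClosure K Ω as an intermediate field) is Galois over K (char 0, normal) and meets the image of L in K (h). Mathlib FieldTheory/LinearDisjoint: linearly disjoint if one of the two is
Galois and the intersection is trivial (IntermediateField.LinearDisjoint.of_inf_eq_bot or similar; if it is only there for finite extensions: linear disjointness of E and L is the union over the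
finite Galois subextensions, or prove directly: for β algebraic over K the minimal polynomial of β over K stays irreducible over L since the coefficients of a monic factor over L are algebraic over K,
hence in K). Then LinearDisjoint.isDomain and an isomorphism AlgebraicClosure K ≃ₐ[K] E (IsAlgClosure.equiv). -/

namespace LibHM79S

open scoped TensorProduct

/-- the degree does not drop over an extension in which the base is algebraically closed -/
private theorem B1_deg (K L Ω : Type) [Field K] [Field L] [Field Ω] [Algebra K L] [Algebra L Ω] [Algebra K Ω]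
    [IsScalarTower K L Ω] (h : ∀ x : L, IsAlgebraic K x → ∃ a : K, algebraMap K L a = x)
    (β : Ω) (hβ : IsIntegral K β) : (minpoly K β).natDegree ≤ (minpoly L β).natDegree := by
  have hβL : IsIntegral L β := hβ.tower_top
  have hdvd : minpoly L β ∣ (minpoly K β).map (algebraMap K L) := minpoly.dvd_map_of_isScalarTower K L β
  have h1 := integralClosure.mem_lifts_of_monic_of_dvd_map L (minpoly.monic hβ) (minpoly.monic hβL) hdvd
  have h2 : minpoly L β ∈ Polynomial.lifts (algebraMap K L) := by
    rw [Polynomial.lifts_iff_coeff_lifts] at h1 ⊢
    intro n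
    obtain ⟨c, hc⟩ := h1 n
    have h3 : IsAlgebraic K ((minpoly L β).coeff n) := by
      rw [← hc]
      exact (c.2 : IsIntegral K (c : L)).isAlgebraic
    obtain ⟨a, ha⟩ := h _ h3
    exact ⟨a, ha⟩
  obtain ⟨q, hq, hqd, hqm⟩ := Polynomial.lifts_and_natDegree_eq_and_monic h2 (minpoly.monic hβL)
  have h4 : Polynomial.aeval β q = 0 := by
    have h5 := minpoly.aeval L β
    rw [← hq, Polynomial.aeval_map_algebraMap] at h5
    exact h5
  rw [← hqd]
  exact Polynomial.natDegree_le_of_dvd (minpoly.dvd K β h4) hqm.ne_zero

private theorem B1_fin (K L Ω : Type) [Field K] [Field L] [Field Ω] [Algebra K L] [Algebra L Ω] [Algebra K Ω]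
    [IsScalarTower K L Ω] [CharZero K] (h : ∀ x : L, IsAlgebraic K x → ∃ a : K, algebraMap K L a = x)
    (A : IntermediateField K Ω) [FiniteDimensional K A] : A.LinearDisjoint L := by
  let pb := Field.powerBasisOfFiniteOfSeparable K A
  refine IntermediateField.LinearDisjoint.of_basis_left pb.basis ?_
  have hint : IsIntegral K (pb.gen : Ω) := by
    have h1 : IsIntegral K pb.gen := pb.isIntegral_gen
    exact h1.map A.val
  have hdim : pb.dim ≤ (minpoly L (pb.gen : Ω)).natDegree := by
    have h1 := B1_deg K L Ω h (pb.gen : Ω) hint
    have h2 : minpoly K (pb.gen : Ω) = minpoly K pb.gen := minpoly.algHom_eq A.val A.val.injective pb.gen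
    rw [h2, PowerBasis.natDegree_minpoly] at h1
    exact h1
  have h3 := (linearIndependent_pow (K := L) (pb.gen : Ω)).comp (Fin.castLE hdim) (Fin.castLE_injective hdim)
  convert h3 using 1
  funext i
  change ((pb.basis i : A) : Ω) = _
  rw [PowerBasis.coe_basis]
  rfl

theorem tensor_domain (K L : Type) [Field K] [Field L] [Algebra K L] [CharZero K]
    (h : ∀ x : L, IsAlgebraic K x → ∃ a : K, algebraMap K L a = x) :
    IsDomain (AlgebraicClosure K ⊗[K] L) := by
  let Ω := AlgebraicClosure L
  have key : (algebraicClosure K Ω).toSubalgebra.LinearDisjoint (IsScalarTower.toAlgHom K L Ω).range := by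
    have hint : Algebra.IsIntegral K (algebraicClosure K Ω).toSubalgebra :=
      inferInstanceAs (Algebra.IsIntegral K (algebraicClosure K Ω))
    apply Subalgebra.LinearDisjoint.of_linearDisjoint_finite_left
    intro A' hA' hfin
    have hf : IsField A' := by
      have h1 : Algebra.IsIntegral K A' := Algebra.IsIntegral.of_finite K A'
      exact isField_of_isIntegral_of_isField' (R := K) (Field.toIsField K)
    have h2 : FiniteDimensional K (A'.toIntermediateField' hf) := hfin
    exact B1_fin K L Ω h (A'.toIntermediateField' hf)
  have H : (algebraicClosure K Ω).LinearDisjoint L := key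
  have hd := H.isDomain
  exact (Algebra.TensorProduct.congr (IsAlgClosure.equiv K (AlgebraicClosure K) (algebraicClosure K Ω))
    (AlgEquiv.refl : L ≃ₐ[K] L)).toMulEquiv.isDomain

end LibHM79S
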