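import Pool.Agent.LibHM79S.B1

/-! B2 (MEDIUM, algebra). F ∈ K[t][X] monic, g : K[t] → L injective over K, θ ∈ L a root of F, and 1, θ, …, θ^(deg F - 1) linearly independent over K[t] (hmin: no nonzero polynomial of
smaller degree vanishes at θ). Then F is irreducible over K^alg[t]. Plan: A := AlgebraicClosure K ⊗[K] L, a domain (tensor_domain). Ψ : (MvPolynomial (Fin n) K^alg)[X] → A the ring map with
a ↦ a ⊗ 1, t_i ↦ 1 ⊗ g t_i, X ↦ 1 ⊗ θ. Claim: Ψ G = 0 iff F' ∣ G, F' := the image of F (monic). Division by the monic F' (Polynomial.modByMonic): S := G %ₘ F' has degree < deg F and Ψ S = 0;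
S = Σ s_(μ,i) t^μ X^i, Ψ S = Σ s_(μ,i) ⊗ g(t^μ) θ^i, and the g(t^μ) θ^i (i < deg F) are linearly independent over K by hmin; a basis/linear independence argument in the tensor product
(LinearIndependent.tmul or Module.Flat / Basis of a complement; or: choose a K-basis of the subspace spanned and use injectivity of K^alg ⊗ (Finsupp) → K^alg ⊗ L, Module.Flat.lTensor_preserves_injective)
gives s = 0. So F' is prime (nonzero: monic, not a unit: Ψ 1 ≠ 0) and Prime.irreducible. -/

namespace LibHM79S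

open Polynomial
open scoped TensorProduct

section

variable {R S : Type} [Field R] [CommRing S] [Algebra R S] {n : ℕ} (d : ℕ)
  (φ : MvPolynomial (Fin n) R →ₐ[R] S) (θ : S)

/-- the sum of the `φ (s i) θ ^ i` -/
private noncomputable def B2_T : (Fin d → MvPolynomial (Fin n) R) →ₗ[R] S :=
  ∑ i : Fin d, (LinearMap.mulRight R (θ ^ (i : ℕ))) ∘ₗ φ.toLinearMap ∘ₗ LinearMap.proj i

private theorem B2_T_apply (s : Fin d → MvPolynomial (Fin n) R) :
    B2_T d φ θ s = ∑ i : Fin d, φ (s i) * θ ^ (i : ℕ) := by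
  unfold B2_T
  rw [LinearMap.sum_apply]
  rfl

/-- the basis of `R[t]^d` -/
private noncomputable def B2_b (R : Type) [Field R] (n d : ℕ) :
    Module.Basis (Σ _ : Fin d, (Fin n →₀ ℕ)) R (Fin d → MvPolynomial (Fin n) R) :=
  Pi.basis fun _ => MvPolynomial.basisMonomials (Fin n) R

private theorem B2_T_b (p : Σ _ : Fin d, (Fin n →₀ ℕ)) :
    B2_T d φ θ (B2_b R n d p) = φ (MvPolynomial.monomial p.2 1) * θ ^ (p.1 : ℕ) := by
  classical
  obtain ⟨i, μ⟩ := p
  rw [B2_T_apply, Finset.sum_eq_single i]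
  · unfold B2_b
    rw [Pi.basis_apply, MvPolynomial.coe_basisMonomials]
    simp only [Pi.single_eq_same]
  · intro j _ hj
    unfold B2_b
    rw [Pi.basis_apply, MvPolynomial.coe_basisMonomials]
    simp only [Pi.single_eq_of_ne hj, map_zero, zero_mul]
  · intro h
    exact absurd (Finset.mem_univ _) h

private theorem B2_inj (h : LinearIndependent R
    (fun p : (Σ _ : Fin d, (Fin n →₀ ℕ)) => φ (MvPolynomial.monomial p.2 1) * θ ^ (p.1 : ℕ)))
    (s : Fin d → MvPolynomial (Fin n) R) (hs : ∑ i : Fin d, φ (s i) * θ ^ (i : ℕ) = 0) : s = 0 := by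
  have h1 : LinearIndependent R (fun p => B2_T d φ θ (B2_b R n d p)) := by
    have h2 : (fun p => B2_T d φ θ (B2_b R n d p)) =
        fun p : (Σ _ : Fin d, (Fin n →₀ ℕ)) => φ (MvPolynomial.monomial p.2 1) * θ ^ (p.1 : ℕ) :=
      funext fun p => B2_T_b d φ θ p
    rw [h2]
    exact h
  rw [← B2_T_apply] at hs
  rw [linearIndependent_iff] at h1
  have h2 : Finsupp.linearCombination R (fun p => B2_T d φ θ (B2_b R n d p))
      ((B2_b R n d).repr s) = 0 := by
    have h3 := (B2_b R n d).linearCombination_repr s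
    rw [← hs]
    conv_rhs => rw [← h3]
    rw [Finsupp.linearCombination_apply, Finsupp.linearCombination_apply, Finsupp.sum,
      Finsupp.sum, map_sum]
    refine Finset.sum_congr rfl fun p _ => ?_
    rw [map_smul]
  have h3 := h1 _ h2
  exact (B2_b R n d).repr.map_eq_zero_iff.1 h3

private theorem B2_lin (h : ∀ s : Fin d → MvPolynomial (Fin n) R,
    ∑ i : Fin d, φ (s i) * θ ^ (i : ℕ) = 0 → s = 0) :
    LinearIndependent R
    (fun p : (Σ _ : Fin d, (Fin n →₀ ℕ)) => φ (MvPolynomial.monomial p.2 1) * θ ^ (p.1 : ℕ)) := by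
  have h1 : LinearMap.ker (B2_T d φ θ) = ⊥ := by
    rw [LinearMap.ker_eq_bot']
    intro s hs
    rw [B2_T_apply] at hs
    exact h s hs
  have h2 := (B2_b R n d).linearIndependent.map' (B2_T d φ θ) h1
  have h3 : (B2_T d φ θ) ∘ (B2_b R n d) =
      fun p : (Σ _ : Fin d, (Fin n →₀ ℕ)) => φ (MvPolynomial.monomial p.2 1) * θ ^ (p.1 : ℕ) :=
    funext fun p => B2_T_b d φ θ p
  rw [h3] at h2
  exact h2

end

theorem irred_alg (K L : Type) [Field K] [Field L] [Algebra K L] [CharZero K]
    (h : ∀ x : L, IsAlgebraic K x → ∃ a : K, algebraMap K L a = x) (n : ℕ)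
    (g : MvPolynomial (Fin n) K →ₐ[K] L) (hg : Function.Injective g) (θ : L)
    (F : (MvPolynomial (Fin n) K)[X]) (hF : F.Monic) (hθ : F.eval₂ g.toRingHom θ = 0)
    (hmin : ∀ S : (MvPolynomial (Fin n) K)[X], S.degree < F.degree →
      S.eval₂ g.toRingHom θ = 0 → S = 0) :
    Irreducible (F.map (MvPolynomial.map (algebraMap K (AlgebraicClosure K)))) := by
  classical
  set Ka := AlgebraicClosure K with hKa
  have hdom : IsDomain (Ka ⊗[K] L) := tensor_domain K L h
  set ι : L →ₐ[K] Ka ⊗[K] L := Algebra.TensorProduct.includeRight with hι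
  set Ψ₀ : MvPolynomial (Fin n) Ka →ₐ[Ka] Ka ⊗[K] L :=
    MvPolynomial.aeval fun i => ι (g (MvPolynomial.X i)) with hΨ₀
  have hcomp : (Ψ₀ : MvPolynomial (Fin n) Ka →+* Ka ⊗[K] L).comp
      (MvPolynomial.map (algebraMap K Ka)) = (ι : L →+* Ka ⊗[K] L).comp g.toRingHom := by
    apply MvPolynomial.ringHom_ext
    · intro a
      change Ψ₀ (MvPolynomial.map (algebraMap K Ka) (MvPolynomial.C a)) = ι (g (MvPolynomial.C a))
      rw [MvPolynomial.map_C, MvPolynomial.algHom_C]
      have h1 : g (MvPolynomial.C a) = algebraMap K L a := MvPolynomial.algHom_C g a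
      rw [h1, AlgHom.commutes, ← IsScalarTower.algebraMap_apply]
    · intro i
      change Ψ₀ (MvPolynomial.map (algebraMap K Ka) (MvPolynomial.X i)) = ι (g (MvPolynomial.X i))
      rw [MvPolynomial.map_X, hΨ₀, MvPolynomial.aeval_X]
  have hmon : ∀ μ : Fin n →₀ ℕ, Ψ₀ (MvPolynomial.monomial μ 1) = ι (g (MvPolynomial.monomial μ 1)) := by
    intro μ
    have h1 := congrArg (fun f => f (MvPolynomial.monomial μ (1 : K))) hcomp
    change Ψ₀ (MvPolynomial.map (algebraMap K Ka) (MvPolynomial.monomial μ 1)) =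
      ι (g (MvPolynomial.monomial μ 1)) at h1
    rwa [MvPolynomial.map_monomial, map_one] at h1
  set d := F.natDegree with hd
  have hdeg : F.degree = d := Polynomial.degree_eq_natDegree hF.ne_zero
  -- injectivity over K
  have hK : ∀ s : Fin d → MvPolynomial (Fin n) K,
      ∑ i : Fin d, g (s i) * θ ^ (i : ℕ) = 0 → s = 0 := by
    intro s hs
    have h1 : (∑ i : Fin d, Polynomial.C (s i) * Polynomial.X ^ (i : ℕ)) = 0 := by
      apply hmin
      · rw [hdeg]
        exact Polynomial.degree_sum_fin_lt s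
      · rw [Polynomial.eval₂_finsetSum]
        rw [← hs]
        refine Finset.sum_congr rfl fun i _ => ?_
        rw [Polynomial.eval₂_mul, Polynomial.eval₂_C, Polynomial.eval₂_pow, Polynomial.eval₂_X]
        rfl
    funext i
    have h2 := congrArg (fun p => Polynomial.coeff p (i : ℕ)) h1
    simp only [Polynomial.finsetSum_coeff, Polynomial.coeff_C_mul_X_pow, Polynomial.coeff_zero] at h2
    rw [Finset.sum_eq_single i] at h2
    · rw [if_pos rfl] at h2
      exact h2
    · intro j _ hj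
      rw [if_neg]
      intro h3
      exact hj (Fin.ext h3.symm)
    · intro h3
      exact absurd (Finset.mem_univ _) h3
  -- linear independence over Ka
  have hKa' : ∀ s : Fin d → MvPolynomial (Fin n) Ka,
      ∑ i : Fin d, Ψ₀ (s i) * (ι θ) ^ (i : ℕ) = 0 → s = 0 := by
    intro s hs
    refine B2_inj d Ψ₀ (ι θ) ?_ s hs
    have h1 := Module.Flat.linearIndependent_one_tmul (S := Ka) (B2_lin d g θ hK)
    have h2 : (fun p : (Σ _ : Fin d, (Fin n →₀ ℕ)) =>
        Ψ₀ (MvPolynomial.monomial p.2 1) * (ι θ) ^ (p.1 : ℕ)) =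
        fun p : (Σ _ : Fin d, (Fin n →₀ ℕ)) =>
          (1 : Ka) ⊗ₜ[K] (g (MvPolynomial.monomial p.2 1) * θ ^ (p.1 : ℕ)) := by
      funext p
      rw [hmon, ← map_pow, ← map_mul]
      rfl
    rw [h2]
    exact h1
  set Ψ : (MvPolynomial (Fin n) Ka)[X] →+* Ka ⊗[K] L :=
    Polynomial.eval₂RingHom (Ψ₀ : MvPolynomial (Fin n) Ka →+* Ka ⊗[K] L) (ι θ) with hΨ
  set F' := F.map (MvPolynomial.map (algebraMap K Ka)) with hF'
  have hF'm : F'.Monic := hF.map _
  have hΨF : Ψ F' = 0 := by
    rw [hΨ, Polynomial.coe_eval₂RingHom, hF', Polynomial.eval₂_map, hcomp]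
    have h1 := Polynomial.hom_eval₂ F g.toRingHom (ι : L →+* Ka ⊗[K] L) θ
    rw [hθ, map_zero] at h1
    exact h1.symm
  have hdiv : ∀ G, Ψ G = 0 ↔ F' ∣ G := by
    intro G
    constructor
    · intro hG
      have h1 := Polynomial.modByMonic_add_div G F'
      have h2 : Ψ (G %ₘ F') = 0 := by
        have h3 := congrArg Ψ h1
        rw [map_add, map_mul, hΨF, zero_mul, add_zero, hG] at h3
        exact h3
      rw [← Polynomial.modByMonic_eq_zero_iff_dvd hF'm]
      have hlt : (G %ₘ F').degree < d := by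
        have h3 := Polynomial.degree_modByMonic_lt G hF'm
        have h4 : F'.degree = d := by
          rw [hF', hF.degree_map, hdeg]
        rwa [h4] at h3
      have h5 : (fun i : Fin d => (G %ₘ F').coeff i) = 0 := by
        apply hKa'
        rw [← h2, hΨ, Polynomial.coe_eval₂RingHom]
        have h6 : (G %ₘ F').natDegree < d ∨ G %ₘ F' = 0 := by
          by_cases h7 : G %ₘ F' = 0
          · exact Or.inr h7
          · left
            exact (Polynomial.natDegree_lt_iff_degree_lt h7).2 hlt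
        rcases h6 with h6 | h6
        · rw [Polynomial.eval₂_eq_sum_range' _ h6, ← Fin.sum_univ_eq_sum_range
            (fun i => (Ψ₀ : MvPolynomial (Fin n) Ka →+* Ka ⊗[K] L) ((G %ₘ F').coeff i) *
              (ι θ) ^ i) d]
          rfl
        · rw [h6]
          simp
      ext1 i
      by_cases hi : i < d
      · have h6 := congrFun h5 ⟨i, hi⟩
        rw [Polynomial.coeff_zero]
        exact h6
      · rw [Polynomial.coeff_zero]
        apply Polynomial.coeff_eq_zero_of_degree_lt
        exact lt_of_lt_of_le hlt (by exact_mod_cast not_lt.1 hi)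
    · rintro ⟨Q, rfl⟩
      rw [map_mul, hΨF, zero_mul]
  have hprime : Prime F' := by
    refine ⟨hF'm.ne_zero, ?_, ?_⟩
    · intro hu
      have h1 := hu.map Ψ
      rw [hΨF] at h1
      exact not_isUnit_zero h1
    · intro a b hab
      rw [← hdiv, map_mul] at hab
      rcases mul_eq_zero.1 hab with h1 | h1
      · exact Or.inl ((hdiv a).1 h1)
      · exact Or.inr ((hdiv b).1 h1)
  exact hprime.irreducible

end LibHM79S
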