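import Pool.Agent.LibHM79S.Defs
import Pool.Agent.LibHM79S.B2

/-! B3 (MEDIUM/STRONG, algebra). The primitive element with cleared denominators. Plan: K := FractionRing C, L ⊇ K; g extends to g_K : MvPolynomial (Fin n) K →ₐ[K] L injective; let M := the fraction field of
MvPolynomial (Fin n) K inside L (FractionRing ... or IntermediateField.adjoin K (range t)); L is algebraic, finite over M since B is finite over the image of g and L = Frac B (every element of L is b/a, a in
the image of g: B ⊗ Frac is a domain finite over a field). char 0: primitive element θ₀ ∈ L over M (Field.exists_primitive_element). θ₀ = b₀ / g a₀ with b₀ ∈ B: replace θ₀ by θ₁ := b₀ ∈ B (still primitive),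
integral over the image of MvPolynomial (Fin n) C. Minimal polynomial of θ₁ over M: coefficients in MvPolynomial (Fin n) K (integrally closed: UFD; minpoly.isIntegrallyClosed_eq_field_fractions').
Take c ≠ 0 in C with c a ∈ C[t] for all its coefficients a, θ := g(c) θ₁; F := the polynomial with coefficients c^(e-i) a_i ∈ C[t], monic, F(θ) = 0, minimal for θ over M, so hmin of irred_alg holds for
F.map; hac gives the hypothesis h of irred_alg for K ⊆ L (an algebraic element over K is algebraic over C). The map C → AlgebraicClosure (FractionRing C) is the composite through K. b: L = M(θ) and B is a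
finite module over R := MvPolynomial (Fin n) C: each generator x_j of B is s_j(θ) with s_j ∈ M[X]; common denominator b. -/

namespace LibHM79S

open Polynomial

private theorem B3_lifts (R S : Type) [CommRing R] [CommRing S] [IsDomain S] [Algebra R S] (W : Submonoid R)
    [IsLocalization W S] (m : S[X]) (hm : m.Monic) :
    ∃ w ∈ W, ∃ F : R[X], F.Monic ∧ F.map (algebraMap R S) = m.scaleRoots (algebraMap R S w) := by
  have h1 := IsLocalization.scaleRoots_commonDenom_mem_lifts W m (by rw [hm.leadingCoeff]; exact one_mem _)
  obtain ⟨F, hF, -, hF2⟩ := lifts_and_natDegree_eq_and_monic h1 (by rwa [Polynomial.monic_scaleRoots_iff])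
  exact ⟨_, (IsLocalization.commonDenom W m.support m.coeff).2, F, hF2, hF⟩

private theorem B3_adj (M L : Type) [Field M] [Field L] [Algebra M L] (α β : L) (a : M)
    (h : α = algebraMap M L a * β) (hα : IntermediateField.adjoin M {α} = ⊤) :
    IntermediateField.adjoin M {β} = ⊤ := by
  rw [eq_top_iff, ← hα, IntermediateField.adjoin_simple_le_iff, h]
  exact mul_mem (IntermediateField.algebraMap_mem _ a) (IntermediateField.mem_adjoin_simple_self M β)

private theorem B3_fd (R B M L : Type) [CommRing R] [IsDomain R] [CommRing B] [IsDomain B] [Algebra R B]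
    [Module.Finite R B] [Field M] [Algebra R M] [IsFractionRing R M] [Field L] [Algebra B L]
    [IsFractionRing B L] [Algebra R L] [Algebra M L] [IsScalarTower R B L] [IsScalarTower R M L] :
    FiniteDimensional M L := by
  obtain ⟨S, hS⟩ := Module.Finite.fg_top (R := R) (M := B)
  have hint : ∀ b : B, IsIntegral M (algebraMap B L b) := fun b => by
    have h1 : IsIntegral R b := Algebra.IsIntegral.isIntegral b
    exact (h1.map (IsScalarTower.toAlgHom R B L)).tower_top
  have hall : ∀ b : B, algebraMap B L b ∈ IntermediateField.adjoin M ((algebraMap B L) '' (S : Set B)) := by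
    intro b
    have hb : b ∈ Submodule.span R (S : Set B) := by
      rw [hS]
      trivial
    induction hb using Submodule.span_induction with
    | mem x hx => exact IntermediateField.subset_adjoin _ _ ⟨x, hx, rfl⟩
    | zero =>
      rw [map_zero]
      exact zero_mem _
    | add x y _ _ hx hy =>
      rw [map_add]
      exact add_mem hx hy
    | smul r x _ hx =>
      rw [Algebra.smul_def, map_mul, ← IsScalarTower.algebraMap_apply R B L,
        IsScalarTower.algebraMap_apply R M L]
      exact mul_mem (IntermediateField.algebraMap_mem _ _) hx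
  have htop : IntermediateField.adjoin M ((algebraMap B L) '' (S : Set B)) = ⊤ := by
    rw [eq_top_iff]
    intro x _
    obtain ⟨a, b, hb, rfl⟩ := IsFractionRing.div_surjective (A := B) x
    exact div_mem (hall a) (hall b)
  have hfin : Finite ((algebraMap B L) '' (S : Set B)) := (S.finite_toSet.image _).to_subtype
  have h2 : FiniteDimensional M (IntermediateField.adjoin M ((algebraMap B L) '' (S : Set B))) := by
    apply IntermediateField.finiteDimensional_adjoin
    rintro x ⟨b, _, rfl⟩
    exact hint b
  rw [htop] at h2
  exact IntermediateField.topEquiv.toLinearEquiv.finiteDimensional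

private theorem B3_core (R RK B M L : Type) [CommRing R] [IsDomain R] [CommRing RK] [IsDomain RK]
    [IsIntegrallyClosed RK] [Algebra R RK] (W : Submonoid R) [IsLocalization W RK] (hW : ∀ w ∈ W, w ≠ 0)
    [CommRing B] [IsDomain B] [Algebra R B] [Module.Finite R B] [Field M] [CharZero M] [Algebra R M]
    [IsFractionRing R M] [Algebra RK M] [IsFractionRing RK M] [IsScalarTower R RK M] [Field L] [Algebra B L]
    [IsFractionRing B L] [Algebra R L] [Algebra RK L] [Algebra M L] [IsScalarTower R B L]
    [IsScalarTower R M L] [IsScalarTower RK M L] [IsScalarTower R RK L] :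
    ∃ (θ : B) (F : R[X]) (b : R), F.Monic ∧ b ≠ 0 ∧ aeval θ F = 0 ∧
      (∀ x : B, ∃ s : R[X], algebraMap R B b * x = aeval θ s) ∧
      (∀ S : RK[X], S.degree < (F.map (algebraMap R RK)).degree → aeval (algebraMap B L θ) S = 0 → S = 0) := by
  have hfd : FiniteDimensional M L := B3_fd R B M L
  have hRM : Function.Injective (algebraMap R M) := IsFractionRing.injective R M
  have hRKM : Function.Injective (algebraMap RK M) := IsFractionRing.injective RK M
  have hBL : Function.Injective (algebraMap B L) := IsFractionRing.injective B L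
  have hML : Function.Injective (algebraMap M L) := (algebraMap M L).injective
  obtain ⟨α, hα⟩ := Field.exists_primitive_element M L
  obtain ⟨r, hr, b₀, hb₀⟩ : ∃ r : R, r ≠ 0 ∧ ∃ b : B, algebraMap R L r * α = algebraMap B L b := by
    obtain ⟨a, b, hb, rfl⟩ := IsFractionRing.div_surjective (A := B) α
    have hint : IsIntegral R b := Algebra.IsIntegral.isIntegral b
    obtain ⟨r, hr, c, hc⟩ := hint.isAlgebraic.exists_nonzero_dvd hb
    refine ⟨r, hr, c * a, ?_⟩
    have hb0 : algebraMap B L b ≠ 0 := by
      rw [Ne, map_eq_zero_iff _ hBL]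
      exact nonZeroDivisors.ne_zero hb
    rw [IsScalarTower.algebraMap_apply R B L, hc, map_mul, map_mul]
    field_simp
  have hβ : IntermediateField.adjoin M {algebraMap B L b₀} = ⊤ := by
    refine B3_adj M L α _ (algebraMap R M r)⁻¹ ?_ hα
    rw [← hb₀, map_inv₀, ← IsScalarTower.algebraMap_apply R M L, ← mul_assoc, inv_mul_cancel₀, one_mul]
    rw [IsScalarTower.algebraMap_apply R M L, Ne, map_eq_zero_iff _ hML, map_eq_zero_iff _ hRM]
    exact hr
  have hint : IsIntegral RK (algebraMap B L b₀) := by
    have h1 : IsIntegral R b₀ := Algebra.IsIntegral.isIntegral b₀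
    exact (h1.map (IsScalarTower.toAlgHom R B L)).tower_top
  have hm := minpoly.monic hint
  have heq : minpoly M (algebraMap B L b₀) = (minpoly RK (algebraMap B L b₀)).map (algebraMap RK M) :=
    minpoly.isIntegrallyClosed_eq_field_fractions' M hint
  obtain ⟨w, hw, F, hF, hFm⟩ := B3_lifts R RK W _ hm
  have hw0 := hW w hw
  have hθ' : algebraMap B L (algebraMap R B w * b₀) = algebraMap RK L (algebraMap R RK w) * algebraMap B L b₀ := by
    rw [map_mul, ← IsScalarTower.algebraMap_apply R B L, ← IsScalarTower.algebraMap_apply R RK L]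
  have hθtop : IntermediateField.adjoin M {algebraMap B L (algebraMap R B w * b₀)} = ⊤ := by
    refine B3_adj M L _ _ (algebraMap R M w)⁻¹ ?_ hβ
    rw [map_mul, ← IsScalarTower.algebraMap_apply R B L, map_inv₀, ← IsScalarTower.algebraMap_apply R M L,
      ← mul_assoc, inv_mul_cancel₀, one_mul]
    rw [IsScalarTower.algebraMap_apply R M L, Ne, map_eq_zero_iff _ hML, map_eq_zero_iff _ hRM]
    exact hw0
  have hroot : aeval (algebraMap R B w * b₀) F = 0 := by
    apply hBL
    rw [map_zero, ← aeval_algebraMap_apply, ← aeval_map_algebraMap RK, hFm, hθ']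
    exact scaleRoots_aeval_eq_zero (minpoly.aeval _ _)
  have hone : ∀ x : B, ∃ b : R, b ≠ 0 ∧ ∃ s : R[X], algebraMap R B b * x = aeval (algebraMap R B w * b₀) s := by
    intro x
    have h1 : algebraMap B L x ∈ (IntermediateField.adjoin M {algebraMap B L (algebraMap R B w * b₀)}).toSubalgebra := by
      rw [hθtop]
      trivial
    rw [IntermediateField.adjoin_simple_toSubalgebra_of_isAlgebraic (IsAlgebraic.of_finite M _),
      Algebra.adjoin_singleton_eq_range_aeval] at h1
    obtain ⟨p, hp⟩ := h1
    obtain ⟨c, hc⟩ := IsLocalization.integerNormalization_map_to_map (nonZeroDivisors R) p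
    refine ⟨c, nonZeroDivisors.ne_zero c.2, IsLocalization.integerNormalization (nonZeroDivisors R) p, ?_⟩
    apply hBL
    rw [map_mul, ← aeval_algebraMap_apply, ← aeval_map_algebraMap M, hc, ← IsScalarTower.algebraMap_apply R B L]
    rw [← hp, ← IsScalarTower.algebraMap_smul M (c : R) p, map_smul, Algebra.smul_def,
      ← IsScalarTower.algebraMap_apply R M L]
    rfl
  obtain ⟨T, hT⟩ := Module.Finite.fg_top (R := R) (M := B)
  choose bb hbb ss hss using hone
  have hprod : ∀ x : B, ∃ s : R[X], algebraMap R B (∏ y ∈ T, bb y) * x = aeval (algebraMap R B w * b₀) s := by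
    intro x
    have hx : x ∈ Submodule.span R (T : Set B) := by
      rw [hT]
      trivial
    induction hx using Submodule.span_induction with
    | mem y hy =>
      obtain ⟨d, hd⟩ := Finset.dvd_prod_of_mem bb hy
      refine ⟨C d * ss y, ?_⟩
      rw [hd, map_mul, map_mul, aeval_C, ← hss y]
      ring
    | zero => exact ⟨0, by rw [mul_zero, map_zero]⟩
    | add y z _ _ hy hz =>
      obtain ⟨s1, h1⟩ := hy
      obtain ⟨s2, h2⟩ := hz
      exact ⟨s1 + s2, by rw [mul_add, map_add, h1, h2]⟩
    | smul a y _ hy =>
      obtain ⟨s1, h1⟩ := hy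
      refine ⟨C a * s1, ?_⟩
      rw [map_mul, aeval_C, ← h1, Algebra.smul_def]
      ring
  refine ⟨algebraMap R B w * b₀, F, ∏ y ∈ T, bb y, hF, Finset.prod_ne_zero_iff.2 fun y _ => hbb y, hroot, hprod, ?_⟩
  intro S hdeg hS
  by_contra hne
  have h1 : S.map (algebraMap RK M) ≠ 0 := (Polynomial.map_ne_zero_iff hRKM).2 hne
  have h2 : aeval (algebraMap B L (algebraMap R B w * b₀)) (S.map (algebraMap RK M)) = 0 := by
    rw [aeval_map_algebraMap]
    exact hS
  have h3 := minpoly.degree_le_of_ne_zero M _ h1 h2
  rw [(Field.primitive_element_iff_minpoly_degree_eq M _).1 hθtop,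
    ← (Field.primitive_element_iff_minpoly_degree_eq M _).1 hβ, heq,
    Polynomial.degree_map_eq_of_injective hRKM, Polynomial.degree_map_eq_of_injective hRKM] at h3
  rw [hFm, Polynomial.degree_scaleRoots] at hdeg
  exact absurd hdeg (not_lt.2 h3)

theorem prim (C B L : Type) [CommRing C] [IsDomain C] [CharZero C] [CommRing B] [IsDomain B]
    [Field L] [Algebra B L] [IsFractionRing B L] (n : ℕ) (g : MvPolynomial (Fin n) C →+* B)
    (hg : Function.Injective g) (hf : g.Finite)
    (hac : AC ((algebraMap B L).comp (g.comp MvPolynomial.C))) :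
    ∃ (θ : B) (F : (MvPolynomial (Fin n) C)[X]) (b : MvPolynomial (Fin n) C), F.Monic ∧ b ≠ 0 ∧
      F.eval₂ g θ = 0 ∧ (∀ x : B, ∃ s : (MvPolynomial (Fin n) C)[X], g b * x = s.eval₂ g θ) ∧
      Irreducible (F.map (MvPolynomial.map
        (algebraMap C (AlgebraicClosure (FractionRing C))))) := by
  classical
  have hBL : Function.Injective (algebraMap B L) := IsFractionRing.injective B L
  let _ : Algebra (MvPolynomial (Fin n) C) B := g.toAlgebra
  have hfin : Module.Finite (MvPolynomial (Fin n) C) B := hf
  let _ : Algebra (MvPolynomial (Fin n) C) L := ((algebraMap B L).comp g).toAlgebra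
  have t1 : IsScalarTower (MvPolynomial (Fin n) C) B L := IsScalarTower.of_algebraMap_eq fun _ => rfl
  have hRL : Function.Injective (algebraMap (MvPolynomial (Fin n) C) L) := hBL.comp hg
  have hfa : FaithfulSMul (MvPolynomial (Fin n) C) L := (faithfulSMul_iff_algebraMap_injective _ _).2 hRL
  let _ : Algebra (FractionRing (MvPolynomial (Fin n) C)) L := FractionRing.liftAlgebra _ _
  have t2 : IsScalarTower (MvPolynomial (Fin n) C) (FractionRing (MvPolynomial (Fin n) C)) L :=
    FractionRing.isScalarTower_liftAlgebra _ _
  let _ : Algebra (MvPolynomial (Fin n) C) (MvPolynomial (Fin n) (FractionRing C)) :=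
    MvPolynomial.algebraMvPolynomial
  have hloc : IsLocalization ((nonZeroDivisors C).map (MvPolynomial.C (σ := Fin n)))
      (MvPolynomial (Fin n) (FractionRing C)) := MvPolynomial.isLocalization _ _
  have hW : ∀ w ∈ (nonZeroDivisors C).map (MvPolynomial.C (σ := Fin n)), w ≠ 0 := by
    rintro w ⟨c, hc, rfl⟩ h
    exact nonZeroDivisors.ne_zero hc (MvPolynomial.C_injective (Fin n) C (by rw [map_zero]; exact h))
  have hRM : Function.Injective (algebraMap (MvPolynomial (Fin n) C) (FractionRing (MvPolynomial (Fin n) C))) :=
    IsFractionRing.injective _ _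
  have hun : ∀ y : (nonZeroDivisors C).map (MvPolynomial.C (σ := Fin n)),
      IsUnit (algebraMap (MvPolynomial (Fin n) C) (FractionRing (MvPolynomial (Fin n) C)) y) := fun y =>
    IsUnit.mk0 _ (by
      rw [Ne, map_eq_zero_iff _ hRM]
      exact hW _ y.2)
  let _ : Algebra (MvPolynomial (Fin n) (FractionRing C)) (FractionRing (MvPolynomial (Fin n) C)) :=
    (IsLocalization.lift (M := (nonZeroDivisors C).map (MvPolynomial.C (σ := Fin n))) hun).toAlgebra
  have t3 : IsScalarTower (MvPolynomial (Fin n) C) (MvPolynomial (Fin n) (FractionRing C))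
      (FractionRing (MvPolynomial (Fin n) C)) :=
    IsScalarTower.of_algebraMap_eq fun x => (IsLocalization.lift_eq hun x).symm
  have hfr : IsFractionRing (MvPolynomial (Fin n) (FractionRing C)) (FractionRing (MvPolynomial (Fin n) C)) :=
    IsFractionRing.isFractionRing_of_isDomain_of_isLocalization
      ((nonZeroDivisors C).map (MvPolynomial.C (σ := Fin n))) _ _
  let _ : Algebra (MvPolynomial (Fin n) (FractionRing C)) L :=
    ((algebraMap (FractionRing (MvPolynomial (Fin n) C)) L).comp
      (algebraMap (MvPolynomial (Fin n) (FractionRing C)) (FractionRing (MvPolynomial (Fin n) C)))).toAlgebra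
  have t4 : IsScalarTower (MvPolynomial (Fin n) (FractionRing C)) (FractionRing (MvPolynomial (Fin n) C)) L :=
    IsScalarTower.of_algebraMap_eq fun _ => rfl
  have t5 : IsScalarTower (MvPolynomial (Fin n) C) (MvPolynomial (Fin n) (FractionRing C)) L :=
    IsScalarTower.of_algebraMap_eq fun x => by
      rw [IsScalarTower.algebraMap_apply (MvPolynomial (Fin n) (FractionRing C))
        (FractionRing (MvPolynomial (Fin n) C)) L, ← IsScalarTower.algebraMap_apply (MvPolynomial (Fin n) C)
        (MvPolynomial (Fin n) (FractionRing C)), ← IsScalarTower.algebraMap_apply (MvPolynomial (Fin n) C)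
        (FractionRing (MvPolynomial (Fin n) C)) L]
  have hcR : CharZero (MvPolynomial (Fin n) C) := charZero_of_injective_algebraMap (MvPolynomial.C_injective (Fin n) C)
  have hcM : CharZero (FractionRing (MvPolynomial (Fin n) C)) := charZero_of_injective_algebraMap hRM
  obtain ⟨θ, F, b, h1, h2, h3, h4, h5⟩ := B3_core (MvPolynomial (Fin n) C)
    (MvPolynomial (Fin n) (FractionRing C)) B (FractionRing (MvPolynomial (Fin n) C)) L
    ((nonZeroDivisors C).map (MvPolynomial.C (σ := Fin n))) hW
  refine ⟨θ, F, b, h1, h2, h3, h4, ?_⟩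
  let _ : Algebra (FractionRing C) L :=
    ((algebraMap (MvPolynomial (Fin n) (FractionRing C)) L).comp MvPolynomial.C).toAlgebra
  let gK : MvPolynomial (Fin n) (FractionRing C) →ₐ[FractionRing C] L :=
    { algebraMap (MvPolynomial (Fin n) (FractionRing C)) L with commutes' := fun _ => rfl }
  have hgK : Function.Injective gK := by
    have e1 : Function.Injective (algebraMap (MvPolynomial (Fin n) (FractionRing C))
      (FractionRing (MvPolynomial (Fin n) C))) := IsFractionRing.injective _ _
    exact (algebraMap (FractionRing (MvPolynomial (Fin n) C)) L).injective.comp e1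
  have hCK : ∀ c : C, algebraMap (FractionRing C) L (algebraMap C (FractionRing C) c) =
      ((algebraMap B L).comp (g.comp MvPolynomial.C)) c := by
    intro c
    have e2 : algebraMap (MvPolynomial (Fin n) C) (MvPolynomial (Fin n) (FractionRing C)) (MvPolynomial.C c) =
        MvPolynomial.C (algebraMap C (FractionRing C) c) := MvPolynomial.map_C _ _
    change algebraMap (MvPolynomial (Fin n) (FractionRing C)) L (MvPolynomial.C (algebraMap C (FractionRing C) c)) = _
    rw [← e2, ← IsScalarTower.algebraMap_apply]
    rfl
  have halg : ∀ x : L, IsAlgebraic (FractionRing C) x → ∃ a : FractionRing C, algebraMap (FractionRing C) L a = x := by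
    intro x hx
    let _ : Algebra C L := ((algebraMap B L).comp (g.comp MvPolynomial.C)).toAlgebra
    have t6 : IsScalarTower C (FractionRing C) L := IsScalarTower.of_algebraMap_eq fun c => (hCK c).symm
    obtain ⟨p, hp, hp2⟩ := (IsFractionRing.isAlgebraic_iff C (FractionRing C) L).2 hx
    obtain ⟨a, b, hb, hab⟩ := hac x p hp hp2
    refine ⟨algebraMap C (FractionRing C) a / algebraMap C (FractionRing C) b, ?_⟩
    have hb2 : algebraMap (FractionRing C) L (algebraMap C (FractionRing C) b) ≠ 0 := by
      rw [Ne, map_eq_zero_iff _ (algebraMap (FractionRing C) L).injective,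
        map_eq_zero_iff _ (IsFractionRing.injective C (FractionRing C))]
      exact hb
    rw [map_div₀, div_eq_iff hb2, hCK, hCK, ← hab, mul_comm]
  have key := irred_alg (FractionRing C) L halg n gK hgK (algebraMap B L θ)
    (F.map (algebraMap (MvPolynomial (Fin n) C) (MvPolynomial (Fin n) (FractionRing C)))) (h1.map _) ?_ ?_
  · rw [Polynomial.map_map] at key
    have e3 : (MvPolynomial.map (algebraMap (FractionRing C) (AlgebraicClosure (FractionRing C)))).comp
        (algebraMap (MvPolynomial (Fin n) C) (MvPolynomial (Fin n) (FractionRing C))) =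
        MvPolynomial.map (σ := Fin n) (algebraMap C (AlgebraicClosure (FractionRing C))) := by
      rw [IsScalarTower.algebraMap_eq C (FractionRing C) (AlgebraicClosure (FractionRing C))]
      refine RingHom.ext fun x => ?_
      exact MvPolynomial.map_map _ _ x
    rw [e3] at key
    exact key
  · change (F.map (algebraMap (MvPolynomial (Fin n) C) (MvPolynomial (Fin n) (FractionRing C)))).eval₂
      (algebraMap (MvPolynomial (Fin n) (FractionRing C)) L) (algebraMap B L θ) = 0
    have e4 := aeval_map_algebraMap (MvPolynomial (Fin n) (FractionRing C)) (algebraMap B L θ) F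
    have e5 : aeval (algebraMap B L θ) F = 0 := by rw [aeval_algebraMap_apply, h3, map_zero]
    exact e4.trans e5
  · intro S hS hS2
    exact h5 S hS hS2

end LibHM79S
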