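import Mathlib

/-! C1 (SHORT/MEDIUM, algebra, ONLY MATHLIB). Degrees in t of monic factors. Plan: for P ∈ (MvPolynomial (Fin n) E)[X] let d(P) := max over i of the total degree of the coefficients. Transport to
MvPolynomial (Fin n) (E[X]) (or MvPolynomial (Option (Fin n)) E with a weighted degree): there the total degree is additive on products of nonzero polynomials over the domain E[X]
(MvPolynomial.totalDegree_mul_of_isDomain); d(f) ≤ d(f g) since g ≠ 0. Direct alternative: the homogeneous components of top degree d(f), d(g) of the coefficients, as elements of (MvPolynomial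
(Fin n) E)[X], are nonzero and their product is the component of degree d(f) + d(g) of f g. -/

namespace LibHM79S

open Polynomial

private noncomputable def C1_psi (E : Type) [Field E] (n : ℕ) :
    (MvPolynomial (Fin n) E)[X] →+* MvPolynomial (Fin n) E[X] :=
  Polynomial.eval₂RingHom (MvPolynomial.map (Polynomial.C : E →+* E[X]))
    (MvPolynomial.C (Polynomial.X : E[X]))

private theorem C1_coeff (E : Type) [Field E] (n : ℕ) (f : (MvPolynomial (Fin n) E)[X])
    (m : Fin n →₀ ℕ) (i : ℕ) :
    ((C1_psi E n f).coeff m).coeff i = (f.coeff i).coeff m := by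
  induction f using Polynomial.induction_on' with
  | add p q hp hq =>
    rw [map_add, MvPolynomial.coeff_add, Polynomial.coeff_add, hp, hq, Polynomial.coeff_add,
      MvPolynomial.coeff_add]
  | monomial k a =>
    have h : C1_psi E n (Polynomial.monomial k a) =
        MvPolynomial.map (Polynomial.C : E →+* E[X]) a *
          MvPolynomial.C ((Polynomial.X : E[X]) ^ k) := by
      unfold C1_psi
      rw [Polynomial.coe_eval₂RingHom, Polynomial.eval₂_monomial, MvPolynomial.C_pow]
    rw [h, mul_comm, MvPolynomial.coeff_C_mul, mul_comm, MvPolynomial.coeff_map,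
      Polynomial.coeff_C_mul,
      Polynomial.coeff_X_pow, Polynomial.coeff_monomial]
    by_cases hk : i = k
    · rw [if_pos hk, if_pos hk.symm, mul_one]
    · rw [if_neg hk, if_neg (Ne.symm hk), mul_zero, MvPolynomial.coeff_zero]

private theorem C1_ne (E : Type) [Field E] (n : ℕ) {f : (MvPolynomial (Fin n) E)[X]} (hf : f ≠ 0) :
    C1_psi E n f ≠ 0 := by
  intro h
  apply hf
  ext i m
  rw [← C1_coeff, h]
  simp

private theorem C1_iff (E : Type) [Field E] (n D : ℕ) (f : (MvPolynomial (Fin n) E)[X]) :
    (∀ i, (f.coeff i).totalDegree ≤ D) ↔ (C1_psi E n f).totalDegree ≤ D := by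
  constructor
  · intro h
    refine Finset.sup_le fun m hm => ?_
    rw [MvPolynomial.mem_support_iff] at hm
    obtain ⟨i, hi⟩ : ∃ i, ((C1_psi E n f).coeff m).coeff i ≠ 0 := by
      by_contra hcon
      push Not at hcon
      exact hm (Polynomial.ext fun i => by rw [hcon i, Polynomial.coeff_zero])
    rw [C1_coeff] at hi
    exact (MvPolynomial.le_totalDegree (MvPolynomial.mem_support_iff.mpr hi)).trans (h i)
  · intro h i
    refine Finset.sup_le fun m hm => ?_
    rw [MvPolynomial.mem_support_iff, ← C1_coeff] at hm
    refine (MvPolynomial.le_totalDegree (MvPolynomial.mem_support_iff.mpr fun h0 => hm ?_)).trans h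
    rw [h0, Polynomial.coeff_zero]

theorem deg_bound (E : Type) [Field E] (n D : ℕ) (f g : (MvPolynomial (Fin n) E)[X])
    (hf : f.Monic) (hg : g.Monic) (h : ∀ i, ((f * g).coeff i).totalDegree ≤ D) :
    ∀ i, (f.coeff i).totalDegree ≤ D := by
  rw [C1_iff] at h ⊢
  rw [map_mul, MvPolynomial.totalDegree_mul_of_isDomain (C1_ne E n hf.ne_zero)
    (C1_ne E n hg.ne_zero)] at h
  omega

end LibHM79S
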