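import Mathlib

/-! C2 (MEDIUM/STRONG, algebra, ONLY MATHLIB). Generic factorisation. If for every c ≠ 0 in C some specialisation φ with φ c ≠ 0 factors F into monic polynomials of degrees a, a' with coefficients of
total degree ≤ D, then F factors so over the algebraic closure of Frac C. Plan: finite index set I := (Fin a ⊕ Fin a') × {μ : Fin n →₀ ℕ // μ.degree ≤ D} (finite), A := MvPolynomial I C, universal monic
polynomials f̃ = X^a + Σ_(i<a) (Σ_μ x_(i,μ) t^μ) X^i, g̃ likewise in (MvPolynomial (Fin n) A)[X]. J := the ideal of A generated by all coefficients of all coefficients of F.map - f̃ g̃. An A-algebra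
map A → E (E a ring over C through φ) kills J iff the specialised f̃, g̃ multiply to F. Every c ≠ 0 is outside J (evaluate at the coefficients of the given f, g: J goes to 0, c to φ c ≠ 0). So A/J localised at
the image of C ∖ 0 is nonzero, of finite type over K = FractionRing C: it has a K-algebra map to AlgebraicClosure K (maximal ideal, residue field finite over K: finite_of_finite_type_of_isJacobsonRing,
IsAlgClosed.lift). Specialise f̃, g̃. -/

namespace LibHM79S

open Polynomial

private noncomputable def C2_mu {n D : ℕ} (e : Fin n → Fin (D + 1)) : Fin n →₀ ℕ :=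
  Finsupp.equivFunOnFinite.symm (fun i => (e i : ℕ))

private theorem C2_mu_apply {n D : ℕ} (e : Fin n → Fin (D + 1)) (i : Fin n) :
    C2_mu e i = (e i : ℕ) := rfl

private theorem C2_mu_inj {n D : ℕ} : Function.Injective (C2_mu (n := n) (D := D)) := by
  intro e e' h
  funext i
  apply Fin.ext
  have := DFunLike.congr_fun h i
  simpa [C2_mu_apply] using this

private noncomputable def C2_P {R : Type} [CommRing R] {n D m : ℕ}
    (x : Fin m × (Fin n → Fin (D + 1)) → R) : (MvPolynomial (Fin n) R)[X] :=
  X ^ m + ∑ i : Fin m, C (∑ e, MvPolynomial.monomial (C2_mu e) (x (i, e))) * X ^ (i : ℕ)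

private theorem C2_monic {R : Type} [CommRing R] {n D m : ℕ}
    (x : Fin m × (Fin n → Fin (D + 1)) → R) : (C2_P x).Monic :=
  monic_X_pow_add (degree_sum_fin_lt _)

private theorem C2_natDegree {R : Type} [CommRing R] [Nontrivial R] {n D m : ℕ}
    (x : Fin m × (Fin n → Fin (D + 1)) → R) : (C2_P x).natDegree = m := by
  apply natDegree_eq_of_degree_eq_some
  unfold C2_P
  rw [degree_add_eq_left_of_degree_lt, degree_X_pow]
  rw [degree_X_pow]
  exact degree_sum_fin_lt _

private theorem C2_lift (K L : Type) [Field K] [Field L] [Algebra K L] [Algebra.FiniteType K L] :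
    ∃ _ : L →ₐ[K] AlgebraicClosure K, True := by
  have hfin : Module.Finite K L := finite_of_finite_type_of_isJacobsonRing K L
  exact ⟨IsAlgClosed.lift, trivial⟩

private theorem C2_lift' (K B : Type) [Field K] [CommRing B] [Algebra K B]
    [Algebra.FiniteType K B] (M : Ideal B) [hM : M.IsMaximal] :
    ∃ θ : B →ₐ[K] AlgebraicClosure K, ∀ b ∈ M, θ b = 0 := by
  let _ : Field (B ⧸ M) := Ideal.Quotient.field M
  obtain ⟨θ, -⟩ := C2_lift K (B ⧸ M)
  refine ⟨θ.comp (Ideal.Quotient.mkₐ K M), ?_⟩
  intro b hb
  rw [AlgHom.comp_apply, Ideal.Quotient.mkₐ_eq_mk, Ideal.Quotient.eq_zero_iff_mem.mpr hb, map_zero]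

private theorem C2_map {R S : Type} [CommRing R] [CommRing S] (ψ : R →+* S) {n D m : ℕ}
    (x : Fin m × (Fin n → Fin (D + 1)) → R) :
    (C2_P x).map (MvPolynomial.map ψ) = C2_P (fun p => ψ (x p)) := by
  unfold C2_P
  simp only [Polynomial.map_add, Polynomial.map_pow, Polynomial.map_X, Polynomial.map_sum,
    Polynomial.map_mul, Polynomial.map_C, map_sum, MvPolynomial.map_monomial]

private theorem C2_coeff {R : Type} [CommRing R] {n D : ℕ} (p : MvPolynomial (Fin n) R)
    (hp : p.totalDegree ≤ D) :
    (∑ e : Fin n → Fin (D + 1), MvPolynomial.monomial (C2_mu e)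
      (MvPolynomial.coeff (C2_mu e) p)) = p := by
  classical
  ext ν
  rw [MvPolynomial.coeff_sum]
  simp only [MvPolynomial.coeff_monomial]
  by_cases hν : ∀ i, ν i ≤ D
  · let e0 : Fin n → Fin (D + 1) := fun i => ⟨ν i, Nat.lt_succ_of_le (hν i)⟩
    have he0 : C2_mu e0 = ν := by
      ext i
      rfl
    rw [Finset.sum_eq_single e0]
    · rw [if_pos he0, he0]
    · intro e _ he
      rw [if_neg]
      intro h
      exact he (C2_mu_inj (h.trans he0.symm))
    · intro h
      exact absurd (Finset.mem_univ _) h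
  · push Not at hν
    obtain ⟨i, hi⟩ := hν
    have h0 : MvPolynomial.coeff ν p = 0 := by
      by_contra hne
      have hmem : ν ∈ p.support := MvPolynomial.mem_support_iff.mpr hne
      have h1 := MvPolynomial.le_totalDegree hmem
      have h2 : ν i ≤ ν.sum fun _ e => e := by
        rw [Finsupp.sum]
        by_cases his : i ∈ ν.support
        · exact Finset.single_le_sum (f := fun j => ν j) (fun _ _ => Nat.zero_le _) his
        · rw [Finsupp.notMem_support_iff.mp his]
          exact Nat.zero_le _
      omega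
    rw [h0]
    apply Finset.sum_eq_zero
    intro e _
    rw [if_neg]
    intro h
    have := DFunLike.congr_fun h i
    rw [C2_mu_apply] at this
    have := (e i).2
    omega

private theorem C2_surj {R : Type} [CommRing R] {n D m : ℕ} (f : (MvPolynomial (Fin n) R)[X])
    (hf : f.Monic) (hm : f.natDegree = m) (hD : ∀ i, (f.coeff i).totalDegree ≤ D) :
    f = C2_P (D := D) (m := m)
      (fun p => MvPolynomial.coeff (C2_mu p.2) (f.coeff (p.1 : ℕ))) := by
  unfold C2_P
  conv_lhs => rw [hf.as_sum, hm, Finset.sum_range]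
  congr 1
  refine Finset.sum_congr rfl fun i _ => ?_
  rw [C2_coeff _ (hD i)]

theorem generic_factor (C : Type) [CommRing C] [IsDomain C] (n D a a' : ℕ)
    (F : (MvPolynomial (Fin n) C)[X])
    (h : ∀ c : C, c ≠ 0 → ∃ (E : Type) (_ : Field E) (φ : C →+* E)
      (f g : (MvPolynomial (Fin n) E)[X]), φ c ≠ 0 ∧ f.Monic ∧ g.Monic ∧ f.natDegree = a ∧
      g.natDegree = a' ∧ (∀ i, (f.coeff i).totalDegree ≤ D) ∧
      (∀ i, (g.coeff i).totalDegree ≤ D) ∧ F.map (MvPolynomial.map φ) = f * g) :
    ∃ f g : (MvPolynomial (Fin n) (AlgebraicClosure (FractionRing C)))[X], f.Monic ∧ g.Monic ∧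
      f.natDegree = a ∧ g.natDegree = a' ∧
      F.map (MvPolynomial.map (algebraMap C (AlgebraicClosure (FractionRing C)))) = f * g := by
  classical
  let I : Type := (Fin a × (Fin n → Fin (D + 1))) ⊕ (Fin a' × (Fin n → Fin (D + 1)))
  let A : Type := MvPolynomial I C
  let ft : (MvPolynomial (Fin n) (MvPolynomial I C))[X] :=
    C2_P (fun p => MvPolynomial.X (Sum.inl p))
  let gt : (MvPolynomial (Fin n) (MvPolynomial I C))[X] :=
    C2_P (fun p => MvPolynomial.X (Sum.inr p))
  let Gt : (MvPolynomial (Fin n) (MvPolynomial I C))[X] :=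
    F.map (MvPolynomial.map MvPolynomial.C) - ft * gt
  let J : Ideal (MvPolynomial I C) := Ideal.span
    (Set.range fun p : ℕ × (Fin n →₀ ℕ) => MvPolynomial.coeff p.2 (Gt.coeff p.1))
  have hGt : ∀ {S : Type} [CommRing S] (ψ : MvPolynomial I C →+* S),
      Gt.map (MvPolynomial.map ψ) = F.map (MvPolynomial.map (ψ.comp MvPolynomial.C)) -
        C2_P (fun p => ψ (MvPolynomial.X (Sum.inl p))) *
        C2_P (fun p => ψ (MvPolynomial.X (Sum.inr p))) := by
    intro S _ ψ
    simp only [Gt, ft, gt]
    rw [Polynomial.map_sub, Polynomial.map_mul, C2_map, C2_map, Polynomial.map_map]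
    congr 2
    ext x
    · simp
    · simp
  -- J does not contain nonzero constants
  have hJ : ∀ c : C, c ≠ 0 → (MvPolynomial.C c : MvPolynomial I C) ∉ J := by
    intro c hc hmem
    obtain ⟨E, _, φ, f, g, hφc, hf, hg, hfa, hga, hfD, hgD, hF⟩ := h c hc
    let x : I → E := Sum.elim (fun p => MvPolynomial.coeff (C2_mu p.2) (f.coeff (p.1 : ℕ)))
      (fun p => MvPolynomial.coeff (C2_mu p.2) (g.coeff (p.1 : ℕ)))
    let ψ : MvPolynomial I C →+* E := MvPolynomial.eval₂Hom φ x
    have hψC : ψ.comp MvPolynomial.C = φ := by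
      ext z
      simp [ψ]
    have hψ1 : (fun p => ψ (MvPolynomial.X (Sum.inl p))) =
        fun p => MvPolynomial.coeff (C2_mu p.2) (f.coeff (p.1 : ℕ)) := by
      funext p
      simp [ψ, x]
    have hψ2 : (fun p => ψ (MvPolynomial.X (Sum.inr p))) =
        fun p => MvPolynomial.coeff (C2_mu p.2) (g.coeff (p.1 : ℕ)) := by
      funext p
      simp [ψ, x]
    have h0 : Gt.map (MvPolynomial.map ψ) = 0 := by
      rw [hGt, hψC, hψ1, hψ2, ← C2_surj f hf hfa hfD, ← C2_surj g hg hga hgD, hF, sub_self]
    have hker : J ≤ RingHom.ker ψ := by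
      rw [Ideal.span_le]
      rintro _ ⟨p, rfl⟩
      rw [SetLike.mem_coe, RingHom.mem_ker]
      have := congrArg (fun q => MvPolynomial.coeff p.2 (Polynomial.coeff q p.1)) h0
      simpa [Polynomial.coeff_map, MvPolynomial.coeff_map] using this
    apply hφc
    have := hker hmem
    rw [RingHom.mem_ker] at this
    rw [← hψC]
    exact this
  -- extension to the fraction field
  let K : Type := FractionRing C
  let _ : Algebra (MvPolynomial I C) (MvPolynomial I (FractionRing C)) :=
    MvPolynomial.algebraMvPolynomial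
  have hloc : IsLocalization ((nonZeroDivisors C).map (MvPolynomial.C (σ := I)))
      (MvPolynomial I (FractionRing C)) := MvPolynomial.isLocalization _ _
  have hne : J.map (algebraMap (MvPolynomial I C) (MvPolynomial I (FractionRing C))) ≠ ⊤ := by
    rw [IsLocalization.map_algebraMap_ne_top_iff_disjoint
      ((nonZeroDivisors C).map (MvPolynomial.C (σ := I)))]
    rw [Set.disjoint_left]
    rintro _ ⟨c, hc, rfl⟩ hmem
    exact hJ c (nonZeroDivisors.ne_zero hc) hmem
  obtain ⟨M, hM, hJM⟩ := Ideal.exists_le_maximal _ hne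
  obtain ⟨θ, hθ⟩ := C2_lift' (FractionRing C) (MvPolynomial I (FractionRing C)) M (hM := hM)
  let Ψ : MvPolynomial I C →+* AlgebraicClosure (FractionRing C) :=
    θ.toRingHom.comp (algebraMap (MvPolynomial I C) (MvPolynomial I (FractionRing C)))
  have hΨC : Ψ.comp MvPolynomial.C = algebraMap C (AlgebraicClosure (FractionRing C)) := by
    ext z
    have e1 : algebraMap (MvPolynomial I C) (MvPolynomial I (FractionRing C))
        (MvPolynomial.C z) = algebraMap (FractionRing C) (MvPolynomial I (FractionRing C))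
          (algebraMap C (FractionRing C) z) := by
      rw [MvPolynomial.algebraMap_def, MvPolynomial.map_C]
      rfl
    have e2 : Ψ (MvPolynomial.C z) = θ (algebraMap (FractionRing C)
        (MvPolynomial I (FractionRing C)) (algebraMap C (FractionRing C) z)) := by
      rw [← e1]
      rfl
    rw [RingHom.comp_apply, e2, AlgHom.commutes,
      ← IsScalarTower.algebraMap_apply C (FractionRing C) (AlgebraicClosure (FractionRing C))]
  have hΨ0 : Gt.map (MvPolynomial.map Ψ) = 0 := by
    ext j ν
    rw [Polynomial.coeff_map, MvPolynomial.coeff_map, Polynomial.coeff_zero,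
      MvPolynomial.coeff_zero]
    have hz : MvPolynomial.coeff ν (Gt.coeff j) ∈ J := Ideal.subset_span ⟨(j, ν), rfl⟩
    have hz2 := hJM (Ideal.mem_map_of_mem
      (algebraMap (MvPolynomial I C) (MvPolynomial I (FractionRing C))) hz)
    exact hθ _ hz2
  rw [hGt, hΨC, sub_eq_zero] at hΨ0
  exact ⟨_, _, C2_monic _, C2_monic _, C2_natDegree _, C2_natDegree _, hΨ0⟩

end LibHM79S
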