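import Pool.Agent.LibHM79S.C1
import Pool.Agent.LibHM79S.C2

/-! C3 (SHORT/MEDIUM, algebra). Bertini - Noether: absolute irreducibility of a monic polynomial is kept by specialisation on a dense open set. Plan: D := sup of the total degrees of the coefficients of F, e := F.natDegree
(e ≥ 1 since the image is irreducible and monic). For every a with 1 ≤ a < e, generic_factor (n, D, a, e - a) cannot hold (its conclusion contradicts hirr: monic factors of positive degree are no units):
so there is c_a ≠ 0 such that no φ with φ c_a ≠ 0 has such a factorisation. c := ∏ c_a. If φ c ≠ 0 and F.map = f g with f, g non units: F.map is monic of degree e, so the leading coefficients of f, g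
are units of MvPolynomial (Fin n) E: normalise to monic f, g, of degrees a, e - a, both ≥ 1 (a monic polynomial of degree 0 is 1); degrees of the coefficients by deg_bound (and symmetrically); contradiction.
Polynomial.Monic.irreducible_iff_natDegree' does the normalisation. -/

namespace LibHM79S

open Polynomial

private theorem C3_totalDegree_map {C E : Type} [CommRing C] [Field E] (n : ℕ) (φ : C →+* E)
    (p : MvPolynomial (Fin n) C) : (MvPolynomial.map φ p).totalDegree ≤ p.totalDegree := by
  classical
  unfold MvPolynomial.totalDegree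
  exact Finset.sup_mono (MvPolynomial.support_map_subset φ p)

theorem bertini_noether (C : Type) [CommRing C] [IsDomain C] (n : ℕ)
    (F : (MvPolynomial (Fin n) C)[X]) (hF : F.Monic)
    (hirr : Irreducible (F.map (MvPolynomial.map
      (algebraMap C (AlgebraicClosure (FractionRing C)))))) :
    ∃ c : C, c ≠ 0 ∧ ∀ (E : Type) [Field E] (φ : C →+* E), φ c ≠ 0 →
      Irreducible (F.map (MvPolynomial.map φ)) := by
  classical
  set D : ℕ := (Finset.range (F.natDegree + 1)).sup fun i => (F.coeff i).totalDegree with hD
  have hcoef : ∀ i, (F.coeff i).totalDegree ≤ D := by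
    intro i
    by_cases hi : i ≤ F.natDegree
    · exact Finset.le_sup (f := fun i => (F.coeff i).totalDegree) (Finset.mem_range.2 (Nat.lt_succ_of_le hi))
    · rw [Polynomial.coeff_eq_zero_of_natDegree_lt (not_le.1 hi), MvPolynomial.totalDegree_zero]
      exact Nat.zero_le _
  have hm1 : (F.map (MvPolynomial.map (algebraMap C (AlgebraicClosure (FractionRing C))))).Monic := hF.map _
  have hd1 : (F.map (MvPolynomial.map (algebraMap C (AlgebraicClosure (FractionRing C))))).natDegree = F.natDegree :=
    hF.natDegree_map _
  obtain ⟨hne, hno⟩ := (hm1.irreducible_iff_natDegree').1 hirr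
  have hpos : 0 < F.natDegree := by
    rcases Nat.eq_zero_or_pos F.natDegree with h | h
    · exfalso
      apply hne
      have h1 : F = 1 := hF.natDegree_eq_zero.1 h
      rw [h1, Polynomial.map_one]
    · exact h
  have key : ∀ b : ℕ, ∃ c : C, c ≠ 0 ∧ (b ∈ Finset.Ioc 0 (F.natDegree / 2) →
      ∀ (E : Type) [Field E] (φ : C →+* E) (f g : (MvPolynomial (Fin n) E)[X]), φ c ≠ 0 →
        f.Monic → g.Monic → f.natDegree = F.natDegree - b → g.natDegree = b →
        (∀ i, (f.coeff i).totalDegree ≤ D) → (∀ i, (g.coeff i).totalDegree ≤ D) →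
        F.map (MvPolynomial.map φ) = f * g → False) := by
    intro b
    by_cases hb : b ∈ Finset.Ioc 0 (F.natDegree / 2)
    · by_contra hcon
      have h2 : ∀ c : C, c ≠ 0 → ∃ (E : Type) (_ : Field E) (φ : C →+* E)
          (f g : (MvPolynomial (Fin n) E)[X]), φ c ≠ 0 ∧ f.Monic ∧ g.Monic ∧ f.natDegree = F.natDegree - b ∧
          g.natDegree = b ∧ (∀ i, (f.coeff i).totalDegree ≤ D) ∧
          (∀ i, (g.coeff i).totalDegree ≤ D) ∧ F.map (MvPolynomial.map φ) = f * g := by
        intro c hc
        by_contra hcon2
        apply hcon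
        refine ⟨c, hc, fun _ E _ φ f g h1 h2 h3 h4 h5 h6 h7 h8 => ?_⟩
        exact hcon2 ⟨E, inferInstance, φ, f, g, h1, h2, h3, h4, h5, h6, h7, h8⟩
      obtain ⟨f, g, hf, hg, hfd, hgd, hfg⟩ := generic_factor C n D (F.natDegree - b) b F h2
      have h3 := hno f g hf hg hfg.symm
      rw [hd1, hgd] at h3
      exact h3 hb
    · exact ⟨1, one_ne_zero, fun h => absurd h hb⟩
  choose c hc0 hc using key
  refine ⟨∏ b ∈ Finset.range (F.natDegree + 1), c b, Finset.prod_ne_zero_iff.2 fun b _ => hc0 b, ?_⟩
  intro E _ φ hφ
  have hm2 : (F.map (MvPolynomial.map φ)).Monic := hF.map _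
  have hd2 : (F.map (MvPolynomial.map φ)).natDegree = F.natDegree := hF.natDegree_map _
  rw [hm2.irreducible_iff_natDegree']
  refine ⟨?_, ?_⟩
  · intro h
    rw [h, Polynomial.natDegree_one] at hd2
    omega
  · intro f g hf hg hfg hgd
    rw [hd2] at hgd
    have hb := Finset.mem_Ioc.1 hgd
    have hsum : f.natDegree + g.natDegree = F.natDegree := by
      rw [← hf.natDegree_mul hg, hfg, hd2]
    have hmem : g.natDegree ∈ Finset.range (F.natDegree + 1) := by
      rw [Finset.mem_range]
      omega
    have hφ2 : φ (c g.natDegree) ≠ 0 := by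
      intro h
      apply hφ
      rw [map_prod]
      exact Finset.prod_eq_zero hmem h
    have hcf : ∀ i, ((f * g).coeff i).totalDegree ≤ D := by
      intro i
      rw [hfg, Polynomial.coeff_map]
      exact (C3_totalDegree_map n φ _).trans (hcoef i)
    have hcg : ∀ i, ((g * f).coeff i).totalDegree ≤ D := by
      intro i
      rw [mul_comm]
      exact hcf i
    exact hc g.natDegree hgd E φ f g hφ2 hf hg (by omega) rfl
      (deg_bound E n D f g hf hg hcf) (deg_bound E n D g f hg hf hcg) hfg.symm

end LibHM79S
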