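import Mathlib

/-! D1 (MEDIUM, algebra, ONLY MATHLIB). The fibre over m of a finite extension B of R = C[t] with B[1/b] = (R[X]/F)[1/b] is irreducible if F stays irreducible modulo m and b does not vanish modulo m.
Plan. C₀ := MvPolynomial (Fin d) k → C injective finite (Noether normalisation exists_finite_inj_algHom_of_fg), R₀ := MvPolynomial (Fin n) C₀ → R := MvPolynomial (Fin n) C integral, R₀ integrally closed
(UFD). R₀ → B injective integral: going down (instance Algebra.HasGoingDown in RingTheory/IntegralClosure/GoingDown). Put m₀ := m ∩ C₀. Let q be a prime of B minimal over mB.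
(i) q ∩ R = mR (mR := kernel of MvPolynomial.map (mk m)): p₀ := m₀R₀ is prime, contained in q ∩ R₀; going down gives q' ≤ q with q' ∩ R₀ = p₀; q' ∩ C is a prime over m₀ contained in q ∩ C = m, so
= m (incomparability, Ideal.eq_of_comap_eq_comap-type lemma for integral extensions: Ideal.comap_lt_comap_of_integral_mem_sdiff / isMaximal_comap...: m₀ is maximal, q' ∩ C over m₀ is maximal); so
q' ⊇ mB and q' = q. Hence q ∩ R₀ = m₀R₀, and mR ⊆ q ∩ R both lie over m₀R₀: equal by incomparability for R₀ → R. (ii) let S := the image of R[X] in B (X ↦ θ). The kernel of R[X] → B → B/q contains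
mR[X] and F; R[X]/(m, F) = (C/m)[t][X]/(F_m) is a domain (F_m irreducible in a UFD, so prime); the contraction p_q := {s : s(θ) ∈ q} of q to R[X] contains P := (m, F) and both meet R in mR (P ∩ R = mR by
degree: F_m monic). Incomparability for R → R[X]/(F) (integral): p_q = P. (iii) two minimal primes q₁, q₂ have the same p_q; x ∈ q₁ : g b * x = s(θ), s ∈ p_(q₁) = p_(q₂), so g b * x ∈ q₂ and g b ∉ q₂ by
hbm and (i), x ∈ q₂. So there is exactly one minimal prime over mB (there is one: lying over), i.e. zeroLocus (mB) is irreducible (PrimeSpectrum.isIrreducible_zeroLocus_iff: radical prime;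
Ideal.sInf_minimalPrimes: the radical is the intersection of the minimal primes). -/

namespace LibHM79S

open Polynomial

private theorem D1_map_integral {A B : Type} [CommRing A] [CommRing B] (f : A →+* B)
    (hf : f.IsIntegral) (n : ℕ) :
    (MvPolynomial.map f : MvPolynomial (Fin n) A →+* MvPolynomial (Fin n) B).IsIntegral := by
  intro x
  induction x using MvPolynomial.induction_on with
  | C a =>
    obtain ⟨P, hP, hPa⟩ := hf a
    refine ⟨P.map MvPolynomial.C, hP.map _, ?_⟩
    rw [Polynomial.eval₂_map]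
    have h1 : (MvPolynomial.map f).comp MvPolynomial.C =
        (MvPolynomial.C : B →+* MvPolynomial (Fin n) B).comp f := by
      ext x
      simp
    rw [h1, ← Polynomial.hom_eval₂, hPa, map_zero]
  | add p q hp hq => exact RingHom.IsIntegralElem.add _ hp hq
  | mul_X p i hp =>
    refine RingHom.IsIntegralElem.mul _ hp ?_
    have h2 := RingHom.isIntegralElem_map (MvPolynomial.map f : MvPolynomial (Fin n) A →+*
      MvPolynomial (Fin n) B) (x := MvPolynomial.X i)
    rwa [MvPolynomial.map_X] at h2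

private theorem D1_comap_eq (k C B : Type) [Field k] [CommRing C] [IsDomain C] [Algebra k C]
    [Algebra.FiniteType k C] [CommRing B] [IsDomain B] (n : ℕ)
    (g : MvPolynomial (Fin n) C →+* B) (hg : Function.Injective g) (hf : g.Finite)
    (m : Ideal C) [m.IsMaximal] (q : Ideal B)
    (hq : q ∈ (m.map (g.comp MvPolynomial.C) : Ideal B).minimalPrimes) :
    q.comap g = RingHom.ker (MvPolynomial.map (σ := Fin n) (Ideal.Quotient.mk m)) := by
  have hqp : q.IsPrime := hq.1.1
  have hqm : m.map (g.comp MvPolynomial.C) ≤ q := hq.1.2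
  obtain ⟨d, ι₀, hι₀, hι₀I⟩ := exists_integral_inj_algHom_of_fg k C
  let ι : MvPolynomial (Fin n) (MvPolynomial (Fin d) k) →+* MvPolynomial (Fin n) C :=
    MvPolynomial.map ι₀.toRingHom
  have hιi : Function.Injective ι := MvPolynomial.map_injective _ hι₀
  have hιI : ι.IsIntegral := D1_map_integral _ hι₀I n
  have hgI : g.IsIntegral := hf.to_isIntegral
  let : Algebra (MvPolynomial (Fin n) (MvPolynomial (Fin d) k)) B := (g.comp ι).toAlgebra
  have : FaithfulSMul (MvPolynomial (Fin n) (MvPolynomial (Fin d) k)) B :=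
    (faithfulSMul_iff_algebraMap_injective _ _).2 (hg.comp hιi)
  have : Algebra.IsIntegral (MvPolynomial (Fin n) (MvPolynomial (Fin d) k)) B :=
    ⟨RingHom.IsIntegral.trans ι g hιI hgI⟩
  have : IsIntegrallyClosed (MvPolynomial (Fin n) (MvPolynomial (Fin d) k)) := inferInstance
  -- the prime m₀
  let m₀ : Ideal (MvPolynomial (Fin d) k) := m.comap ι₀.toRingHom
  have hm₀ : m₀.IsMaximal := Ideal.isMaximal_comap_of_isIntegral_of_isMaximal' ι₀.toRingHom hι₀I m
  let p₀ : Ideal (MvPolynomial (Fin n) (MvPolynomial (Fin d) k)) :=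
    RingHom.ker (MvPolynomial.map (σ := Fin n) (Ideal.Quotient.mk m₀))
  have hp₀ : p₀.IsPrime := by
    have : IsDomain (MvPolynomial (Fin d) k ⧸ m₀) := Ideal.Quotient.isDomain m₀
    exact RingHom.ker_isPrime _
  have hmem : ∀ (A : Type) [CommRing A] (I : Ideal A) (x : MvPolynomial (Fin n) A),
      x ∈ RingHom.ker (MvPolynomial.map (σ := Fin n) (Ideal.Quotient.mk I)) ↔
        ∀ μ, x.coeff μ ∈ I := by
    intro A _ I x
    rw [RingHom.mem_ker, MvPolynomial.ext_iff]
    simp only [MvPolynomial.coeff_map, MvPolynomial.coeff_zero, Ideal.Quotient.eq_zero_iff_mem]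
  have hcomb : ∀ (A : Type) [CommRing A] (φ : MvPolynomial (Fin n) A →+* B) (I : Ideal A)
      (Q : Ideal B), I ≤ Q.comap (φ.comp MvPolynomial.C) →
      RingHom.ker (MvPolynomial.map (σ := Fin n) (Ideal.Quotient.mk I)) ≤ Q.comap φ := by
    intro A _ φ I Q hI x hx
    rw [hmem] at hx
    rw [Ideal.mem_comap, x.as_sum, map_sum]
    refine Ideal.sum_mem _ fun μ _ => ?_
    rw [MvPolynomial.monomial_eq, map_mul]
    exact Ideal.mul_mem_right _ _ (hI (hx μ))
  have hCm : q.comap (g.comp MvPolynomial.C) = m := by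
    refine (Ideal.IsMaximal.eq_of_le ‹m.IsMaximal› (Ideal.IsPrime.ne_top inferInstance) ?_).symm
    exact Ideal.map_le_iff_le_comap.1 hqm
  have hle₀ : p₀ ≤ q.comap (g.comp ι) := by
    refine hcomb _ (g.comp ι) m₀ q ?_
    intro x hx
    have h1 : ι₀.toRingHom x ∈ q.comap (g.comp MvPolynomial.C) := by rw [hCm]; exact hx
    rw [Ideal.mem_comap] at h1 ⊢
    simpa [ι] using h1
  have : q.LiesOver (q.comap (g.comp ι)) := ⟨rfl⟩
  have : (q.comap (g.comp ι)).IsPrime := inferInstance
  obtain ⟨q', hq'q, hq'p, hq'l⟩ := Ideal.exists_ideal_le_liesOver_of_le (p := p₀)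
    (q := q.comap (g.comp ι)) q hle₀
  have hq'0 : q'.comap (g.comp ι) = p₀ := hq'l.over.symm
  have hCm' : m ≤ q'.comap (g.comp MvPolynomial.C) := by
    have h1 : (q'.comap (g.comp MvPolynomial.C)).comap ι₀.toRingHom = m₀ := by
      ext x
      have h2 : x ∈ m₀ ↔ MvPolynomial.C x ∈ p₀ := by
        rw [hmem]
        constructor
        · intro hx μ
          rw [MvPolynomial.coeff_C]
          split_ifs
          · exact hx
          · exact m₀.zero_mem
        · intro hx
          have := hx 0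
          rwa [MvPolynomial.coeff_C, if_pos rfl] at this
      rw [h2, ← hq'0, Ideal.mem_comap, Ideal.mem_comap, Ideal.mem_comap]
      simp [ι]
    have : ((q'.comap (g.comp MvPolynomial.C)).comap ι₀.toRingHom).IsMaximal := by
      rw [h1]; exact hm₀
    have h3 : (q'.comap (g.comp MvPolynomial.C)).IsMaximal :=
      Ideal.isMaximal_of_isIntegral_of_isMaximal_comap' ι₀.toRingHom hι₀I _ this
    have h4 : q'.comap (g.comp MvPolynomial.C) ≤ m := by
      rw [← hCm]; exact Ideal.comap_mono hq'q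
    exact (h3.eq_of_le ‹m.IsMaximal›.ne_top h4).ge
  have hqq' : q ≤ q' := hq.2 ⟨hq'p, Ideal.map_le_iff_le_comap.2 hCm'⟩ hq'q
  have hq0 : q.comap (g.comp ι) = p₀ := by
    rw [← hq'0, le_antisymm hqq' hq'q]
  have hle : RingHom.ker (MvPolynomial.map (σ := Fin n) (Ideal.Quotient.mk m)) ≤ q.comap g :=
    hcomb _ g m q hCm.ge
  refine le_antisymm ?_ hle
  have : IsDomain (C ⧸ m) := Ideal.Quotient.isDomain m
  have hkp : (RingHom.ker (MvPolynomial.map (σ := Fin n) (Ideal.Quotient.mk m))).IsPrime :=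
    RingHom.ker_isPrime _
  by_contra hnot
  obtain ⟨x, hx, hx'⟩ := Set.not_subset.1 hnot
  let : Algebra (MvPolynomial (Fin n) (MvPolynomial (Fin d) k)) (MvPolynomial (Fin n) C) :=
    ι.toAlgebra
  have h5 := Ideal.comap_lt_comap_of_integral_mem_sdiff
    (R := MvPolynomial (Fin n) (MvPolynomial (Fin d) k)) hle ⟨hx, hx'⟩ (hιI x)
  have h6 : (q.comap g).comap (algebraMap (MvPolynomial (Fin n) (MvPolynomial (Fin d) k))
      (MvPolynomial (Fin n) C)) ≤ (RingHom.ker (MvPolynomial.map (σ := Fin n)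
      (Ideal.Quotient.mk m))).comap (algebraMap _ _) := by
    intro y hy
    have h7 : y ∈ p₀ := by rw [← hq0]; exact hy
    rw [hmem] at h7
    rw [Ideal.mem_comap, hmem]
    intro μ
    have h8 : (algebraMap (MvPolynomial (Fin n) (MvPolynomial (Fin d) k))
      (MvPolynomial (Fin n) C) y).coeff μ = ι₀.toRingHom (y.coeff μ) := MvPolynomial.coeff_map _ _ _
    rw [h8]
    exact h7 μ
  exact absurd h5 (not_lt_of_ge h6)

private theorem D1_J (C B : Type) [CommRing C] [CommRing B] (n : ℕ)
    (g : MvPolynomial (Fin n) C →+* B) (θ : B)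
    (F : (MvPolynomial (Fin n) C)[X]) (hF : F.Monic) (hθ : F.eval₂ g θ = 0)
    (m : Ideal C) [m.IsMaximal]
    (hirr : Irreducible (F.map (MvPolynomial.map (Ideal.Quotient.mk m)))) (q : Ideal B) [q.IsPrime]
    (hcq : q.comap g = RingHom.ker (MvPolynomial.map (σ := Fin n) (Ideal.Quotient.mk m)))
    (s : (MvPolynomial (Fin n) C)[X]) :
    s.eval₂ g θ ∈ q ↔ F.map (MvPolynomial.map (Ideal.Quotient.mk m)) ∣
      s.map (MvPolynomial.map (Ideal.Quotient.mk m)) := by
  let : Field (C ⧸ m) := Ideal.Quotient.field m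
  let φ : MvPolynomial (Fin n) C →+* MvPolynomial (Fin n) (C ⧸ m) :=
    MvPolynomial.map (Ideal.Quotient.mk m)
  have hφs : Function.Surjective φ := MvPolynomial.map_surjective _ Ideal.Quotient.mk_surjective
  have hprime : Prime (F.map φ) := hirr.prime
  have hdom : IsDomain (AdjoinRoot (F.map φ)) := AdjoinRoot.isDomain_of_prime hprime
  have hroot : F.eval₂ ((AdjoinRoot.of (F.map φ)).comp φ) (AdjoinRoot.root (F.map φ)) = 0 := by
    rw [← Polynomial.eval₂_map]
    exact AdjoinRoot.eval₂_root _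
  let red : AdjoinRoot F →+* AdjoinRoot (F.map φ) :=
    AdjoinRoot.lift ((AdjoinRoot.of (F.map φ)).comp φ) (AdjoinRoot.root (F.map φ)) hroot
  let evB : AdjoinRoot F →+* B := AdjoinRoot.lift g θ hθ
  have hred : ∀ t : (MvPolynomial (Fin n) C)[X], red (AdjoinRoot.mk F t) =
      AdjoinRoot.mk (F.map φ) (t.map φ) := by
    intro t
    rw [AdjoinRoot.lift_mk, ← Polynomial.eval₂_map, ← AdjoinRoot.aeval_eq]
    rfl
  have hev : ∀ t : (MvPolynomial (Fin n) C)[X], evB (AdjoinRoot.mk F t) = t.eval₂ g θ :=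
    fun t => AdjoinRoot.lift_mk hθ t
  have hle : RingHom.ker red ≤ q.comap evB := by
    intro x hx
    obtain ⟨t, rfl⟩ := AdjoinRoot.mk_surjective x
    rw [RingHom.mem_ker, hred, AdjoinRoot.mk_eq_zero] at hx
    obtain ⟨u', hu'⟩ := hx
    obtain ⟨u, rfl⟩ := Polynomial.map_surjective φ hφs u'
    rw [Ideal.mem_comap, hev]
    have h1 : (t - F * u).eval₂ g θ ∈ q := by
      rw [Polynomial.eval₂_eq_sum_range]
      refine Ideal.sum_mem _ fun j _ => Ideal.mul_mem_right _ _ ?_
      have h2 : (t - F * u).coeff j ∈ q.comap g := by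
        rw [hcq, RingHom.mem_ker]
        have h3 : ((t - F * u).map φ).coeff j = 0 := by
          rw [Polynomial.map_sub, Polynomial.map_mul, hu', sub_self, Polynomial.coeff_zero]
        rwa [Polynomial.coeff_map] at h3
      exact h2
    rw [Polynomial.eval₂_sub, Polynomial.eval₂_mul, hθ, zero_mul, sub_zero] at h1
    exact h1
  have hkp : (RingHom.ker red).IsPrime := RingHom.ker_isPrime red
  have hge : q.comap evB ≤ RingHom.ker red := by
    by_contra hnot
    obtain ⟨x, hx, hx'⟩ := Set.not_subset.1 hnot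
    have hfin : Module.Finite (MvPolynomial (Fin n) C) (AdjoinRoot F) :=
      (AdjoinRoot.powerBasis' hF).finite
    have hint : Algebra.IsIntegral (MvPolynomial (Fin n) C) (AdjoinRoot F) :=
      Algebra.IsIntegral.of_finite _ _
    have h5 := Ideal.comap_lt_comap_of_integral_mem_sdiff
      (R := MvPolynomial (Fin n) C) hle ⟨hx, hx'⟩ (hint.isIntegral x)
    refine absurd h5 (not_lt_of_ge ?_)
    intro y hy
    rw [Ideal.mem_comap, Ideal.mem_comap] at hy
    have h6 : evB (algebraMap (MvPolynomial (Fin n) C) (AdjoinRoot F) y) = g y :=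
      AdjoinRoot.lift_of hθ
    rw [h6, ← Ideal.mem_comap, hcq, RingHom.mem_ker] at hy
    rw [Ideal.mem_comap, RingHom.mem_ker]
    have h7 : red (algebraMap (MvPolynomial (Fin n) C) (AdjoinRoot F) y) =
        ((AdjoinRoot.of (F.map φ)).comp φ) y := AdjoinRoot.lift_of hroot
    rw [h7, RingHom.comp_apply]
    have h8 : φ y = 0 := hy
    rw [h8, map_zero]
  have hiff : AdjoinRoot.mk F s ∈ q.comap evB ↔ AdjoinRoot.mk F s ∈ RingHom.ker red :=
    ⟨fun h => hge h, fun h => hle h⟩
  rw [Ideal.mem_comap, hev, RingHom.mem_ker, hred, AdjoinRoot.mk_eq_zero] at hiff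
  exact hiff

theorem unique_min (k C B : Type) [Field k] [CommRing C] [IsDomain C] [Algebra k C]
    [Algebra.FiniteType k C] [CommRing B] [IsDomain B] (n : ℕ)
    (g : MvPolynomial (Fin n) C →+* B) (hg : Function.Injective g) (hf : g.Finite) (θ : B)
    (F : (MvPolynomial (Fin n) C)[X]) (b : MvPolynomial (Fin n) C) (hF : F.Monic)
    (hθ : F.eval₂ g θ = 0)
    (hb : ∀ x : B, ∃ s : (MvPolynomial (Fin n) C)[X], g b * x = s.eval₂ g θ) (m : Ideal C)
    [m.IsMaximal] (hbm : MvPolynomial.map (Ideal.Quotient.mk m) b ≠ 0)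
    (hirr : Irreducible (F.map (MvPolynomial.map (Ideal.Quotient.mk m)))) :
    IsIrreducible (PrimeSpectrum.zeroLocus ((m.map (g.comp MvPolynomial.C) : Ideal B) : Set B)) := by
  have hdomm : IsDomain (C ⧸ m) := Ideal.Quotient.isDomain m
  have hkp : (RingHom.ker (MvPolynomial.map (σ := Fin n) (Ideal.Quotient.mk m))).IsPrime :=
    RingHom.ker_isPrime _
  have hle : ∀ q₁ ∈ (m.map (g.comp MvPolynomial.C) : Ideal B).minimalPrimes,
      ∀ q₂ ∈ (m.map (g.comp MvPolynomial.C) : Ideal B).minimalPrimes, q₁ ≤ q₂ := by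
    intro q₁ h₁ q₂ h₂ x hx
    have hp₁ : q₁.IsPrime := h₁.1.1
    have hp₂ : q₂.IsPrime := h₂.1.1
    have hc₁ := D1_comap_eq k C B n g hg hf m q₁ h₁
    have hc₂ := D1_comap_eq k C B n g hg hf m q₂ h₂
    obtain ⟨s, hs⟩ := hb x
    have h3 : s.eval₂ g θ ∈ q₁ := by rw [← hs]; exact q₁.mul_mem_left _ hx
    rw [D1_J C B n g θ F hF hθ m hirr q₁ hc₁, ← D1_J C B n g θ F hF hθ m hirr q₂ hc₂, ← hs] at h3
    refine (hp₂.mem_or_mem h3).resolve_left fun h4 => hbm ?_
    have h5 : b ∈ q₂.comap g := h4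
    rwa [hc₂, RingHom.mem_ker] at h5
  have hne : (m.map (g.comp MvPolynomial.C) : Ideal B) ≠ ⊤ := by
    intro htop
    let : Algebra (MvPolynomial (Fin n) C) B := g.toAlgebra
    have hint : Algebra.IsIntegral (MvPolynomial (Fin n) C) B := ⟨hf.to_isIntegral⟩
    obtain ⟨Q, -, hQ, hQc⟩ := Ideal.exists_ideal_over_prime_of_isIntegral
      (RingHom.ker (MvPolynomial.map (σ := Fin n) (Ideal.Quotient.mk m))) (⊥ : Ideal B) (by
        intro y hy
        have h1 : g y = 0 := hy
        rw [hg (h1.trans (map_zero g).symm)]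
        exact Submodule.zero_mem _)
    have h2 : (m.map (g.comp MvPolynomial.C) : Ideal B) ≤ Q := by
      rw [Ideal.map_le_iff_le_comap]
      intro c hc
      have h3 : MvPolynomial.C c ∈ Q.comap (algebraMap (MvPolynomial (Fin n) C) B) := by
        rw [hQc, RingHom.mem_ker, MvPolynomial.map_C, Ideal.Quotient.eq_zero_iff_mem.2 hc, map_zero]
      exact h3
    exact hQ.ne_top (top_le_iff.1 (htop ▸ h2))
  rw [PrimeSpectrum.isIrreducible_zeroLocus_iff]
  obtain ⟨q, hq⟩ := Ideal.nonempty_minimalPrimes hne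
  have hrad : (m.map (g.comp MvPolynomial.C) : Ideal B).radical = q := by
    rw [← Ideal.sInf_minimalPrimes]
    refine le_antisymm (sInf_le hq) (le_sInf fun q' hq' => hle q hq q' hq')
  rw [hrad]
  exact hq.1.1

end LibHM79S
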