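import Pool.Agent.LibHM79S.A2
import Pool.Agent.LibHM79S.B3
import Pool.Agent.LibHM79S.C3
import Pool.Agent.LibHM79S.D1

/-! D2 (MEDIUM, algebra). Irreducible fibres over a dense open set. fib_fin: assembly of prim, bertini_noether, unique_min (c := c₁ times a nonzero coefficient of b). fib_alg: the general case. Plan: c₁, n from
noether_loc; C' := Localization.Away c₁, B' := Localization.Away (algebraMap C B c₁) (algebra C' → B' by IsLocalization.Away.map / localizationAlgebra); B' is a domain with fraction field L := Frac B; hac passes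
to C' (an element algebraic over C' is algebraic over C; b ∈ C). fib_fin gives c' ∈ C', c' = c₂ / c₁^j, c := c₁ c₂. For m maximal without c: m' := m C' is maximal, without c'. Every prime of B containing
mB does not contain c₁ (c₁ is a unit modulo m), so zeroLocus (mB) is the image of zeroLocus (m'B') under the continuous map Spec B' → Spec B (range = basicOpen c₁): IsIrreducible.image. -/

namespace LibHM79S

open Polynomial

theorem fib_fin (k C B L : Type) [Field k] [CharZero k] [CommRing C] [IsDomain C] [Algebra k C]
    [Algebra.FiniteType k C] [CommRing B] [IsDomain B]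
    [Field L] [Algebra B L] [IsFractionRing B L] (n : ℕ) (g : MvPolynomial (Fin n) C →+* B)
    (hg : Function.Injective g) (hf : g.Finite)
    (hac : AC ((algebraMap B L).comp (g.comp MvPolynomial.C))) :
    ∃ c : C, c ≠ 0 ∧ ∀ m : Ideal C, m.IsMaximal → c ∉ m →
      IsIrreducible (PrimeSpectrum.zeroLocus ((m.map (g.comp MvPolynomial.C) : Ideal B) : Set B)) := by
  have hch : CharZero C := charZero_of_injective_algebraMap (algebraMap k C).injective
  obtain ⟨θ, F, b, hF, hb0, hθ, hb, hirr⟩ := prim C B L n g hg hf hac
  obtain ⟨c₁, hc₁, hbn⟩ := bertini_noether C n F hF hirr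
  obtain ⟨e, he⟩ := MvPolynomial.ne_zero_iff.1 hb0
  refine ⟨c₁ * b.coeff e, mul_ne_zero hc₁ he, fun m hm hcm => ?_⟩
  have h1 : c₁ ∉ m := fun h => hcm (m.mul_mem_right _ h)
  have h2 : b.coeff e ∉ m := fun h => hcm (m.mul_mem_left _ h)
  letI : Field (C ⧸ m) := Ideal.Quotient.field m
  have h3 : (Ideal.Quotient.mk m) c₁ ≠ 0 := fun h => h1 (Ideal.Quotient.eq_zero_iff_mem.1 h)
  have h4 := hbn (C ⧸ m) (Ideal.Quotient.mk m) h3
  refine unique_min k C B n g hg hf θ F b hF hθ hb m ?_ h4
  intro h0
  apply h2
  rw [← Ideal.Quotient.eq_zero_iff_mem, ← MvPolynomial.coeff_map, h0, MvPolynomial.coeff_zero]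

theorem fib_alg (k C B : Type) [Field k] [CharZero k] [CommRing C] [IsDomain C] [Algebra k C]
    [Algebra.FiniteType k C] [CommRing B] [IsDomain B] (φ : C →+* B)
    (hφ : Function.Injective φ) (hft : φ.FiniteType)
    (hac : AC ((algebraMap B (FractionRing B)).comp φ)) :
    ∃ c : C, c ≠ 0 ∧ ∀ m : Ideal C, m.IsMaximal → c ∉ m →
      IsIrreducible (PrimeSpectrum.zeroLocus ((m.map φ : Ideal B) : Set B)) := by
  letI : Algebra C B := φ.toAlgebra
  have hφa : algebraMap C B = φ := rfl
  haveI : FaithfulSMul C B := (faithfulSMul_iff_algebraMap_injective C B).2 hφ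
  haveI : Algebra.FiniteType C B := hft
  obtain ⟨c₁, n, hc₁, hloc⟩ := noether_loc C B
  have hc₁' : φ c₁ ≠ 0 := fun h => hc₁ (hφ (by rw [h, map_zero]))
  have hM : Submonoid.powers c₁ ≤ nonZeroDivisors C := powers_le_nonZeroDivisors_of_noZeroDivisors hc₁
  have hN : Submonoid.powers (algebraMap C B c₁) ≤ nonZeroDivisors B :=
    powers_le_nonZeroDivisors_of_noZeroDivisors hc₁'
  haveI : IsDomain (Localization.Away c₁) := IsLocalization.isDomain_localization hM
  haveI : IsDomain (Localization.Away (algebraMap C B c₁)) := IsLocalization.isDomain_localization hN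
  haveI : Algebra.FiniteType k (Localization.Away c₁) := by
    haveI : Algebra.FinitePresentation C (Localization.Away c₁) :=
      IsLocalization.Away.finitePresentation c₁
    exact Algebra.FiniteType.trans (inferInstance : Algebra.FiniteType k C)
      (inferInstance : Algebra.FiniteType C (Localization.Away c₁))
  let ψ : Localization.Away c₁ →+* Localization.Away (algebraMap C B c₁) :=
    IsLocalization.Away.map (Localization.Away c₁) (Localization.Away (algebraMap C B c₁))
      (algebraMap C B) c₁
  have hψ : ∀ c : C, ψ (algebraMap C (Localization.Away c₁) c) =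
      algebraMap B (Localization.Away (algebraMap C B c₁)) (algebraMap C B c) := fun c =>
    IsLocalization.map_eq _ c
  letI : Algebra (Localization.Away c₁) (Localization.Away (algebraMap C B c₁)) := ψ.toAlgebra
  haveI : IsScalarTower C (Localization.Away c₁) (Localization.Away (algebraMap C B c₁)) := by
    refine IsScalarTower.of_algebraMap_eq fun c => ?_
    rw [IsScalarTower.algebraMap_apply C B (Localization.Away (algebraMap C B c₁))]
    exact (hψ c).symm
  obtain ⟨g, hg, hgf⟩ := hloc (Localization.Away c₁) (Localization.Away (algebraMap C B c₁))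
  letI : Algebra (Localization.Away (algebraMap C B c₁)) (FractionRing B) :=
    IsLocalization.localizationAlgebraOfSubmonoidLe _ _ (Submonoid.powers (algebraMap C B c₁))
      (nonZeroDivisors B) hN
  haveI : IsScalarTower B (Localization.Away (algebraMap C B c₁)) (FractionRing B) :=
    IsLocalization.localization_isScalarTower_of_submonoid_le _ _ _ _ hN
  haveI : IsFractionRing (Localization.Away (algebraMap C B c₁)) (FractionRing B) :=
    IsFractionRing.isFractionRing_of_isDomain_of_isLocalization (Submonoid.powers (algebraMap C B c₁)) _ _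
  have hgC : ∀ c : Localization.Away c₁, (g.toRingHom.comp MvPolynomial.C) c = ψ c := by
    intro c
    show g (MvPolynomial.C c) = _
    have h1 := g.commutes c
    exact h1
  have hgC' : g.toRingHom.comp MvPolynomial.C = ψ := RingHom.ext hgC
  have hcomp : ((algebraMap (Localization.Away (algebraMap C B c₁)) (FractionRing B)).comp
      (g.toRingHom.comp MvPolynomial.C)).comp (algebraMap C (Localization.Away c₁)) =
      (algebraMap B (FractionRing B)).comp φ := by
    refine RingHom.ext fun c => ?_
    rw [hgC']
    show algebraMap (Localization.Away (algebraMap C B c₁)) (FractionRing B)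
      (ψ (algebraMap C (Localization.Away c₁) c)) = _
    rw [hψ, ← IsScalarTower.algebraMap_apply]
    rfl
  have hinjC : Function.Injective (algebraMap C (Localization.Away c₁)) :=
    IsLocalization.injective _ hM
  have hac' : AC ((algebraMap (Localization.Away (algebraMap C B c₁)) (FractionRing B)).comp
      (g.toRingHom.comp MvPolynomial.C)) := by
    intro x p hp hx
    have h1 := IsLocalization.integerNormalization_eval₂_eq_zero (Submonoid.powers c₁) _ p hx
    rw [hcomp] at h1
    have h2 : IsLocalization.integerNormalization (Submonoid.powers c₁) p ≠ 0 := by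
      intro h0
      obtain ⟨b, hb, hb'⟩ := IsLocalization.integerNormalization_spec (Submonoid.powers c₁) p
      rw [h0, Polynomial.map_zero] at hb'
      apply hp
      have h3 : (algebraMap C (Localization.Away c₁) b) • p = 0 := by
        rw [algebraMap_smul]
        exact hb'.symm
      have h4 : algebraMap C (Localization.Away c₁) b ≠ 0 := by
        intro h5
        have h6 : b = 0 := hinjC (by rw [h5, map_zero])
        exact nonZeroDivisors.ne_zero (hM hb) h6
      exact (smul_eq_zero.1 h3).resolve_left h4
    obtain ⟨a, b, hb, hab⟩ := hac x _ h2 h1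
    refine ⟨algebraMap C _ a, algebraMap C _ b, fun h => hb (hinjC (by rw [h, map_zero])), ?_⟩
    have h5 : ∀ c : C, ((algebraMap (Localization.Away (algebraMap C B c₁)) (FractionRing B)).comp
      (g.toRingHom.comp MvPolynomial.C)) (algebraMap C (Localization.Away c₁) c) =
      ((algebraMap B (FractionRing B)).comp φ) c := fun c => by rw [← hcomp]; rfl
    rw [h5, h5]
    exact hab
  obtain ⟨c', hc', hirr⟩ := fib_fin k (Localization.Away c₁) (Localization.Away (algebraMap C B c₁))
    (FractionRing B) n g.toRingHom hg hgf hac'
  obtain ⟨⟨c₂, s⟩, hs⟩ := IsLocalization.surj (Submonoid.powers c₁) c'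
  have hs0 : algebraMap C (Localization.Away c₁) s ≠ 0 := by
    intro h5
    have h6 : (s : C) = 0 := hinjC (by rw [h5, map_zero])
    exact nonZeroDivisors.ne_zero (hM s.2) h6
  have hc₂ : c₂ ≠ 0 := by
    intro h
    have h1 : c' * algebraMap C (Localization.Away c₁) s = 0 := by
      have h2 : c' * algebraMap C (Localization.Away c₁) s = algebraMap C _ c₂ := hs
      rw [h2, h, map_zero]
    exact (mul_ne_zero hc' hs0) h1
  refine ⟨c₁ * c₂, mul_ne_zero hc₁ hc₂, fun m hm hcm => ?_⟩
  have h1 : c₁ ∉ m := fun h => hcm (m.mul_mem_right _ h)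
  have h2 : c₂ ∉ m := fun h => hcm (m.mul_mem_left _ h)
  have hmp : m.IsPrime := hm.isPrime
  have hdis : Disjoint (Submonoid.powers c₁ : Set C) (m : Set C) := by
    rw [Set.disjoint_left]
    rintro x ⟨j, rfl⟩ hx
    exact h1 (hmp.mem_of_pow_mem j hx)
  have hcm' : Ideal.under C (m.map (algebraMap C (Localization.Away c₁))) = m :=
    IsLocalization.under_map_of_isPrime_disjoint (Submonoid.powers c₁) _ hmp hdis
  have hpr : (m.map (algebraMap C (Localization.Away c₁))).IsPrime :=
    IsLocalization.isPrime_of_isPrime_disjoint (Submonoid.powers c₁) _ m hmp hdis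
  have hmax : (m.map (algebraMap C (Localization.Away c₁))).IsMaximal := by
    obtain ⟨J, hJ, hle⟩ := Ideal.exists_le_maximal _ hpr.ne_top
    have h3 : m ≤ Ideal.under C J := by
      rw [← hcm']
      exact Ideal.comap_mono hle
    have h4 : Ideal.under C J ≠ ⊤ := by
      intro h5
      apply hJ.ne_top
      rw [← IsLocalization.map_under (Submonoid.powers c₁) (Localization.Away c₁) J, h5, Ideal.map_top]
    have h5 : m = Ideal.under C J := hm.eq_of_le h4 h3
    have h6 : m.map (algebraMap C (Localization.Away c₁)) = J := by
      conv_lhs => rw [h5]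
      exact IsLocalization.map_under (Submonoid.powers c₁) (Localization.Away c₁) J
    rw [h6]
    exact hJ
  have hc'm : c' ∉ m.map (algebraMap C (Localization.Away c₁)) := by
    intro h3
    apply h2
    have h4 : algebraMap C (Localization.Away c₁) c₂ ∈ m.map (algebraMap C (Localization.Away c₁)) := by
      have h5 : c' * algebraMap C (Localization.Away c₁) s = algebraMap C _ c₂ := hs
      rw [← h5]
      exact Ideal.mul_mem_right _ _ h3
    have h5 : c₂ ∈ Ideal.under C (m.map (algebraMap C (Localization.Away c₁))) := h4
    rw [hcm'] at h5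
    exact h5
  have hI := hirr _ hmax hc'm
  have hmm : (m.map (algebraMap C (Localization.Away c₁))).map (g.toRingHom.comp MvPolynomial.C) =
      (m.map φ).map (algebraMap B (Localization.Away (algebraMap C B c₁))) := by
    rw [hgC', Ideal.map_map, Ideal.map_map]
    congr 1
    exact RingHom.ext hψ
  rw [hmm] at hI
  have himg : PrimeSpectrum.zeroLocus ((m.map φ : Ideal B) : Set B) =
      PrimeSpectrum.comap (algebraMap B (Localization.Away (algebraMap C B c₁))) ''
      PrimeSpectrum.zeroLocus (((m.map φ).map
        (algebraMap B (Localization.Away (algebraMap C B c₁))) :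
        Ideal (Localization.Away (algebraMap C B c₁))) : Set (Localization.Away (algebraMap C B c₁))) := by
    apply Set.Subset.antisymm
    · intro P hP
      rw [PrimeSpectrum.mem_zeroLocus, SetLike.coe_subset_coe] at hP
      have hPc : φ c₁ ∉ P.asIdeal := by
        intro h3
        obtain ⟨y, hy⟩ := Ideal.Quotient.exists_inv (I := m)
          (a := Ideal.Quotient.mk m c₁) (fun h4 => h1 (Ideal.Quotient.eq_zero_iff_mem.1 h4))
        obtain ⟨y, rfl⟩ := Ideal.Quotient.mk_surjective y
        have h4 : c₁ * y - 1 ∈ m := by
          rw [← Ideal.Quotient.eq_zero_iff_mem, map_sub, map_mul, hy, map_one, sub_self]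
        have h5 : φ (c₁ * y - 1) ∈ P.asIdeal := hP (Ideal.mem_map_of_mem φ h4)
        rw [map_sub, map_mul, map_one] at h5
        have h6 : φ c₁ * φ y ∈ P.asIdeal := Ideal.mul_mem_right _ _ h3
        have h7 := P.asIdeal.sub_mem h6 h5
        rw [sub_sub_cancel] at h7
        exact P.isPrime.ne_top ((Ideal.eq_top_iff_one _).2 h7)
      have hdisP : Disjoint (Submonoid.powers (algebraMap C B c₁) : Set B) (P.asIdeal : Set B) := by
        rw [Set.disjoint_left]
        rintro x ⟨j, rfl⟩ hx
        exact hPc (P.isPrime.mem_of_pow_mem j hx)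
      refine ⟨⟨P.asIdeal.map (algebraMap B _),
        IsLocalization.isPrime_of_isPrime_disjoint (Submonoid.powers (algebraMap C B c₁)) _ _ P.isPrime hdisP⟩,
        ?_, ?_⟩
      · rw [PrimeSpectrum.mem_zeroLocus, SetLike.coe_subset_coe]
        exact Ideal.map_mono hP
      · apply PrimeSpectrum.ext
        exact IsLocalization.under_map_of_isPrime_disjoint (Submonoid.powers (algebraMap C B c₁)) _
          P.isPrime hdisP
    · rintro _ ⟨P, hP, rfl⟩
      rw [PrimeSpectrum.mem_zeroLocus, SetLike.coe_subset_coe] at hP ⊢
      exact Ideal.map_le_iff_le_comap.1 hP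
  rw [himg]
  exact hI.image _ (PrimeSpectrum.continuous_comap _).continuousOn

end LibHM79S
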