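import Mathlib

/-! HM79S: Stein factorisation through the relative normalisation, irreducible general fibres. Definitions. -/

namespace LibHM79S

open AlgebraicGeometry CategoryTheory Polynomial

/-- every element of `L` algebraic over `C` is a quotient of elements of `C` -/
def AC {C L : Type} [CommRing C] [CommRing L] (φ : C →+* L) : Prop :=
  ∀ x : L, ∀ p : C[X], p ≠ 0 → p.eval₂ φ x = 0 → ∃ a b : C, b ≠ 0 ∧ φ b * x = φ a

/-- the function field of `Z` is algebraically closed in the one of `Y`, in terms of small affine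
open subsets `V` of `Z` and affine open subsets `U` of `Y` over `V` -/
def ACS {Y Z : Scheme.{0}} (f : Y ⟶ Z) : Prop :=
  ∀ W : Z.Opens, (W : Set Z).Nonempty → ∃ V : Z.Opens, V ≤ W ∧ IsAffineOpen V ∧
    (V : Set Z).Nonempty ∧ ∀ (U : Y.Opens) (e : U ≤ f ⁻¹ᵁ V), IsAffineOpen U →
    (U : Set Y).Nonempty →
    AC ((algebraMap Γ(Y, U) (FractionRing Γ(Y, U))).comp (f.appLE V U e).hom)

end LibHM79S
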