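import Pool.Agent.LibHM79S.D2
import Pool.Agent.LibHM79.B1

/-! E1 (MEDIUM, schemes). Scheme version of D2. Plan: given V nonempty open, hac gives an affine nonempty V' ≤ V; C := Γ(Z, V'). f⁻¹V' is quasi-compact (Y Noetherian / quasi-compact and separated or
quasi-compact opens in a locally Noetherian compact space) so it is a finite union of nonempty affine opens U_1 … U_s; B_j := Γ(Y, U_j), φ_j := appLE, of finite type, injective (f dominant: the image of U_j is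
dense: a function on V' killed by φ_j vanishes on the dense set f(U_j), V' reduced; or Mathlib's injectivity for dominant morphisms of integral schemes). c_j from fib_alg. For i, j choose an affine nonempty U_ij ≤ U_i ⊓ U_j
(Y irreducible) and c_ij from fib_alg for it. c := ∏ c_j ∏ c_ij ≠ 0; the basic open of c in V' is nonempty and has a closed point z (B1 exists_pt), z ↔ maximal ideal m of C not containing c (z closed in the Jacobson scheme Z; IsAffineOpen.primeIdealOf).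
f⁻¹{z} ∩ U_j = image of zeroLocus (m B_j) under U_j ≅ Spec B_j: irreducible; f⁻¹{z} ∩ U_ij nonempty. A space covered by finitely many open irreducible subsets that pairwise meet is irreducible. -/

namespace LibHM79S

open AlgebraicGeometry CategoryTheory

theorem cover_irred {T : Type} [TopologicalSpace T] {ι : Type} [Finite ι] [Nonempty ι] (F : Set T)
    (U : ι → Set T) (hU : ∀ j, IsOpen (U j)) (hF : F ⊆ ⋃ j, U j)
    (hi : ∀ j, IsIrreducible (F ∩ U j)) (hp : ∀ j l, (F ∩ (U j ∩ U l)).Nonempty) :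
    IsIrreducible F := by
  constructor
  · obtain ⟨j⟩ := ‹Nonempty ι›
    obtain ⟨x, hx, _⟩ := (hi j).1
    exact ⟨x, hx⟩
  · rintro A B hA hB ⟨x, hxF, hxA⟩ ⟨y, hyF, hyB⟩
    obtain ⟨j, hj⟩ := Set.mem_iUnion.1 (hF hxF)
    obtain ⟨l, hl⟩ := Set.mem_iUnion.1 (hF hyF)
    obtain ⟨z, hzF, hzj, hzl⟩ := hp j l
    obtain ⟨t, ⟨htF, _⟩, htA, htl⟩ := (hi j).2 A (U l) hA (hU l) ⟨x, ⟨hxF, hj⟩, hxA⟩
      ⟨z, ⟨hzF, hzj⟩, hzl⟩
    obtain ⟨u, ⟨huF, _⟩, huA, huB⟩ := (hi l).2 A B hA hB ⟨t, ⟨htF, htl⟩, htA⟩ ⟨y, ⟨hyF, hl⟩, hyB⟩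
    exact ⟨u, huF, huA, huB⟩

/-- the fibre over `z` in an affine open subset -/
private theorem E1_fib_eq {Y Z : Scheme.{0}} (f : Y ⟶ Z) (V : Z.Opens) (hV : IsAffineOpen V)
    (U : Y.Opens) (hU : IsAffineOpen U) (e : U ≤ f ⁻¹ᵁ V) (z : Z) (hz : z ∈ V)
    (hzc : IsClosed {z}) :
    f ⁻¹' {z} ∩ (U : Set Y) = hU.fromSpec '' (PrimeSpectrum.zeroLocus
      (((hV.primeIdealOf ⟨z, hz⟩).asIdeal.map (f.appLE V U e).hom : Ideal Γ(Y, U)) :
        Set Γ(Y, U))) := by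
  have hmax := hV.primeIdealOf_isMaximal_of_isClosed ⟨z, hz⟩ hzc
  ext x
  constructor
  · rintro ⟨hxz, hxU⟩
    have hxz' : f x = z := hxz
    refine ⟨hU.primeIdealOf ⟨x, hxU⟩, ?_, hU.fromSpec_primeIdealOf ⟨x, hxU⟩⟩
    have h1 := IsAffineOpen.comap_primeIdealOf_appLE (f := f) V hV U hU e hxU
    show (((hV.primeIdealOf ⟨z, hz⟩).asIdeal.map (f.appLE V U e).hom : Ideal Γ(Y, U)) :
        Set Γ(Y, U)) ⊆ ((hU.primeIdealOf ⟨x, hxU⟩).asIdeal : Set Γ(Y, U))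
    rw [SetLike.coe_subset_coe, Ideal.map_le_iff_le_comap]
    have h2 : hV.primeIdealOf ⟨f x, e hxU⟩ = hV.primeIdealOf ⟨z, hz⟩ := by
      congr 1
      exact Subtype.ext hxz'
    rw [h2] at h1
    have h3 := congrArg PrimeSpectrum.asIdeal h1
    exact h3.ge
  · rintro ⟨q, hq, rfl⟩
    have hxU : hU.fromSpec q ∈ U := by
      have : hU.fromSpec q ∈ Set.range hU.fromSpec := ⟨q, rfl⟩
      rwa [hU.range_fromSpec] at this
    refine ⟨?_, hxU⟩
    have hq' : hU.primeIdealOf ⟨hU.fromSpec q, hxU⟩ = q := by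
      have h4 := hU.fromSpec_primeIdealOf ⟨hU.fromSpec q, hxU⟩
      exact hU.fromSpec.isOpenEmbedding.injective h4
    have h1 := IsAffineOpen.comap_primeIdealOf_appLE (f := f) V hV U hU e hxU
    rw [hq'] at h1
    have hq : (((hV.primeIdealOf ⟨z, hz⟩).asIdeal.map (f.appLE V U e).hom : Ideal Γ(Y, U)) :
        Set Γ(Y, U)) ⊆ (q.asIdeal : Set Γ(Y, U)) := hq
    rw [SetLike.coe_subset_coe, Ideal.map_le_iff_le_comap] at hq
    have h5 : (hV.primeIdealOf ⟨z, hz⟩) = q.comap (f.appLE V U e).hom := by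
      apply PrimeSpectrum.ext
      exact hmax.eq_of_le (q.comap (f.appLE V U e).hom).isPrime.ne_top hq
    rw [h1] at h5
    have h6 := congrArg (fun p => hV.fromSpec p) h5
    simp only [IsAffineOpen.fromSpec_primeIdealOf] at h6
    exact h6.symm

private theorem E1_inj {Y Z : Scheme.{0}} (f : Y ⟶ Z) [IsIntegral Y] [IsIntegral Z] [Surjective f]
    (V : Z.Opens) (U : Y.Opens) (e : U ≤ f ⁻¹ᵁ V) (hne : (U : Set Y).Nonempty) :
    Function.Injective (f.appLE V U e).hom := by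
  rw [injective_iff_map_eq_zero]
  intro a ha
  by_contra h0
  have h1 : Z.basicOpen a ≠ ⊥ := fun h => h0 ((basicOpen_eq_bot_iff a).1 h)
  have h2 : (Z.basicOpen a : Set Z).Nonempty := by
    rw [Set.nonempty_iff_ne_empty]
    intro h
    exact h1 (TopologicalSpace.Opens.ext h)
  obtain ⟨z, hz⟩ := h2
  obtain ⟨y, hy⟩ := f.surjective z
  have h3 : ((f ⁻¹ᵁ Z.basicOpen a : Y.Opens) : Set Y).Nonempty := ⟨y, by
    show f y ∈ Z.basicOpen a
    rw [hy]; exact hz⟩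
  obtain ⟨x, hx1, hx2⟩ := nonempty_preirreducible_inter (f ⁻¹ᵁ Z.basicOpen a).isOpen U.isOpen h3 hne
  have h4 : x ∈ Y.basicOpen (f.appLE V U e a) := by
    rw [Scheme.basicOpen_appLE]
    exact ⟨hx2, hx1⟩
  have h5 : f.appLE V U e a = 0 := ha
  rw [h5, Scheme.basicOpen_zero] at h4
  exact h4

private theorem E1_one (k : Type) [Field k] [CharZero k] {Y Z : Scheme.{0}}
    (s : Z ⟶ Spec (CommRingCat.of k)) (f : Y ⟶ Z) [IsIntegral Y] [IsIntegral Z]
    [LocallyOfFiniteType s] [LocallyOfFiniteType f] [Surjective f]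
    (V : Z.Opens) (hV : IsAffineOpen V) (hVne : (V : Set Z).Nonempty)
    (U : Y.Opens) (hU : IsAffineOpen U) (e : U ≤ f ⁻¹ᵁ V) (hne : (U : Set Y).Nonempty)
    (hac : AC ((algebraMap Γ(Y, U) (FractionRing Γ(Y, U))).comp (f.appLE V U e).hom)) :
    ∃ c : Γ(Z, V), c ≠ 0 ∧ ∀ z : Z, z ∈ Z.basicOpen c → IsClosed {z} →
      IsIrreducible (f ⁻¹' {z} ∩ (U : Set Y)) := by
  haveI : Nonempty V := ⟨⟨hVne.some, hVne.some_mem⟩⟩
  haveI : Nonempty U := ⟨⟨hne.some, hne.some_mem⟩⟩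
  let ψ : k →+* Γ(Z, V) := (s.appLE ⊤ V le_top).hom.comp (Scheme.ΓSpecIso (CommRingCat.of k)).inv.hom
  have hψ : ψ.FiniteType := by
    refine RingHom.FiniteType.comp (s.finiteType_appLE (isAffineOpen_top _) hV le_top)
      (RingHom.FiniteType.of_surjective _ ?_)
    intro x
    refine ⟨(Scheme.ΓSpecIso (CommRingCat.of k)).hom.hom x, ?_⟩
    have := (Scheme.ΓSpecIso (CommRingCat.of k)).hom_inv_id
    exact congrArg (fun g => g.hom x) this
  letI : Algebra k Γ(Z, V) := ψ.toAlgebra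
  haveI : Algebra.FiniteType k Γ(Z, V) := hψ
  obtain ⟨c, hc0, hc⟩ := fib_alg k Γ(Z, V) Γ(Y, U) (f.appLE V U e).hom (E1_inj f V U e hne)
    (f.finiteType_appLE hV hU e) hac
  refine ⟨c, hc0, fun z hz hzc => ?_⟩
  have hzV : z ∈ V := Z.basicOpen_le c hz
  rw [E1_fib_eq f V hV U hU e z hzV hzc]
  refine (hc _ (hV.primeIdealOf_isMaximal_of_isClosed ⟨z, hzV⟩ hzc) ?_).image _
    hU.fromSpec.continuous.continuousOn
  intro hcm
  have h1 : hV.primeIdealOf ⟨z, hzV⟩ ∈ hV.fromSpec ⁻¹ᵁ Z.basicOpen c := by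
    show hV.fromSpec (hV.primeIdealOf ⟨z, hzV⟩) ∈ Z.basicOpen c
    rw [IsAffineOpen.fromSpec_primeIdealOf]
    exact hz
  rw [hV.fromSpec_preimage_basicOpen] at h1
  exact h1 hcm

theorem dense_irred (k : Type) [Field k] [IsAlgClosed k] [CharZero k] (Y Z : Scheme.{0})
    (s : Z ⟶ Spec (CommRingCat.of k)) (f : Y ⟶ Z) [IsIntegral Y] [IsIntegral Z]
    [LocallyOfFiniteType s] [LocallyOfFiniteType f] [CompactSpace Y] [Surjective f] (hac : ACS f) :
    ∀ V : Z.Opens, (V : Set Z).Nonempty → ∃ z ∈ V, IsClosed {z} ∧ IsIrreducible (f ⁻¹' {z}) := by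
  intro W hW
  obtain ⟨V, hVW, hV, hVne, hAC⟩ := hac W hW
  have hln : IsLocallyNoetherian Z := LocallyOfFiniteType.isLocallyNoetherian s
  have hlnY : IsLocallyNoetherian Y := LocallyOfFiniteType.isLocallyNoetherian f
  have hnY : IsNoetherian Y := { }
  have hJ : JacobsonSpace Z := LocallyOfFiniteType.jacobsonSpace s
  haveI : Nonempty V := ⟨⟨hVne.some, hVne.some_mem⟩⟩
  have hcomp : IsCompact ((f ⁻¹ᵁ V : Y.Opens) : Set Y) := TopologicalSpace.NoetherianSpace.isCompact _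
  -- a finite cover by nonempty affine open subsets
  have hbasis := Y.isBasis_affineOpens
  let T : Type := {U : Y.Opens // IsAffineOpen U ∧ U ≤ f ⁻¹ᵁ V ∧ (U : Set Y).Nonempty}
  have hcov : ((f ⁻¹ᵁ V : Y.Opens) : Set Y) ⊆ ⋃ U : T, (U.1 : Set Y) := by
    intro x hx
    obtain ⟨U, hUa, hxU, hUV⟩ := TopologicalSpace.Opens.isBasis_iff_nbhd.1 hbasis hx
    exact Set.mem_iUnion.2 ⟨⟨U, hUa, hUV, ⟨x, hxU⟩⟩, hxU⟩
  obtain ⟨t, ht⟩ := hcomp.elim_finite_subcover (fun U : T => (U.1 : Set Y)) (fun U => U.1.isOpen) hcov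
  -- the intersections
  have hint : ∀ U U' : T, ∃ U'' : T, U''.1 ≤ U.1 ⊓ U'.1 := by
    intro U U'
    obtain ⟨x, hx1, hx2⟩ := nonempty_preirreducible_inter U.1.isOpen U'.1.isOpen U.2.2.2 U'.2.2.2
    obtain ⟨O, hOa, hxO, hO⟩ := TopologicalSpace.Opens.isBasis_iff_nbhd.1 hbasis
      (show x ∈ U.1 ⊓ U'.1 from ⟨hx1, hx2⟩)
    exact ⟨⟨O, hOa, le_trans hO (le_trans inf_le_left U.2.2.1), ⟨x, hxO⟩⟩, hO⟩
  choose I hI using hint
  have hone : ∀ U : T, ∃ c : Γ(Z, V), c ≠ 0 ∧ ∀ z : Z, z ∈ Z.basicOpen c → IsClosed {z} →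
      IsIrreducible (f ⁻¹' {z} ∩ (U.1 : Set Y)) := fun U =>
    E1_one k s f V hV hVne U.1 U.2.1 U.2.2.1 U.2.2.2 (hAC U.1 U.2.2.1 U.2.1 U.2.2.2)
  choose c hc0 hc using hone
  let d : Γ(Z, V) := (∏ U ∈ t, c U) * ∏ U ∈ t, ∏ U' ∈ t, c (I U U')
  have hd0 : d ≠ 0 := by
    refine mul_ne_zero (Finset.prod_ne_zero_iff.2 fun U _ => hc0 U) ?_
    exact Finset.prod_ne_zero_iff.2 fun U _ => Finset.prod_ne_zero_iff.2 fun U' _ => hc0 _
  have hle : ∀ a : Γ(Z, V), a ∣ d → Z.basicOpen d ≤ Z.basicOpen a := by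
    rintro a ⟨b, hb⟩
    rw [hb, Scheme.basicOpen_mul]
    exact inf_le_left
  have hdne : (Z.basicOpen d : Set Z).Nonempty := by
    rw [Set.nonempty_iff_ne_empty]
    intro h
    exact hd0 ((basicOpen_eq_bot_iff d).1 (TopologicalSpace.Opens.ext h))
  obtain ⟨z, hz, hzc⟩ := nonempty_inter_closedPoints hdne (Z.basicOpen d).isOpen.isLocallyClosed
  have hzc' : IsClosed {z} := hzc
  have hzV : z ∈ V := Z.basicOpen_le d hz
  refine ⟨z, hVW hzV, hzc', ?_⟩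
  haveI : Nonempty t := by
    obtain ⟨y, hy⟩ := f.surjective z
    have hy' : y ∈ ((f ⁻¹ᵁ V : Y.Opens) : Set Y) := by
      show f y ∈ V
      rw [hy]; exact hzV
    obtain ⟨U, hU⟩ := Set.mem_iUnion.1 (ht hy')
    obtain ⟨hUt, _⟩ := Set.mem_iUnion.1 hU
    exact ⟨⟨U, hUt⟩⟩
  refine cover_irred (ι := t) (f ⁻¹' {z}) (fun U => (U.1.1 : Set Y)) (fun U => U.1.1.isOpen) ?_ ?_ ?_
  · intro y hy
    have hy' : y ∈ ((f ⁻¹ᵁ V : Y.Opens) : Set Y) := by
      show f y ∈ V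
      have : f y = z := hy
      rw [this]; exact hzV
    obtain ⟨U, hU⟩ := Set.mem_iUnion.1 (ht hy')
    obtain ⟨hUt, hyU⟩ := Set.mem_iUnion.1 hU
    exact Set.mem_iUnion.2 ⟨⟨U, hUt⟩, hyU⟩
  · intro U
    refine hc U.1 z (hle _ ?_ hz) hzc'
    exact dvd_mul_of_dvd_left (Finset.dvd_prod_of_mem c U.2) _
  · intro U U'
    have h1 : IsIrreducible (f ⁻¹' {z} ∩ ((I U.1 U'.1).1 : Set Y)) := by
      refine hc (I U.1 U'.1) z (hle _ ?_ hz) hzc'
      refine dvd_mul_of_dvd_right ?_ _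
      exact dvd_trans (Finset.dvd_prod_of_mem (fun V' => c (I U.1 V')) U'.2)
        (Finset.dvd_prod_of_mem (fun V => ∏ V' ∈ t, c (I V V')) U.2)
    obtain ⟨x, hxz, hxI⟩ := h1.1
    have h2 : x ∈ U.1.1 ⊓ U'.1.1 := hI U.1 U'.1 hxI
    exact ⟨x, hxz, h2.1, h2.2⟩

end LibHM79S
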