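import Mathlib

/-! F1 (MEDIUM, algebra, ONLY MATHLIB). Finiteness of the integral closure of A in B, A of finite type over a field k of characteristic 0, B a domain contained in a domain B' of finite type over k. Plan: replace A by its
image Ā in B (a domain of finite type; the integral closure is the same set, and finite over Ā implies finite over A). Noether normalisation P := MvPolynomial (Fin d) k → Ā injective finite. Let I := integralClosure A B
(a domain, integral over P), E := Frac I, an algebraic extension of Frac P =: M. E is finite over M: B'_M := B' localised at P ∖ 0 is a nonzero M-algebra of finite type; a maximal ideal n has residue field finite over M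
(finite_of_finite_type_of_isJacobsonRing / Zariski's lemma) and the field I_M = E (I localised at P ∖ 0, a domain integral over the field M, so a field) embeds in it. char 0: separable. IsIntegralClosure.finite
(P integrally closed Noetherian): the integral closure of P in E is a finite P-module; I is a P-submodule of it, P Noetherian: finite over P, so over A (P → A lift of P → Ā: MvPolynomial.aeval of preimages). -/

namespace LibHM79S

/-- a domain of finite type over a normal Noetherian domain of characteristic 0: the integral closure is finite -/
private theorem F1_core (P B' : Type) [CommRing P] [IsDomain P] [IsNoetherianRing P]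
    [IsIntegrallyClosed P] [CharZero P] [CommRing B'] [IsDomain B'] [Algebra P B']
    [Algebra.FiniteType P B'] (hinj : Function.Injective (algebraMap P B')) :
    IsNoetherian P (integralClosure P B') := by
  classical
  let E := FractionRing B'
  haveI : FaithfulSMul P E := by
    rw [faithfulSMul_iff_algebraMap_injective, IsScalarTower.algebraMap_eq P B' E]
    exact (IsFractionRing.injective B' E).comp hinj
  let M := FractionRing P
  letI : Algebra M E := FractionRing.liftAlgebra P E
  haveI : IsScalarTower P M E := FractionRing.isScalarTower_liftAlgebra P E
  haveI : CharZero M := charZero_of_injective_algebraMap (IsFractionRing.injective P M)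
  obtain ⟨S, hS⟩ := (Algebra.FiniteType.out : (⊤ : Subalgebra P B').FG)
  let C : Subalgebra M E := Algebra.adjoin M ((S.image (algebraMap B' E) : Finset E) : Set E)
  haveI : Algebra.FiniteType M C :=
    (Subalgebra.fg_iff_finiteType C).1 (Subalgebra.fg_adjoin_finset _)
  have hBC : ∀ x : B', algebraMap B' E x ∈ C := by
    intro x
    have hx : x ∈ Algebra.adjoin P (S : Set B') := by
      rw [hS]
      trivial
    induction hx using Algebra.adjoin_induction with
    | mem x hx =>
      exact Algebra.subset_adjoin (by
        rw [Finset.coe_image]
        exact ⟨x, hx, rfl⟩)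
    | algebraMap r =>
      rw [← IsScalarTower.algebraMap_apply P B' E, IsScalarTower.algebraMap_apply P M E]
      exact C.algebraMap_mem _
    | add x y _ _ hx hy =>
      rw [map_add]
      exact C.add_mem hx hy
    | mul x y _ _ hx hy =>
      rw [map_mul]
      exact C.mul_mem hx hy
  let L : Subalgebra M C := integralClosure M C
  have hLi : Algebra.IsIntegral M L := inferInstance
  have hLd : IsDomain L := inferInstance
  have hLf : IsField L := @isField_of_isIntegral_of_isField' M L _ (Subalgebra.toCommRing L)
    hLd _ hLi (Field.toIsField M)
  letI : Field L := hLf.toField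
  haveI : Module.Finite M L := finite_of_algHom_finiteType_of_isJacobsonRing (A := C) L.val
  haveI : IsNoetherian P (integralClosure P L) :=
    IsIntegralClosure.isNoetherian P M L (integralClosure P L)
  let g : B' →ₐ[P] C :=
    { toFun := fun x => ⟨algebraMap B' E x, hBC x⟩
      map_one' := Subtype.ext (map_one _)
      map_mul' := fun x y => Subtype.ext (map_mul _ x y)
      map_zero' := Subtype.ext (map_zero _)
      map_add' := fun x y => Subtype.ext (map_add _ x y)
      commutes' := fun r => Subtype.ext (by
        change algebraMap B' E (algebraMap P B' r) = _
        rw [← IsScalarTower.algebraMap_apply P B' E]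
        rfl) }
  have hginj : Function.Injective g := fun x y hxy =>
    IsFractionRing.injective B' E (congrArg Subtype.val hxy)
  have hgint : ∀ x : integralClosure P B', IsIntegral P (g x.1) := fun x => x.2.map g
  let h : integralClosure P B' →ₗ[P] integralClosure P L :=
    { toFun := fun x => ⟨⟨g x.1, (hgint x).tower_top⟩, by
        have h1 : Function.Injective (L.val.restrictScalars P) := Subtype.val_injective
        exact (isIntegral_algHom_iff (L.val.restrictScalars P) h1).1 (hgint x)⟩
      map_add' := fun x y => Subtype.ext (Subtype.ext (map_add g x.1 y.1))
      map_smul' := fun r x => Subtype.ext (Subtype.ext (map_smul g r x.1)) }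
  exact isNoetherian_of_injective h (fun x y hxy => Subtype.ext (hginj
    (congrArg (fun z : integralClosure P L => (z.1.1 : C)) hxy)))

theorem ic_finite (k A B B' : Type) [Field k] [CharZero k] [CommRing A] [Algebra k A]
    [Algebra.FiniteType k A] [CommRing B] [IsDomain B] [Algebra A B] [Algebra k B]
    [IsScalarTower k A B] [CommRing B'] [IsDomain B'] [Algebra k B'] [Algebra.FiniteType k B']
    (ψ : B →ₐ[k] B') (hψ : Function.Injective ψ) : Module.Finite A (integralClosure A B) := by
  let φ0 : A →ₐ[k] B := IsScalarTower.toAlgHom k A B
  let Ab : Subalgebra k B := φ0.range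
  haveI : Algebra.FiniteType k Ab :=
    Algebra.FiniteType.of_surjective φ0.rangeRestrict φ0.rangeRestrict_surjective
  obtain ⟨d, g, hg, hgi⟩ := exists_integral_inj_algHom_of_fg k Ab
  choose a ha using fun i : Fin d => φ0.rangeRestrict_surjective (g (MvPolynomial.X i))
  let φ : MvPolynomial (Fin d) k →ₐ[k] A := MvPolynomial.aeval a
  have hφ : φ0.rangeRestrict.comp φ = g := by
    apply MvPolynomial.algHom_ext
    intro i
    simp only [AlgHom.comp_apply, φ, MvPolynomial.aeval_X, ha]
  have hφ' : ∀ p, algebraMap A B (φ p) = (g p : B) := by
    intro p
    rw [← hφ]
    rfl
  let P := MvPolynomial (Fin d) k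
  letI : Algebra P A := φ.toRingHom.toAlgebra
  letI : Algebra P B := ((algebraMap A B).comp φ.toRingHom).toAlgebra
  letI : Algebra P B' := ((ψ : B →+* B').comp ((algebraMap A B).comp φ.toRingHom)).toAlgebra
  haveI : IsScalarTower P A B := IsScalarTower.of_algebraMap_eq fun _ => rfl
  let ψP : B →ₐ[P] B' := { ψ with commutes' := fun _ => rfl }
  haveI : IsScalarTower k P B' := by
    refine IsScalarTower.of_algebraMap_eq fun r => ?_
    change algebraMap k B' r = ψ (algebraMap A B (φ (algebraMap k P r)))
    rw [φ.commutes, ← IsScalarTower.algebraMap_apply k A B, ψ.commutes]
  haveI : Algebra.FiniteType P B' := Algebra.FiniteType.of_restrictScalars_finiteType k P B'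
  have hinj : Function.Injective (algebraMap P B') := by
    intro p q hpq
    apply hg
    apply Subtype.ext
    rw [← hφ', ← hφ']
    exact hψ hpq
  have hN := F1_core P B' hinj
  -- elements of B integral over A are integral over P
  have hint : ∀ x : B, IsIntegral A x → IsIntegral P x := by
    intro x hx
    letI : Algebra P Ab := g.toRingHom.toAlgebra
    haveI : IsScalarTower P Ab B := IsScalarTower.of_algebraMap_eq fun p => hφ' p
    haveI : Algebra.IsIntegral P Ab := ⟨fun y => hgi y⟩
    letI : Algebra A Ab := φ0.rangeRestrict.toRingHom.toAlgebra
    haveI : IsScalarTower A Ab B := IsScalarTower.of_algebraMap_eq fun p => rfl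
    have h1 : IsIntegral Ab x := hx.tower_top
    exact isIntegral_trans x h1
  let h : integralClosure A B →ₗ[P] integralClosure P B' :=
    { toFun := fun x => ⟨ψP x.1, (hint x.1 x.2).map ψP⟩
      map_add' := fun x y => Subtype.ext (map_add ψP x.1 y.1)
      map_smul' := fun r x => Subtype.ext (map_smul ψP r x.1) }
  haveI : IsNoetherian P (integralClosure A B) :=
    isNoetherian_of_injective h (fun x y hxy => Subtype.ext (hψ (congrArg Subtype.val hxy)))
  haveI : Module.Finite P (integralClosure A B) := inferInstance
  exact Module.Finite.of_restrictScalars_finite P A (integralClosure A B)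

end LibHM79S
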