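import Pool.Agent.LibHM79S.F1

/-! F2 (MEDIUM, schemes). The relative normalisation of Z in Y is finite over Z. Mathlib AlgebraicGeometry/Normalization.lean: f.normalization, f.toNormalization, f.fromNormalization (integral),
normalizationObjIso, fromNormalization_app. Plan: IsFinite is local on the target: for an affine open U of Z the preimage is affine (integral morphism) and Γ(normalization, fromNormalization⁻¹ U) ≅
integralClosure Γ(Z,U) Γ(Y, f⁻¹U). If f⁻¹U is empty then Γ(Y, f⁻¹U) is zero and so is the integral closure: finite. Else take an affine nonempty open U' ≤ f⁻¹U of Y: Γ(Y, f⁻¹U) → Γ(Y, U')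
is injective (Y integral), Γ(Y,U') and Γ(Z,U) are of finite type over k (k-algebra structures through s and f ≫ s): ic_finite. -/

namespace LibHM79S

open AlgebraicGeometry CategoryTheory

private theorem F2_mf (k : Type) [Field k] [CharZero k] (Y Z : Scheme.{0})
    (s : Z ⟶ Spec (CommRingCat.of k)) (f : Y ⟶ Z) [IsIntegral Y] [LocallyOfFiniteType s]
    [LocallyOfFiniteType (f ≫ s)] (U : Z.Opens) (hU : IsAffineOpen U) :
    letI := (f.app U).hom.toAlgebra
    Module.Finite Γ(Z, U) (integralClosure Γ(Z, U) Γ(Y, f ⁻¹ᵁ U)) := by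
  let := (f.app U).hom.toAlgebra
  by_cases hne : ∃ x, x ∈ f ⁻¹ᵁ U
  · obtain ⟨x, hx⟩ := hne
    obtain ⟨_, ⟨U', hU', rfl⟩, hxU', hle⟩ :=
      Y.isBasis_affineOpens.exists_subset_of_mem_open (a := x) hx (f ⁻¹ᵁ U).2
    have hle' : U' ≤ f ⁻¹ᵁ U := hle
    have : Nonempty (f ⁻¹ᵁ U : Y.Opens) := ⟨⟨x, hx⟩⟩
    have : Nonempty U' := ⟨⟨x, hxU'⟩⟩
    have eU : U ≤ s ⁻¹ᵁ ⊤ := fun _ _ => trivial
    have eU' : U' ≤ (f ≫ s) ⁻¹ᵁ ⊤ := fun _ _ => trivial
    let φA : k →+* Γ(Z, U) :=
      ((Scheme.ΓSpecIso (CommRingCat.of k)).inv ≫ s.appLE ⊤ U eU).hom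
    let algA : Algebra k Γ(Z, U) := φA.toAlgebra
    let algB : Algebra k Γ(Y, f ⁻¹ᵁ U) := ((f.app U).hom.comp φA).toAlgebra
    let ρ : Γ(Y, f ⁻¹ᵁ U) →+* Γ(Y, U') := (Y.presheaf.map (homOfLE hle').op).hom
    let algB' : Algebra k Γ(Y, U') := (ρ.comp ((f.app U).hom.comp φA)).toAlgebra
    have : IsScalarTower k Γ(Z, U) Γ(Y, f ⁻¹ᵁ U) := .of_algebraMap_eq' rfl
    have hiso : (Scheme.ΓSpecIso (CommRingCat.of k)).inv.hom.FiniteType :=
      RingHom.FiniteType.of_surjective _
        (ConcreteCategory.bijective_of_isIso (Scheme.ΓSpecIso (CommRingCat.of k)).inv).2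
    have : Algebra.FiniteType k Γ(Z, U) := by
      have h := (s.finiteType_appLE (isAffineOpen_top _) hU eU).comp hiso
      exact h
    have : Algebra.FiniteType k Γ(Y, U') := by
      have h := ((f ≫ s).finiteType_appLE (isAffineOpen_top _) hU' eU').comp hiso
      have he : (f ≫ s).appLE ⊤ U' eU' =
          s.appLE ⊤ U eU ≫ f.app U ≫ Y.presheaf.map (homOfLE hle').op := by
        rw [Scheme.Hom.app_eq_appLE, Scheme.Hom.appLE_map, Scheme.Hom.appLE_comp_appLE]
      rw [he] at h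
      exact h
    let ψ : Γ(Y, f ⁻¹ᵁ U) →ₐ[k] Γ(Y, U') := { ρ with commutes' := fun r => rfl }
    have hψ : Function.Injective ψ := map_injective_of_isIntegral Y (homOfLE hle')
    exact ic_finite k Γ(Z, U) Γ(Y, f ⁻¹ᵁ U) Γ(Y, U') ψ hψ
  · have hbot : f ⁻¹ᵁ U = ⊥ := by
      ext x
      constructor
      · intro hx
        exact (hne ⟨x, hx⟩).elim
      · intro hx
        exact hx.elim
    have hs : Subsingleton Γ(Y, f ⁻¹ᵁ U) := by
      rw [hbot]
      infer_instance
    have : Subsingleton (integralClosure Γ(Z, U) Γ(Y, f ⁻¹ᵁ U)) :=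
      Subtype.val_injective.subsingleton
    infer_instance

theorem norm_finite (k : Type) [Field k] [CharZero k] (Y Z : Scheme.{0})
    (s : Z ⟶ Spec (CommRingCat.of k)) (f : Y ⟶ Z) [IsIntegral Y] [LocallyOfFiniteType s]
    [LocallyOfFiniteType (f ≫ s)] [QuasiCompact f] [QuasiSeparated f] :
    IsFinite f.fromNormalization := by
  refine { toIsAffineHom := inferInstance, finite_app := fun U hU => ?_ }
  rw [f.fromNormalization_app hU]
  let := (f.app U).hom.toAlgebra
  have hmf : Module.Finite Γ(Z, U) (integralClosure Γ(Z, U) Γ(Y, f ⁻¹ᵁ U)) :=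
    F2_mf k Y Z s f U hU
  rw [CommRingCat.hom_comp]
  refine RingHom.Finite.comp ?_ ?_
  · exact RingHom.Finite.of_surjective _
      (ConcreteCategory.bijective_of_isIso (f.normalizationObjIso hU).inv).2
  · exact RingHom.finite_algebraMap.mpr hmf

end LibHM79S
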