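import Mathlib

/-! F3a (MEDIUM, schemes, ONLY MATHLIB). section_of_stalks: on an integral scheme an element of the function field that lies in the stalk at every point of the nonempty open W is a section over W. Plan: for y ∈ W
choose an open W_y ∋ y, W_y ≤ W, and a section s_y over W_y with germ a_y; its germ at the generic point is x; two sections s_y, s_y' have the same germ at the generic point, so agree on W_y ⊓ W_y' (germToFunctionField is
injective, Mathlib germ_injective_of_isIntegral); glue (Y.sheaf.existsUnique_gluing'). norm_key: x in the function field, integral over Γ(Z, U) through f: for y ∈ f⁻¹U it is integral over the stalk at y (the monic polynomial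
mapped to the stalk), integrally closed with fraction field Y.functionField (instance IsFractionRing (Y.presheaf.stalk y) Y.functionField), so it lies in the stalk; section_of_stalks gives b; b is integral over Γ(Z, U) since
germToFunctionField is injective. -/

namespace LibHM79S

open AlgebraicGeometry CategoryTheory

open Opposite TopologicalSpace in
private lemma F3a_loc (Y : Scheme.{0}) [IsIntegral Y] (W : Y.Opens)
    (x : Y.functionField) (y : Y) (hy : y ∈ W) (a : Y.presheaf.stalk y)
    (ha : algebraMap (Y.presheaf.stalk y) Y.functionField a = x) :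
    ∃ (V : Y.Opens) (_ : y ∈ V) (_ : V ≤ W) (hg : genericPoint Y ∈ V) (s : Γ(Y, V)),
      Y.presheaf.germ V (genericPoint Y) hg s = x := by
  obtain ⟨U, hU, g, hg⟩ := Y.presheaf.exists_germ_eq a
  have hyV : y ∈ U ⊓ W := ⟨hU, hy⟩
  have _hne : Nonempty (U ⊓ W : Y.Opens) := ⟨⟨y, hyV⟩⟩
  have hgen : genericPoint Y ∈ (U ⊓ W : Y.Opens) :=
    ((genericPoint_spec Y).mem_open_set_iff (U ⊓ W : Y.Opens).isOpen).mpr ⟨y, trivial, hyV⟩
  refine ⟨U ⊓ W, hyV, inf_le_right, hgen, Y.presheaf.map (homOfLE inf_le_left).op g, ?_⟩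
  have h1 : Y.presheaf.germ (U ⊓ W) y hyV (Y.presheaf.map (homOfLE inf_le_left).op g) = a := by
    rw [← hg]
    exact Y.presheaf.germ_res_apply (homOfLE inf_le_left) y hyV g
  have h2 := Scheme.algebraMap_germ_eq_germToFunctionField Y hyV
    (Y.presheaf.map (homOfLE inf_le_left).op g)
  rw [h1, ha] at h2
  exact h2.symm

theorem section_of_stalks (Y : Scheme.{0}) [IsIntegral Y] (W : Y.Opens) [Nonempty W]
    (x : Y.functionField) (h : ∀ y ∈ W, ∃ a : Y.presheaf.stalk y,
      algebraMap (Y.presheaf.stalk y) Y.functionField a = x) :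
    ∃ b : Γ(Y, W), (Y.germToFunctionField W).hom b = x := by
  have key : ∀ y : W, ∃ (V : Y.Opens) (_ : y.1 ∈ V) (_ : V ≤ W) (hg : genericPoint Y ∈ V)
      (s : Γ(Y, V)), Y.presheaf.germ V (genericPoint Y) hg s = x := by
    intro y
    obtain ⟨a, ha⟩ := h y.1 y.2
    exact F3a_loc Y W x y.1 y.2 a ha
  choose V hyV hVW hgV s hs using key
  have hcompat : TopCat.Presheaf.IsCompatible Y.presheaf V s := by
    intro i j
    have hgen : genericPoint Y ∈ V i ⊓ V j := ⟨hgV i, hgV j⟩
    apply germ_injective_of_isIntegral Y (U := V i ⊓ V j) (genericPoint Y) hgen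
    have e1 := Y.presheaf.germ_res_apply (TopologicalSpace.Opens.infLELeft (V i) (V j))
      (genericPoint Y) hgen (s i)
    have e2 := Y.presheaf.germ_res_apply (TopologicalSpace.Opens.infLERight (V i) (V j))
      (genericPoint Y) hgen (s j)
    exact e1.trans ((hs i).trans ((hs j).symm.trans e2.symm))
  obtain ⟨b, hb, _⟩ := Y.sheaf.existsUnique_gluing' V W (fun i => homOfLE (hVW i))
    (fun y hy => by
      rw [TopologicalSpace.Opens.mem_iSup]
      exact ⟨⟨y, hy⟩, hyV ⟨y, hy⟩⟩) s hcompat
  refine ⟨b, ?_⟩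
  obtain ⟨y⟩ := (inferInstance : Nonempty W)
  have e1 := Y.presheaf.germ_res_apply (homOfLE (hVW y)) (genericPoint Y) (hgV y) b
  have e2 := hb y
  have e3 : Y.presheaf.map (homOfLE (hVW y)).op b = s y := e2
  rw [e3, hs y] at e1
  exact e1.symm

theorem norm_key (Y Z : Scheme.{0}) (f : Y ⟶ Z) [IsIntegral Y]
    (hY : ∀ y : Y, IsIntegrallyClosed (Y.presheaf.stalk y)) (U : Z.Opens) [Nonempty (f ⁻¹ᵁ U)]
    (x : Y.functionField)
    (hx : (f.app U ≫ Y.germToFunctionField (f ⁻¹ᵁ U)).hom.IsIntegralElem x) :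
    ∃ b : Γ(Y, f ⁻¹ᵁ U), (Y.germToFunctionField (f ⁻¹ᵁ U)).hom b = x ∧
      (f.app U).hom.IsIntegralElem b := by
  obtain ⟨p, hp, hpx⟩ := hx
  have hstalk : ∀ y ∈ f ⁻¹ᵁ U, ∃ a : Y.presheaf.stalk y,
      algebraMap (Y.presheaf.stalk y) Y.functionField a = x := by
    intro y hy
    have _hyc := hY y
    have hint : IsIntegral (Y.presheaf.stalk y) x := by
      refine ⟨p.map ((Y.presheaf.germ (f ⁻¹ᵁ U) y hy).hom.comp (f.app U).hom), hp.map _, ?_⟩
      rw [Polynomial.eval₂_map]
      have e : (algebraMap (Y.presheaf.stalk y) Y.functionField).comp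
          ((Y.presheaf.germ (f ⁻¹ᵁ U) y hy).hom.comp (f.app U).hom) =
          (f.app U ≫ Y.germToFunctionField (f ⁻¹ᵁ U)).hom := by
        ext z
        exact Scheme.algebraMap_germ_eq_germToFunctionField Y hy ((f.app U).hom z)
      rw [e]
      exact hpx
    exact IsIntegrallyClosed.isIntegral_iff.mp hint
  obtain ⟨b, hb⟩ := section_of_stalks Y (f ⁻¹ᵁ U) x hstalk
  refine ⟨b, hb, p, hp, ?_⟩
  apply Y.germToFunctionField_injective (f ⁻¹ᵁ U)
  have e1 := Polynomial.hom_eval₂ p (f.app U).hom (Y.germToFunctionField (f ⁻¹ᵁ U)).hom b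
  have e2 : (Y.germToFunctionField (f ⁻¹ᵁ U)).hom (Polynomial.eval₂ (f.app U).hom b p) = 0 := by
    rw [e1, hb]
    exact hpx
  rw [map_zero]
  exact e2

end LibHM79S
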