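import Pool.Agent.LibHM79S.F3a

/-! F3b (MEDIUM, schemes). The relative normalisation N of Z in Y (Mathlib AlgebraicGeometry/Normalization.lean) is normal if Y is. Plan: z ∈ N, U affine open of Z with fromNormalization z ∈ U, V₀ := fromNormalization⁻¹ U,
affine (integral morphism), Γ(N, V₀) ≅ I := integralClosure Γ(Z,U) Γ(Y, f⁻¹U) (normalizationObjIso); f⁻¹U is nonempty (toNormalization is dominant, V₀ nonempty, toNormalization ≫ fromNormalization = f). I is integrally
closed: x ∈ Frac I integral over I; embed Frac I in Y.functionField (I ⊆ Γ(Y,f⁻¹U) ⊆ Y.functionField, a domain); x is integral over Γ(Z,U) (transitivity), norm_key: x ∈ I. The stalk of N at z is the localisation of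
Γ(N, V₀) at a prime (IsAffineOpen.isLocalization_stalk), IsIntegrallyClosed passes to localisations (IsIntegrallyClosed.of_localization... / isIntegrallyClosed_of_isLocalization). -/

namespace LibHM79S

open AlgebraicGeometry CategoryTheory

private theorem F3b_alg {R B F : Type} [CommRing R] [CommRing B] [IsDomain B] [Field F]
    (g : R →+* B) (j : B →+* F) (hj : Function.Injective j)
    (hkey : ∀ x : F, (j.comp g).IsIntegralElem x → ∃ b : B, j b = x ∧ g.IsIntegralElem b) :
    letI := g.toAlgebra
    IsIntegrallyClosed (integralClosure R B) := by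
  let : Algebra R B := g.toAlgebra
  let : Algebra B F := j.toAlgebra
  let : Algebra R F := (j.comp g).toAlgebra
  have : IsScalarTower R B F := IsScalarTower.of_algebraMap_eq' rfl
  change IsIntegrallyClosed (integralClosure R B)
  have : IsScalarTower R (integralClosure R B) F := IsScalarTower.of_algebraMap_eq' rfl
  have hinj : Function.Injective (algebraMap (integralClosure R B) F) := by
    intro a b hab
    exact Subtype.ext (hj hab)
  let K := FractionRing (integralClosure R B)
  let ψ : K →+* F := IsFractionRing.lift hinj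
  have hψ : ∀ i : integralClosure R B, ψ (algebraMap _ K i) = algebraMap _ F i :=
    fun i => IsFractionRing.lift_algebraMap hinj i
  rw [isIntegrallyClosed_iff K]
  intro x hx
  have h1 : IsIntegral (integralClosure R B) (ψ x) := by
    obtain ⟨P, hP, hPx⟩ := hx
    refine ⟨P, hP, ?_⟩
    have h2 : (algebraMap (integralClosure R B) F) = ψ.comp (algebraMap _ K) := by
      ext i
      exact (hψ i).symm
    rw [h2, ← Polynomial.hom_eval₂, hPx, map_zero]
  have h3 : IsIntegral R (ψ x) := isIntegral_trans (A := integralClosure R B) _ h1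
  obtain ⟨b, hb, hbi⟩ := hkey (ψ x) h3
  refine ⟨⟨b, hbi⟩, ?_⟩
  apply ψ.injective
  rw [hψ]
  exact hb

theorem norm_normal (Y Z : Scheme.{0}) (f : Y ⟶ Z) [IsIntegral Y] [QuasiCompact f]
    [QuasiSeparated f] (hY : ∀ y : Y, IsIntegrallyClosed (Y.presheaf.stalk y)) :
    ∀ z : f.normalization, IsIntegrallyClosed (f.normalization.presheaf.stalk z) := by
  intro z
  obtain ⟨_, ⟨U, hU, rfl⟩, hpU, -⟩ :=
    Z.isBasis_affineOpens.exists_subset_of_mem_open (Set.mem_univ (f.fromNormalization z))
      isOpen_univ
  have hV : IsAffineOpen (f.fromNormalization ⁻¹ᵁ U) := hU.preimage f.fromNormalization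
  have hzV : z ∈ f.fromNormalization ⁻¹ᵁ U := hpU
  have hne : Nonempty (f ⁻¹ᵁ U) := by
    obtain ⟨y, hy⟩ := f.toNormalization.denseRange.exists_mem_open
      (f.fromNormalization ⁻¹ᵁ U).isOpen ⟨z, hzV⟩
    refine ⟨⟨y, ?_⟩⟩
    have h1 : f.fromNormalization (f.toNormalization y) ∈ U := hy
    rw [← Scheme.Hom.comp_apply, f.toNormalization_fromNormalization] at h1
    exact h1
  have hI := F3b_alg (f.app U).hom (Y.germToFunctionField (f ⁻¹ᵁ U)).hom
    (Y.germToFunctionField_injective (f ⁻¹ᵁ U)) (fun x hx => norm_key Y Z f hY U x hx)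
  let := (f.app U).hom.toAlgebra
  have e : Γ(f.normalization, f.fromNormalization ⁻¹ᵁ U) ≃+*
      integralClosure Γ(Z, U) Γ(Y, f ⁻¹ᵁ U) :=
    (f.normalizationObjIso hU).commRingCatIsoToRingEquiv
  have hA : IsIntegrallyClosed Γ(f.normalization, f.fromNormalization ⁻¹ᵁ U) :=
    IsIntegrallyClosed.of_equiv e.symm
  have : Nonempty (f.fromNormalization ⁻¹ᵁ U) := ⟨⟨z, hzV⟩⟩
  have hdom : IsDomain Γ(f.normalization, f.fromNormalization ⁻¹ᵁ U) := inferInstance
  let := TopCat.Presheaf.algebra_section_stalk f.normalization.presheaf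
    (⟨z, hzV⟩ : f.fromNormalization ⁻¹ᵁ U)
  have hloc := hV.isLocalization_stalk ⟨z, hzV⟩
  exact isIntegrallyClosed_of_isLocalization _
    (hV.primeIdealOf ⟨z, hzV⟩).asIdeal.primeCompl
    (Ideal.primeCompl_le_nonZeroDivisors _)

end LibHM79S
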