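import Pool.Agent.LibHM79S.F3a
import Pool.Agent.LibHM79S.Defs

/-! F3c (MEDIUM/STRONG, schemes). The function field of the relative normalisation N of Z in the normal scheme Y is algebraically closed in the one of Y. Plan: given W nonempty open in N choose an affine open U of Z with
V₀ := fromNormalization⁻¹ U meeting W; V₀ affine; a basic open V = N.basicOpen s ≤ W ⊓ V₀, nonempty, s ∈ Γ(N, V₀) (IsAffineOpen.exists_basicOpen_le). f⁻¹U nonempty. Let U' ≤ toNormalization⁻¹ V be affine nonempty in Y.
x ∈ FractionRing Γ(Y,U') ≅ Y.functionField (functionField_isFractionRing_of_isAffineOpen) with a nonzero polynomial over Γ(N,V) = Γ(N,V₀)[1/s]; clear denominators: a nonzero polynomial over Γ(N,V₀) ≅ I :=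
integralClosure Γ(Z,U) Γ(Y,f⁻¹U) (normalizationObjIso; the map to Y is toNormalization.appLE, normalizationObjIso_hom_val). So a x is integral over I for some a ≠ 0 in I (exists_integral_multiple or leading coefficient;
I → function field injective), hence over Γ(Z,U) (transitivity); norm_key: a x comes from an element of I. Restrict a and a x to V. -/

namespace LibHM79S

open AlgebraicGeometry CategoryTheory

open Polynomial in
private theorem F3c_alg {R S K : Type} [CommRing R] [CommRing S] [Algebra R S] [Field K] (s : R)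
    [IsLocalization.Away s S] (φ : S →+* K)
    (hinj : Function.Injective (φ.comp (algebraMap R S)))
    (hint : ∀ x : K, (φ.comp (algebraMap R S)).IsIntegralElem x →
      ∃ r : R, (φ.comp (algebraMap R S)) r = x) : AC φ := by
  intro x P hP hPx
  set ι := φ.comp (algebraMap R S) with hι
  obtain ⟨b, hb⟩ := IsLocalization.integerNormalization_map_to_map (Submonoid.powers s) P
  set Q := IsLocalization.integerNormalization (Submonoid.powers s) P with hQ
  have hbu : IsUnit (algebraMap R S b) := IsLocalization.map_units S b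
  have hQ0 : Q ≠ 0 := by
    intro h0
    rw [h0, Polynomial.map_zero] at hb
    apply hP
    ext n
    have h1 := congrArg (fun q => Polynomial.coeff q n) hb
    simp only [Polynomial.coeff_zero, Polynomial.coeff_smul] at h1
    rw [Algebra.smul_def] at h1
    rw [Polynomial.coeff_zero]
    exact (hbu.mul_right_eq_zero).1 h1.symm
  have hQx : Q.eval₂ ι x = 0 := by
    rw [hι, ← Polynomial.eval₂_map, hb]
    have h2 : (b : R) • P = Polynomial.C (algebraMap R S b) * P := by
      rw [Algebra.smul_def]
      rfl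
    rw [h2, Polynomial.eval₂_mul, hPx, mul_zero]
  have hI := RingHom.isIntegralElem_leadingCoeff_mul ι Q x hQx
  obtain ⟨r, hr⟩ := hint _ hI
  refine ⟨algebraMap R S r, algebraMap R S Q.leadingCoeff, ?_, ?_⟩
  · intro h0
    have : ι Q.leadingCoeff = 0 := by
      rw [hι, RingHom.comp_apply, h0, map_zero]
    have h3 : Q.leadingCoeff = 0 := hinj (by rw [map_zero]; exact this)
    exact hQ0 (Polynomial.leadingCoeff_eq_zero.1 h3)
  · exact hr.symm

private theorem F3c_ac_of_comp {C L M : Type} [CommRing C] [CommRing L] [CommRing M]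
    (φ : C →+* L) (ψ : L →+* M) (hψ : Function.Injective ψ) (h : AC (ψ.comp φ)) : AC φ := by
  intro x P hP hPx
  obtain ⟨a, b, hb, hab⟩ := h (ψ x) P hP (by
    rw [← Polynomial.hom_eval₂, hPx, map_zero])
  refine ⟨a, b, hb, hψ ?_⟩
  rw [map_mul]
  exact hab

private theorem F3c_trans {A B K : Type} [CommRing A] [CommRing B] [CommRing K] (g : A →+* B)
    (h : B →+* K) (hg : g.IsIntegral) (x : K) (hx : h.IsIntegralElem x) :
    (h.comp g).IsIntegralElem x := by
  let := g.toAlgebra
  let := h.toAlgebra
  let := (h.comp g).toAlgebra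
  have : IsScalarTower A B K := IsScalarTower.of_algebraMap_eq' rfl
  have : Algebra.IsIntegral A B := ⟨fun b => hg b⟩
  have hx' : IsIntegral B x := hx
  exact isIntegral_trans (R := A) (A := B) x hx'

theorem norm_ac (Y Z : Scheme.{0}) (f : Y ⟶ Z) [IsIntegral Y] [QuasiCompact f]
    [QuasiSeparated f] (hY : ∀ y : Y, IsIntegrallyClosed (Y.presheaf.stalk y)) :
    ACS f.toNormalization := by
  rintro W ⟨n, hn⟩
  obtain ⟨_, ⟨U, hU, rfl⟩, hnU, -⟩ := Z.isBasis_affineOpens.exists_subset_of_mem_open
    (Set.mem_univ (f.fromNormalization n)) isOpen_univ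
  have hU : IsAffineOpen U := hU
  have hV₀ : IsAffineOpen (f.fromNormalization ⁻¹ᵁ U) := hU.preimage _
  have hnV₀ : n ∈ f.fromNormalization ⁻¹ᵁ U := hnU
  obtain ⟨s, hsW, hns⟩ := hV₀.exists_basicOpen_le (V := W) ⟨n, hn⟩ hnV₀
  refine ⟨f.normalization.basicOpen s, hsW, hV₀.basicOpen s, ⟨n, hns⟩, ?_⟩
  rintro U' e hU' ⟨y, hy⟩
  have : Nonempty U' := ⟨⟨y, hy⟩⟩
  have heq : f.toNormalization ⁻¹ᵁ (f.fromNormalization ⁻¹ᵁ U) = f ⁻¹ᵁ U := by
    simp [← Scheme.Hom.comp_preimage]
  have hle1 : f.toNormalization ⁻¹ᵁ (f.normalization.basicOpen s) ≤ f ⁻¹ᵁ U := by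
    rw [← heq]
    exact f.toNormalization.preimage_mono (f.normalization.basicOpen_le s)
  have hU'le : U' ≤ f ⁻¹ᵁ U := e.trans hle1
  have hne : Nonempty (f ⁻¹ᵁ U) := ⟨⟨y, hU'le hy⟩⟩
  have hfr := functionField_isFractionRing_of_isAffineOpen Y U' hU'
  -- the map of the fraction ring to the function field
  have hginj : Function.Injective (Y.germToFunctionField U').hom :=
    Scheme.germToFunctionField_injective Y U'
  let ψ : FractionRing Γ(Y, U') →+* Y.functionField := IsFractionRing.lift hginj
  have hψ : Function.Injective ψ := ψ.injective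
  apply F3c_ac_of_comp _ ψ hψ
  have hcomp : ψ.comp ((algebraMap Γ(Y, U') (FractionRing Γ(Y, U'))).comp
      (f.toNormalization.appLE (f.normalization.basicOpen s) U' e).hom) =
      (f.toNormalization.appLE (f.normalization.basicOpen s) U' e ≫
        Y.germToFunctionField U').hom := by
    ext z
    simp only [RingHom.comp_apply, ψ, IsFractionRing.lift_algebraMap]
    rfl
  rw [hcomp]
  have hloc := hV₀.isLocalization_basicOpen s
  have hι : ((f.toNormalization.appLE (f.normalization.basicOpen s) U' e ≫
        Y.germToFunctionField U').hom).comp (algebraMap Γ(f.normalization,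
          f.fromNormalization ⁻¹ᵁ U) Γ(f.normalization, f.normalization.basicOpen s)) =
      (f.toNormalization.appLE (f.fromNormalization ⁻¹ᵁ U) (f ⁻¹ᵁ U) (by rw [heq]) ≫
        Y.germToFunctionField (f ⁻¹ᵁ U)).hom := by
    rw [RingHom.algebraMap_toAlgebra, ← CommRingCat.hom_comp]
    congr 1
    rw [← Category.assoc, Scheme.Hom.map_appLE]
    have h1 : f.toNormalization.appLE (f.fromNormalization ⁻¹ᵁ U) (f ⁻¹ᵁ U) (by rw [heq]) ≫
        Y.presheaf.map (homOfLE hU'le).op =
        f.toNormalization.appLE (f.fromNormalization ⁻¹ᵁ U) U'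
          (hU'le.trans (by rw [heq])) := by
      rw [Scheme.Hom.appLE_map]
    rw [← h1, Category.assoc]
    congr 1
    exact Y.presheaf.germ_res (homOfLE hU'le) _ _
  let := (f.app U).hom.toAlgebra
  have hval := f.normalizationObjIso_hom_val hU
  apply F3c_alg s
  · rw [hι]
    intro a b hab
    rw [← hval] at hab
    simp only [CommRingCat.hom_comp, RingHom.comp_apply] at hab
    have h1 := Scheme.germToFunctionField_injective Y (f ⁻¹ᵁ U) hab
    have h2 := Subtype.val_injective h1
    have h3 : Function.Injective (f.normalizationObjIso hU).hom.hom :=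
      (ConcreteCategory.bijective_of_isIso (f.normalizationObjIso hU).hom).1
    exact h3 h2
  · rw [hι]
    intro x hx
    have hpint : (f.fromNormalization.app U).hom.IsIntegral :=
      IsIntegralHom.isIntegral_app _ _ hU
    have h4 := F3c_trans _ _ hpint x hx
    have h5 : ((f.toNormalization.appLE (f.fromNormalization ⁻¹ᵁ U) (f ⁻¹ᵁ U) (by rw [heq]) ≫
        Y.germToFunctionField (f ⁻¹ᵁ U)).hom).comp (f.fromNormalization.app U).hom =
        (f.app U ≫ Y.germToFunctionField (f ⁻¹ᵁ U)).hom := by
      rw [← CommRingCat.hom_comp, ← Category.assoc]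
      congr 2
      rw [Scheme.Hom.app_eq_appLE, Scheme.Hom.appLE_comp_appLE, Scheme.Hom.app_eq_appLE]
      simp only [Scheme.Hom.toNormalization_fromNormalization]
    rw [h5] at h4
    obtain ⟨b, hb, hbI⟩ := norm_key Y Z f hY U x h4
    refine ⟨(f.normalizationObjIso hU).inv.hom ⟨b, hbI⟩, ?_⟩
    rw [← hval]
    simp only [CommRingCat.hom_comp, RingHom.comp_apply]
    have h6 : (f.normalizationObjIso hU).hom.hom ((f.normalizationObjIso hU).inv.hom
        ⟨b, hbI⟩) = ⟨b, hbI⟩ := by
      rw [← RingHom.comp_apply, ← CommRingCat.hom_comp, Iso.inv_hom_id]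
      rfl
    rw [h6]
    exact hb

end LibHM79S
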