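import Mathlib

/-! F4 (MEDIUM, ONLY MATHLIB). The dimension does not grow under integral morphisms. Plan: topologicalKrullDim is the sup of lengths of chains of irreducible closed subsets (IrreducibleCloseds). A strict chain T_0 < … < T_l
in Z' gives the chain of the images (closed since ν is closed, irreducible); strict: if ν(T_i) = ν(T_(i+1)), let ξ, η be the generic points of T_i, T_(i+1) (schemes are sober): ν ξ = ν η (generic point of the
image) and η specialises to ξ; take an affine open U ∋ ν ξ, ν⁻¹U is affine and Γ(Z,U) → Γ(Z',ν⁻¹U) integral: the primes of ξ and η are comparable with the same contraction, so equal (Ideal incomparability for integral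
extensions, e.g. Ideal.comap_lt_comap_of_integral_mem_sdiff / IsIntegral eq_of_comap_eq). Use a strictly monotone map IrreducibleCloseds Z' → IrreducibleCloseds Z and Order.krullDim_le_of_strictMono. -/

namespace LibHM79S

open AlgebraicGeometry CategoryTheory

private theorem F4_eq_of_specializes (Z' Z : Scheme.{0}) (ν : Z' ⟶ Z) [IsIntegralHom ν] (η ξ : Z')
    (h : η ⤳ ξ) (he : ν η = ν ξ) : η = ξ := by
  obtain ⟨U, hU, hxU, -⟩ := exists_isAffineOpen_mem_and_subset (x := ν ξ) (U := (⊤ : Z.Opens)) trivial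
  have hV : IsAffineOpen (ν ⁻¹ᵁ U) := hU.preimage ν
  have hξV : ξ ∈ ν ⁻¹ᵁ U := hxU
  have hηV : η ∈ ν ⁻¹ᵁ U := by
    change ν η ∈ U
    rw [he]; exact hxU
  have hint := ν.isIntegral_app U hU
  have hP := IsAffineOpen.comap_primeIdealOf_appLE (f := ν) (x := η) U hU (ν ⁻¹ᵁ U) hV le_rfl hηV
  have hQ := IsAffineOpen.comap_primeIdealOf_appLE (f := ν) (x := ξ) U hU (ν ⁻¹ᵁ U) hV le_rfl hξV
  have h1 : hV.fromSpec (hV.primeIdealOf ⟨η, hηV⟩) = η := hV.fromSpec_primeIdealOf ⟨η, hηV⟩
  have h2 : hV.fromSpec (hV.primeIdealOf ⟨ξ, hξV⟩) = ξ := hV.fromSpec_primeIdealOf ⟨ξ, hξV⟩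
  generalize hV.primeIdealOf ⟨η, hηV⟩ = P at hP h1
  generalize hV.primeIdealOf ⟨ξ, hξV⟩ = Q at hQ h2
  have hPQ' : P ⤳ Q := by
    have h3 : hV.fromSpec P ⤳ hV.fromSpec Q := by
      rw [h1, h2]; exact h
    exact (hV.fromSpec.isOpenEmbedding.isInducing).specializes_iff.mp h3
  have hPQ : P ≤ Q := (PrimeSpectrum.le_iff_specializes P Q).mpr hPQ'
  have hcomap : P.comap (ν.appLE U (ν ⁻¹ᵁ U) le_rfl).hom = Q.comap (ν.appLE U (ν ⁻¹ᵁ U) le_rfl).hom := by
    rw [hP, hQ]
    congr 1
    exact Subtype.ext he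
  have hPQeq : P = Q := by
    by_contra hne
    have hlt : P.asIdeal < Q.asIdeal := lt_of_le_of_ne hPQ (fun h => hne (PrimeSpectrum.ext h))
    rw [← Scheme.Hom.app_eq_appLE] at hcomap
    let := (ν.app U).hom.toAlgebra
    have : Algebra.IsIntegral Γ(Z, U) Γ(Z', ν ⁻¹ᵁ U) := ⟨fun x => hint x⟩
    have := Ideal.IsIntegral.comap_lt_comap (R := Γ(Z, U)) (A := Γ(Z', ν ⁻¹ᵁ U)) hlt
    exact this.ne (congrArg PrimeSpectrum.asIdeal hcomap)
  rw [← h1, ← h2, hPQeq]

theorem dim_integral_le (Z' Z : Scheme.{0}) (ν : Z' ⟶ Z) [IsIntegralHom ν] :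
    topologicalKrullDim Z' ≤ topologicalKrullDim Z := by
  have hc : Continuous ν := ν.continuous
  refine Order.krullDim_le_of_strictMono (TopologicalSpace.IrreducibleCloseds.map ν hc) ?_
  intro S T hST
  have hle : TopologicalSpace.IrreducibleCloseds.map ν hc S ≤
      TopologicalSpace.IrreducibleCloseds.map ν hc T :=
    TopologicalSpace.IrreducibleCloseds.map_mono hc hST.le
  refine lt_of_le_of_ne hle ?_
  intro heq
  -- generic points
  have hgS := S.isIrreducible.isGenericPoint_genericPoint S.isClosed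
  have hgT := T.isIrreducible.isGenericPoint_genericPoint T.isClosed
  generalize S.isIrreducible.genericPoint = ξ at hgS
  generalize T.isIrreducible.genericPoint = η at hgT
  have hξT : ξ ∈ (T : Set Z') := hST.le hgS.mem
  have hsp : η ⤳ ξ := by
    rw [specializes_iff_mem_closure, hgT.def]
    exact hξT
  have e1 : closure (ν '' (S : Set Z')) = closure {ν ξ} := by
    rw [← hgS.def, closure_image_closure hc, Set.image_singleton]
  have e2 : closure (ν '' (T : Set Z')) = closure {ν η} := by
    rw [← hgT.def, closure_image_closure hc, Set.image_singleton]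
  have e3 : closure (ν '' (S : Set Z')) = closure (ν '' (T : Set Z')) :=
    congrArg (fun A : TopologicalSpace.IrreducibleCloseds Z => (A : Set Z)) heq
  have e4 : ν η = ν ξ := by
    have : Inseparable (ν η) (ν ξ) := by
      rw [inseparable_iff_closure_eq, ← e1, ← e2, e3]
    exact this.eq
  have e5 := F4_eq_of_specializes Z' Z ν η ξ hsp e4
  apply hST.ne
  apply SetLike.coe_injective
  rw [← hgS.def, ← hgT.def, e5]

end LibHM79S
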