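import Pool.Agent.LibHM79S.E1
import Pool.Agent.LibHM79S.F2
import Pool.Agent.LibHM79S.F3b
import Pool.Agent.LibHM79S.F3c
import Pool.Agent.LibHM79S.F4
import Pool.Agent.LibHM79.Defs

/-! ST (assembly): Stein factorisation. -/

namespace LibHM79S

open AlgebraicGeometry CategoryTheory LibHM79

theorem stein (k : Type) [Field k] [IsAlgClosed k] [CharZero k] (Y Z : SchK k)
    [IsIntegral Y.left] [IsProper Y.hom] [IsSeparated Z.hom] [LocallyOfFiniteType Z.hom]
    (hY : ∀ y : Y.left, IsIntegrallyClosed (Y.left.presheaf.stalk y)) (π : Y ⟶ Z) :
    ∃ (Z' : SchK k) (π' : Y ⟶ Z') (ν : Z' ⟶ Z), IsIntegral Z'.left ∧ IsProper Z'.hom ∧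
      (∀ z : Z'.left, IsIntegrallyClosed (Z'.left.presheaf.stalk z)) ∧ Surjective π'.left ∧
      (∀ V : Z'.left.Opens, (V : Set Z'.left).Nonempty →
        ∃ z ∈ V, IsClosed {z} ∧ IsIrreducible (π'.left ⁻¹' {z})) ∧
      topologicalKrullDim Z'.left ≤ topologicalKrullDim Z.left ∧ π' ≫ ν = π := by
  have hprop : IsProper (π.left ≫ Z.hom) := by rw [Over.w]; infer_instance
  have hπ : IsProper π.left := IsProper.of_comp π.left Z.hom
  have hlf : LocallyOfFiniteType (π.left ≫ Z.hom) := inferInstance
  have hfin : IsFinite π.left.fromNormalization :=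
    norm_finite k Y.left Z.left Z.hom π.left
  let Z' : SchK k := Over.mk (π.left.fromNormalization ≫ Z.hom)
  let π' : Y ⟶ Z' := Over.homMk π.left.toNormalization (by
    show π.left.toNormalization ≫ π.left.fromNormalization ≫ Z.hom = Y.hom
    rw [Scheme.Hom.toNormalization_fromNormalization_assoc, Over.w])
  let ν : Z' ⟶ Z := Over.homMk π.left.fromNormalization rfl
  have hZ'lf : LocallyOfFiniteType Z'.hom := by
    show LocallyOfFiniteType (π.left.fromNormalization ≫ Z.hom)
    infer_instance
  have hZ'sep : IsSeparated Z'.hom := by
    show IsSeparated (π.left.fromNormalization ≫ Z.hom)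
    infer_instance
  have hcomp : IsProper (π.left.toNormalization ≫ π.left.fromNormalization) := by
    rw [Scheme.Hom.toNormalization_fromNormalization]; infer_instance
  have hπ'p : IsProper π.left.toNormalization :=
    IsProper.of_comp π.left.toNormalization π.left.fromNormalization
  have hs : Surjective π.left.toNormalization := by
    refine ⟨?_⟩
    have h1 : IsClosed (Set.range π.left.toNormalization) :=
      π.left.toNormalization.isClosedMap.isClosed_range
    have h2 : DenseRange π.left.toNormalization := π.left.toNormalization.denseRange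
    exact Set.range_eq_univ.1 (h1.closure_eq ▸ h2.closure_range)
  have hZ'p : IsProper Z'.hom := by
    have h1 : UniversallyClosed (π.left.toNormalization ≫ Z'.hom) := by
      have : π.left.toNormalization ≫ Z'.hom = Y.hom := by
        show π.left.toNormalization ≫ π.left.fromNormalization ≫ Z.hom = Y.hom
        rw [Scheme.Hom.toNormalization_fromNormalization_assoc, Over.w]
      rw [this]; infer_instance
    have h2 : UniversallyClosed Z'.hom := UniversallyClosed.of_comp_surjective π.left.toNormalization Z'.hom
    exact {}
  have hcs : CompactSpace Y.left := by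
    have h1 : CompactSpace (Spec (CommRingCat.of k)) := inferInstance
    exact QuasiCompact.compactSpace_of_compactSpace (Y := Spec (CommRingCat.of k)) Y.hom
  have hlft : LocallyOfFiniteType π.left.toNormalization := inferInstance
  refine ⟨Z', π', ν, inferInstanceAs (IsIntegral π.left.normalization), hZ'p,
    norm_normal Y.left Z.left π.left hY, hs, ?_, dim_integral_le _ _ π.left.fromNormalization, ?_⟩
  · exact dense_irred k Y.left π.left.normalization Z'.hom π.left.toNormalization
      (norm_ac Y.left Z.left π.left hY)
  · ext1
    exact Scheme.Hom.toNormalization_fromNormalization _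

end LibHM79S
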