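import Pool.Agent.LibHM79.R1
import Pool.Agent.LibHM79S.ST

/-! The extension theorem for arbitrary morphisms. -/

namespace LibHM79S

open AlgebraicGeometry CategoryTheory MonoidalCategory CartesianMonoidalCategory MonObj Limits
  TopologicalSpace LibHM79

theorem main2 (k : Type) [Field k] [IsAlgClosed k] [CharZero k] (G X Y Z : SchK k)
    [GrpObj G] [ModObj G X] [IsIntegral G.left] [Smooth G.hom] [IsSeparated G.hom]
    [QuasiCompact G.hom] [IsIntegral X.left] [IsProper X.hom]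
    (hX : ∀ x : X.left, UniqueFactorizationMonoid (X.left.presheaf.stalk x))
    (i : Y ⟶ X) [IsClosedImmersion i.left] [IsIntegral Y.left]
    (hY : ∀ y : Y.left, IsIntegrallyClosed (Y.left.presheaf.stalk y)) (x₀ : 𝟙_ (SchK k) ⟶ X)
    [Smooth (orb x₀ : G ⟶ X).left]
    [GeometricallyIntegral (pullback.snd (orb x₀ : G ⟶ X).left i.left)]
    (r : ℕ)
    (hY1 : ∀ T : Set X.left, IsClosed T → IsIrreducible T →
      (r : WithBot ℕ∞) ≤ topologicalKrullDim T → (T ∩ Set.range i.left).Nonempty)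
    (hY2 : ∀ T : Set X.left, IsClosed T → IsIrreducible T →
      ((r + 1 : ℕ) : WithBot ℕ∞) ≤ topologicalKrullDim T →
        _root_.IsPreconnected (T ∩ Set.range i.left))
    (hSp : ∀ T : Set Y.left, IsClosed T → T.Infinite →
      ∀ (U : G.left.Opens) (f : Γ(G.left, U)), ev (1 : 𝟙_ (SchK k) ⟶ G) ∈ U →
      (∀ y : 𝟙_ (SchK k) ⟶ Y, ev y ∈ T → ∀ w : Dk k ⟶ G, IsTan w → TanTo i y w →
        DerZero w U f) → ∀ w : Dk k ⟶ G, IsTan w → DerZero w U f)
    [IsSeparated Z.hom] [LocallyOfFiniteType Z.hom] (π : Y ⟶ Z)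
    (hdim : topologicalKrullDim Z.left + r < topologicalKrullDim Y.left) :
    ∃! f : X ⟶ Z, i ≫ f = π := by
  have hYp : IsProper Y.hom := by
    rw [← Over.w i]; infer_instance
  obtain ⟨Z', π', ν, hZi, hZp, hZn, hs, hd, hle, hν⟩ := stein k Y Z hY π
  have hdim₁ : topologicalKrullDim Z'.left + r < topologicalKrullDim Y.left :=
    lt_of_le_of_lt (by gcongr) hdim
  obtain ⟨f', hf', -⟩ := main k G X Y Z' hX i x₀ r hY1 hY2 hSp hZn π' hd hdim₁
  have hle' : topologicalKrullDim Y.left ≤ topologicalKrullDim X.left :=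
    (i.left.isClosedEmbedding.isInducing).topologicalKrullDim_le
  refine ⟨f' ≫ ν, ?_, ?_⟩
  · show i ≫ f' ≫ ν = π
    rw [← Category.assoc, hf', hν]
  · intro f hf
    ext1
    refine ue_ext k X.left Y.left Z.left X.hom Z.hom i.left r hY1 (hdim.trans_le hle') f.left
      (f' ≫ ν).left (Over.w f) (Over.w _) ?_
    intro y
    have h1 : i.left ≫ f.left = π.left := by rw [← Over.comp_left, hf]
    have h2 : i.left ≫ (f' ≫ ν).left = π.left := by
      rw [← Over.comp_left, ← Category.assoc, hf', hν]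
    rw [← Scheme.Hom.comp_apply, ← Scheme.Hom.comp_apply, h1, h2]

end LibHM79S
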