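import Pool.Agent.LibHM79.Defs

/-! Short names for the statement of the extension theorem for subvarieties of homogeneous varieties. -/

namespace LibHM79S

open AlgebraicGeometry CategoryTheory MonoidalCategory CartesianMonoidalCategory MonObj Limits LibHM79

/-- all local rings of `X` are factorial -/
def Factorial (X : Scheme.{0}) : Prop :=
  ∀ x : X, UniqueFactorizationMonoid (X.presheaf.stalk x)

/-- all local rings of `X` are integrally closed -/
def NormalSch (X : Scheme.{0}) : Prop :=
  ∀ x : X, IsIntegrallyClosed (X.presheaf.stalk x)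

/-- the image of `f` meets every irreducible closed subset of dimension at least `r` -/
def Meets {Y X : Scheme.{0}} (f : Y ⟶ X) (r : ℕ) : Prop :=
  ∀ T : Set X, IsClosed T → IsIrreducible T → (r : WithBot ℕ∞) ≤ topologicalKrullDim T →
    (T ∩ Set.range f).Nonempty

/-- the image of `f` has connected (or empty) intersection with every irreducible closed subset of
dimension at least `r + 1` -/
def MeetsConn {Y X : Scheme.{0}} (f : Y ⟶ X) (r : ℕ) : Prop :=
  ∀ T : Set X, IsClosed T → IsIrreducible T →
    ((r + 1 : ℕ) : WithBot ℕ∞) ≤ topologicalKrullDim T → IsPreconnected (T ∩ Set.range f)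

/-- the function `f`, defined on the open set `U` of `T`, has the same pull-backs under the
morphisms `u` and `v`, if both map into `U` -/
def SameValue {A T : Scheme.{0}} (u v : A ⟶ T) (U : T.Opens) (f : Γ(T, U)) : Prop :=
  ∀ (h : ⊤ ≤ u ⁻¹ᵁ U) (h' : ⊤ ≤ v ⁻¹ᵁ U), u.appLE U ⊤ h f = v.appLE U ⊤ h' f

variable {k : Type} [Field k]

/-- `k`-points -/
abbrev Pt (X : SchK k) : Type := 𝟙_ (SchK k) ⟶ X

/-- `k[ε]`-points -/
abbrev DPt (X : SchK k) : Type := Dk k ⟶ X

/-- the orbit map of `x₀` is smooth and its base change to `Y` is geometrically integral -/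
def GoodOrbit {G X Y : SchK k} [MonObj G] [ModObj G X] (i : Y ⟶ X) (x₀ : Pt X) : Prop :=
  Smooth (orb x₀ : G ⟶ X).left ∧
    GeometricallyIntegral (pullback.snd (orb x₀ : G ⟶ X).left i.left)

/-- for every infinite closed subset `T` of `Y` the tangent vectors `w` at `1` of `G` with `w y`
tangent to `Y` for some closed point `y` of `T` span the tangent space: a function near `1` whose
derivatives along them vanish has derivative zero -/
def Spanning {G X Y : SchK k} [MonObj G] [ModObj G X] (i : Y ⟶ X) : Prop :=
  ∀ T : Set Y.left, IsClosed T → T.Infinite →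
    ∀ (U : G.left.Opens) (f : Γ(G.left, U)), ev (1 : Pt G) ∈ U →
    (∀ y : Pt Y, ev y ∈ T → ∀ w : DPt G, IsTan w → TanTo i y w →
      SameValue w.left (1 : DPt G).left U f) →
    ∀ w : DPt G, IsTan w → SameValue w.left (1 : DPt G).left U f

end LibHM79S
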